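import Pool.Agent.Lib.MP_cb4a0f_co.Pl.Defs

/-!
# MP_cb4a0f_co: planar rotated graphs, the next half-edge
-/

open Classical

namespace RotWqo.Pl

variable {V H : Type*}

/-- In a cyclic list with first elements `h`, `g` the element after `h` is `g`. -/
theorem getD_idx_rot {α : Type*} {l : List α} (hn : l.Nodup) {h g : α} {l' : List α}
    (hr : l ~r h :: g :: l') (x : α) : l.getD ((l.idxOf h + 1) % l.length) x = g := by
  obtain ⟨k, hk⟩ := hr
  have hlen : l.length = l'.length + 2 := by
    have := congrArg List.length hk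
    simpa using this
  have hn' : (h :: g :: l').Nodup := by
    rw [← hk]
    exact List.nodup_rotate.2 hn
  -- positions in `l`
  have h0 : l[(0 + k) % l.length]'(Nat.mod_lt _ (by omega)) = h := by
    have := List.getElem_rotate l k 0 (by simp; omega)
    rw [← this]
    simp [hk]
  have h1 : l[(1 + k) % l.length]'(Nat.mod_lt _ (by omega)) = g := by
    have := List.getElem_rotate l k 1 (by simp; omega)
    rw [← this]
    simp [hk]
  have hi : l.idxOf h = (0 + k) % l.length := by
    rw [← h0]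
    exact hn.idxOf_getElem _ _
  have e : (l.idxOf h + 1) % l.length = (1 + k) % l.length := by
    rw [hi, Nat.mod_add_mod]
    congr 1
    omega
  rw [e, List.getD_eq_getElem _ _ (Nat.mod_lt _ (by omega)), h1]

theorem mem_rot_base {G : RotGraph V H} {h : H} (hh : h ∈ G.darts) : h ∈ G.rot (G.base h) :=
  (G.mem_rot _ _).2 ⟨hh, rfl⟩

/-- The list at the end of `h` starts with `h`, up to rotation. -/
theorem exists_rot_cons {α : Type*} {l : List α} {h : α} (hh : h ∈ l) : ∃ l', l ~r h :: l' := by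
  obtain ⟨s, t, rfl⟩ := List.append_of_mem hh
  exact ⟨t ++ s, by simpa using (List.isRotated_append (l := s) (l' := h :: t))⟩

/-- Either `h` is the only half-edge at its end, or it is followed by `nx G h` there. -/
theorem nx_cases (G : RotGraph V H) {h : H} (hh : h ∈ G.darts) :
    (G.rot (G.base h) = [h] ∧ nx G h = h) ∨
      ∃ l, G.rot (G.base h) ~r h :: nx G h :: l := by
  obtain ⟨l', hl'⟩ := exists_rot_cons (mem_rot_base hh)
  cases l' with
  | nil =>
    left
    have h1 : G.rot (G.base h) = [h] := List.isRotated_singleton_iff'.1 hl'.symm |>.symm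
    refine ⟨h1, ?_⟩
    unfold nx
    rw [h1]
    simp
  | cons g l =>
    right
    refine ⟨l, ?_⟩
    have : nx G h = g := getD_idx_rot (G.nodup _) hl' h
    rw [this]
    exact hl'

theorem nx_of_rot {G : RotGraph V H} {h g : H} {l : List H} (hr : G.rot (G.base h) ~r h :: g :: l) :
    nx G h = g := getD_idx_rot (G.nodup _) hr h

theorem nx_mem {G : RotGraph V H} {h : H} (hh : h ∈ G.darts) :
    nx G h ∈ G.darts ∧ G.base (nx G h) = G.base h := by
  rcases nx_cases G hh with ⟨-, h1⟩ | ⟨l, h1⟩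
  · rw [h1]
    exact ⟨hh, rfl⟩
  · exact (G.mem_rot _ _).1 (h1.mem_iff.2 (by simp))

theorem nx_ne {G : RotGraph V H} {h : H} (hh : h ∈ G.darts) (h1 : G.rot (G.base h) ≠ [h]) :
    nx G h ≠ h := by
  rcases nx_cases G hh with ⟨h2, -⟩ | ⟨l, h2⟩
  · exact absurd h2 h1
  · intro h3
    have h4 : (h :: nx G h :: l).Nodup := h2.nodup_iff.1 (G.nodup _)
    rw [h3] at h4
    simp at h4

/-- Every half-edge follows some half-edge. -/
theorem exists_nx {G : RotGraph V H} {h : H} (hh : h ∈ G.darts) :
    ∃ g ∈ G.darts, G.base g = G.base h ∧ nx G g = h := by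
  obtain ⟨l', hl'⟩ := exists_rot_cons (mem_rot_base hh)
  rcases List.eq_nil_or_concat l' with rfl | ⟨l, g, rfl⟩
  · have h1 : G.rot (G.base h) = [h] := List.isRotated_singleton_iff'.1 hl'.symm |>.symm
    rcases nx_cases G hh with ⟨-, h2⟩ | ⟨l, h2⟩
    · exact ⟨h, hh, rfl, h2⟩
    · rw [h1] at h2
      have := h2.perm.length_eq
      simp at this
  · have h1 : G.rot (G.base h) ~r g :: h :: l := by
      refine hl'.trans ?_
      have : (h :: (l ++ [g])) ~r (g :: h :: l) := by
        simpa using (List.isRotated_append (l := h :: l) (l' := [g]))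
      simpa [List.concat_eq_append] using this
    have h2 : g ∈ G.rot (G.base h) := h1.mem_iff.2 (by simp)
    obtain ⟨h3, h4⟩ := (G.mem_rot _ _).1 h2
    refine ⟨g, h3, h4, ?_⟩
    rw [← h4] at h1
    exact nx_of_rot h1

theorem nx_injOn (G : RotGraph V H) : Set.InjOn (nx G) (G.darts : Set H) := by
  have h1 : Set.MapsTo (nx G) (G.darts : Set H) (G.darts : Set H) := fun h hh => (nx_mem hh).1
  have h2 : Set.SurjOn (nx G) (G.darts : Set H) (G.darts : Set H) := by
    intro h hh
    obtain ⟨g, h3, -, h4⟩ := exists_nx (G := G) hh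
    exact ⟨g, h3, h4⟩
  exact Finset.injOn_of_surjOn_of_card_le _ h1 h2 le_rfl

theorem fs_mem {G : RotGraph V H} {h : H} (hh : h ∈ G.darts) : fs G h ∈ G.darts :=
  (nx_mem (G.opp_mem h hh)).1

theorem fs_iter_mem {G : RotGraph V H} {h : H} (hh : h ∈ G.darts) (n : ℕ) :
    (fs G)^[n] h ∈ G.darts := by
  induction n with
  | zero => exact hh
  | succ n ih =>
    rw [Function.iterate_succ_apply']
    exact fs_mem ih

theorem fs_base {G : RotGraph V H} {h : H} (hh : h ∈ G.darts) :
    G.base (fs G h) = G.base (G.opp h) := (nx_mem (G.opp_mem h hh)).2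

theorem fs_injOn (G : RotGraph V H) : Set.InjOn (fs G) (G.darts : Set H) := by
  intro a ha b hb hab
  have h1 := nx_injOn G (G.opp_mem a ha) (G.opp_mem b hb) hab
  rw [← G.opp_opp a ha, h1, G.opp_opp b hb]

/-- The face permutation returns. -/
theorem fs_returns {G : RotGraph V H} {h : H} (hh : h ∈ G.darts) :
    ∃ n, (fs G)^[n + 1] h = h := by
  obtain ⟨i, hi, j, hj, hij, he⟩ : ∃ i ∈ Finset.range (G.darts.card + 1),
      ∃ j ∈ Finset.range (G.darts.card + 1), i ≠ j ∧ (fs G)^[i] h = (fs G)^[j] h :=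
    Finset.exists_ne_map_eq_of_card_lt_of_maps_to (t := G.darts) (by simp)
      (fun n _ => fs_iter_mem hh n)
  have key : ∀ i k : ℕ, (fs G)^[i] h = (fs G)^[i + (k + 1)] h → (fs G)^[k + 1] h = h := by
    intro i
    induction i with
    | zero =>
      intro k hk
      simpa using hk.symm
    | succ i ih =>
      intro k hk
      refine ih k ?_
      rw [Function.iterate_succ_apply', show i + 1 + (k + 1) = (i + (k + 1)) + 1 by omega,
        Function.iterate_succ_apply'] at hk
      exact fs_injOn G (fs_iter_mem hh _) (fs_iter_mem hh _) hk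
  rcases lt_or_gt_of_ne hij with h1 | h1
  · obtain ⟨k, rfl⟩ := Nat.exists_eq_add_of_lt h1
    exact ⟨k, key i k he⟩
  · obtain ⟨k, rfl⟩ := Nat.exists_eq_add_of_lt h1
    exact ⟨k, key j k he.symm⟩

/-- Faces are equal or disjoint: being in the face of `h` is symmetric. -/
theorem fs_symm {G : RotGraph V H} {h g : H} (hh : h ∈ G.darts) (hg : ∃ n, (fs G)^[n] h = g) :
    ∃ n, (fs G)^[n] g = h := by
  obtain ⟨n, rfl⟩ := hg
  obtain ⟨k, hk⟩ := fs_returns hh
  have h1 : ∀ m, (fs G)^[m * (k + 1)] h = h := by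
    intro m
    induction m with
    | zero => simp
    | succ m ih => rw [Nat.succ_mul, Function.iterate_add_apply, hk, ih]
  refine ⟨n * (k + 1) - n, ?_⟩
  rw [← Function.iterate_add_apply, Nat.sub_add_cancel (Nat.le_mul_of_pos_right n (by omega))]
  exact h1 n

theorem mem_face {G : RotGraph V H} {h g : H} :
    g ∈ face G h ↔ g ∈ G.darts ∧ ∃ n, (fs G)^[n] h = g := by
  simp [face]

theorem mem_face_self {G : RotGraph V H} {h : H} (hh : h ∈ G.darts) : h ∈ face G h :=
  mem_face.2 ⟨hh, 0, rfl⟩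

theorem face_eq_of_mem {G : RotGraph V H} {h g : H} (hh : h ∈ G.darts) (hg : g ∈ face G h) :
    face G g = face G h := by
  obtain ⟨h1, n, hn⟩ := mem_face.1 hg
  obtain ⟨k, hk⟩ := fs_symm hh ⟨n, hn⟩
  ext x
  simp only [mem_face]
  constructor
  · rintro ⟨h2, m, hm⟩
    exact ⟨h2, m + n, by rw [Function.iterate_add_apply, hn, hm]⟩
  · rintro ⟨h2, m, hm⟩
    exact ⟨h2, m + k, by rw [Function.iterate_add_apply, hk, hm]⟩

end RotWqo.Pl
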