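import Pool.Agent.Lib.MP_cb4a0f_co.Pl.Path6
import Pool.Agent.Lib.MP_cb4a0f_co.Hk.All

/-!
# MP_cb4a0f_co: excluding a planar rotated graph, the theorem from the modules
-/

open Classical

namespace RotWqo.Pl

open RotWqo.Bag RotWqo.Hk

universe w

/-- Planar rotated graphs: immersions of connected rotated graphs that satisfy Euler's formula. -/
def Planar {V H : Type} (P : RotGraph V H) : Prop :=
  ∃ (V' H' : Type) (P' : RotGraph V' H'), PlanarC P' ∧ Imm (fun _ _ => True) P P'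

/-- `T` is a laminar family of sets of vertices each of which is left by fewer than `M` edges, and
it separates two vertices of every set of at least `m` vertices. -/
structure IsLam {V H : Type} (m M : ℕ) (G : RotGraph V H) (T : Finset (Finset V)) : Prop where
  cuts : ∀ X ∈ T, X ⊆ G.verts ∧ cut G X < M
  laminar : ∀ X ∈ T, ∀ Y ∈ T, X ⊆ Y ∨ Y ⊆ X ∨ Disjoint X Y
  sep : ∀ S ⊆ G.verts, m ≤ S.card → ∃ u ∈ S, ∃ v ∈ S, ∃ X ∈ T, u ∈ X ∧ v ∉ X

theorem planar_universal (hA : StPath) (hE : StEuler) (hB : StHost) (hI : StImmLE) {V₀ H₀ : Type}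
    (P : RotGraph V₀ H₀) (hP : Planar P) : ∃ m M : ℕ, ∀ (V H : Type) (G : RotGraph V H)
      (S : Finset V), S ⊆ G.verts → m ≤ S.card → Lnk M G S → Imm (fun _ _ => True) P G := by
  obtain ⟨V', H', P', h1, h2⟩ := hP
  obtain ⟨n, N, h3⟩ := hA _ _ P' (hE _ _ P' h1)
  obtain ⟨m, M, h4⟩ := hB n N
  exact ⟨m, M, fun V H G S h5 h6 h7 =>
    (((hI _ _ _ _ _ _ _ h2).trans h3).trans (h4 V H G S h5 h6 h7)).imm⟩

theorem planar_structure (hA : StPath) (hE : StEuler) (hB : StHost) (hI : StImmLE)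
    (hG : StGH) {V₀ H₀ : Type} (P : RotGraph V₀ H₀) (hP : Planar P) :
    ∃ m M : ℕ, ∀ (V H : Type) (G : RotGraph V H), ¬ Imm (fun _ _ => True) P G →
      ∃ T, IsLam m M G T := by
  obtain ⟨m, M, h1⟩ := planar_universal hA hE hB hI P hP
  refine ⟨m, M, fun V H G h2 => ?_⟩
  obtain ⟨T, h3, h4, h5⟩ := hG V H G M
  refine ⟨T, h3, h4, fun S hS hm => ?_⟩
  have h6 : ¬ Lnk M G S := fun h7 => h2 (h1 V H G S hS hm h7)
  unfold Lnk at h6
  push Not at h6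
  obtain ⟨X, hX, ⟨u, hu, hu'⟩, ⟨v, hv, hv'⟩, h7⟩ := h6
  obtain ⟨Y, hY, h8 | h8⟩ := h5 u (hS hu) v (hS hv) ⟨X, hX, hu', hv', h7⟩
  · exact ⟨u, hu, v, hv, Y, hY, h8⟩
  · exact ⟨v, hv, u, hu, Y, hY, h8⟩

theorem planar_free_wqo (hA : StPath) (hE : StEuler) (hB : StHost) (hI : StImmLE)
    (hR : StRe) {V₀ H₀ : Type} (P : RotGraph V₀ H₀) (hP : Planar P) (k : ℕ) {Q : Type w}
    (q : Q → Q → Prop) [IsPreorder Q q] (hq : WellQuasiOrdered q) (V H : ℕ → Type)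
    [∀ i, Nonempty (V i)] [∀ i, Nonempty (H i)] (G : ∀ i, RotGraph (V i) (H i))
    (lab : ∀ i, V i → Q) (hG : ∀ i, (G i).verts = ∅ ∨ ∃ t, IsSCar k (G i) t)
    (hf : ∀ i, ¬ Imm (fun _ _ => True) P (G i)) :
    ∃ i j, i < j ∧ Imm (fun v w => q (lab i v) (lab j w)) (G i) (G j) := by
  obtain ⟨m, M, h1⟩ := planar_universal hA hE hB hI P hP
  obtain ⟨K, h2⟩ := hR k m M
  refine wqo_bagsX K Q q hq V H G lab fun i => ?_
  rcases hG i with h3 | ⟨t, h3⟩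
  · exact Or.inl h3
  · exact Or.inr (h2 _ _ (G i) t h3 fun S hS hm h4 => hf i (h1 _ _ (G i) S hS hm h4))

theorem planar_wqo (hA : StPath) (hE : StEuler) (hB : StHost) (hI : StImmLE)
    (hR : StRe) (k : ℕ) (V H : ℕ → Type) [∀ i, Nonempty (V i)] [∀ i, Nonempty (H i)]
    (G : ∀ i, RotGraph (V i) (H i)) (hP : ∀ i, Planar (G i))
    (hG : ∀ i, (G i).verts = ∅ ∨ ∃ t, IsSCar k (G i) t) :
    ∃ i j, i < j ∧ Imm (fun _ _ => True) (G i) (G j) := by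
  by_cases h1 : ∃ j, 0 < j ∧ Imm (fun _ _ => True) (G 0) (G j)
  · obtain ⟨j, h2, h3⟩ := h1
    exact ⟨0, j, h2, h3⟩
  · push Not at h1
    obtain ⟨i, j, hij, h2⟩ := planar_free_wqo.{0} hA hE hB hI hR (G 0) (hP 0) k (Q := Unit)
      (fun _ _ => True) (fun _ => ⟨0, 1, by omega, trivial⟩) (fun i => V (i + 1))
      (fun i => H (i + 1)) (fun i => G (i + 1)) (fun _ _ => ()) (fun i => hG (i + 1))
      (fun i => h1 (i + 1) (by omega))
    exact ⟨i + 1, j + 1, by omega, h2⟩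

theorem planar_iff (hA : StPath) (hE : StEuler) (hB : StHost) (hI : StImmLE)
    (hG : StGH) (hS : StSharp) {V₀ H₀ : Type} (P : RotGraph V₀ H₀) :
    Planar P ↔ ∃ m M : ℕ, ∀ (V H : Type) (G : RotGraph V H), ¬ Imm (fun _ _ => True) P G →
      ∃ T, IsLam m M G T := by
  refine ⟨planar_structure hA hE hB hI hG P, ?_⟩
  rintro ⟨m, M, h1⟩
  obtain ⟨V, H, G, S, h2, h3, h4, h5⟩ := hS m M
  by_contra h6
  have h7 : ¬ Imm (fun _ _ => True) P G := fun h8 => h6 ⟨V, H, G, h2, h8⟩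
  obtain ⟨T, h8⟩ := h1 V H G h7
  obtain ⟨u, hu, v, hv, X, hX, h9, h10⟩ := h8.sep S h3 h4.ge
  have h11 := h5 X (h8.cuts X hX).1 ⟨u, hu, h9⟩ ⟨v, hv, h10⟩
  exact absurd (h8.cuts X hX).2 (not_lt.2 h11)

end RotWqo.Pl
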