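import Pool.Agent.Lib.MP_cb4a0f_co.Pl.Fc11

/-!
# MP_cb4a0f_co: the number of faces and deletion, rows E1, E2, E3 (helper11)
-/

open Classical

namespace RotWqo.Pl.Fc11

variable {V H : Type*}

/-- reachable by the face permutation -/
def R (G : RotGraph V H) (x y : H) : Prop := ∃ n, (fs G)^[n] x = y

section
variable {G : RotGraph V H}

theorem R.refl (x : H) : R G x x := ⟨0, rfl⟩

theorem R.trans {x y z : H} (h : R G x y) (h' : R G y z) : R G x z := by
  obtain ⟨n, rfl⟩ := h
  obtain ⟨m, rfl⟩ := h'
  exact ⟨m + n, by rw [Function.iterate_add_apply]⟩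

theorem R.step (x : H) : R G x (fs G x) := ⟨1, rfl⟩

theorem R.head {x y z : H} (h : fs G x = y) (h' : R G y z) : R G x z :=
  (h ▸ R.step x : R G x y).trans h'

theorem R.symm {x y : H} (hx : x ∈ G.darts) (h : R G x y) : R G y x := fs_symm hx h

theorem R.mem {x y : H} (hx : x ∈ G.darts) (h : R G x y) : y ∈ G.darts := by
  obtain ⟨n, rfl⟩ := h
  exact fs_iter_mem hx n

theorem R.closed {P : H → Prop} (hP : ∀ h ∈ G.darts, P h → P (fs G h)) {x y : H}
    (hx : x ∈ G.darts) (h : R G x y) (hp : P x) : P y := by
  obtain ⟨n, rfl⟩ := h
  induction n with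
  | zero => exact hp
  | succ n ih =>
    rw [Function.iterate_succ_apply']
    exact hP _ (fs_iter_mem hx n) ih

theorem face_iff {x y : H} (hx : x ∈ G.darts) (hy : y ∈ G.darts) :
    face G x = face G y ↔ R G x y := by
  constructor
  · intro h
    have : y ∈ face G x := by
      rw [h]
      exact mem_face_self hy
    exact (mem_face.1 this).2
  · intro h
    exact (face_eq_of_mem hx (mem_face.2 ⟨hy, h⟩)).symm

end

theorem R.sub {G G' : RotGraph V H} (hstep : ∀ h ∈ G'.darts, R G h (fs G' h)) {x y : H}
    (hx : x ∈ G'.darts) (h : R G' x y) : R G x y :=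
  R.closed (G := G') (P := fun z => R G x z) (fun z hz hxz => hxz.trans (hstep z hz)) hx h
    (R.refl x)

theorem card_image_le_of {α β γ : Type*} [DecidableEq β] [DecidableEq γ] (s : Finset α) (f : α → β) (g : α → γ)
    (h : ∀ x ∈ s, ∀ y ∈ s, g x = g y → f x = f y) : (s.image f).card ≤ (s.image g).card := by
  rcases s.eq_empty_or_nonempty with rfl | ⟨x0, hx0⟩
  · simp
  · have : Nonempty α := ⟨x0⟩
    have h1 : ∀ c ∈ s.image f, ∃ x ∈ s, f x = c := fun c hc => Finset.mem_image.1 hc
    choose! p hp1 hp2 using h1
    refine Finset.card_le_card_of_injOn (fun c => g (p c))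
      (fun c hc => Finset.mem_image_of_mem g (hp1 c hc)) ?_
    intro c hc c' hc' e
    rw [← hp2 c hc, ← hp2 c' hc']
    exact h _ (hp1 c hc) _ (hp1 c' hc') e

theorem card_image_eq_of {α β γ : Type*} [DecidableEq β] [DecidableEq γ] (s : Finset α) (f : α → β) (g : α → γ)
    (h : ∀ x ∈ s, ∀ y ∈ s, g x = g y ↔ f x = f y) : (s.image f).card = (s.image g).card :=
  le_antisymm (card_image_le_of s f g fun x hx y hy => (h x hx y hy).1)
    (card_image_le_of s g f fun x hx y hy => (h x hx y hy).2)

theorem conn_closed {G : RotGraph V H} (h : Conn G) {S : Finset V} (hS : S ⊆ G.verts)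
    (hne : S.Nonempty) (hc : ∀ x ∈ G.darts, G.base x ∈ S → G.base (G.opp x) ∈ S) :
    S = G.verts := by
  by_contra hne'
  have h1 := h.2 S hS hne hne'
  unfold cut at h1
  rw [Finset.card_pos] at h1
  obtain ⟨x, hx⟩ := h1
  rw [mem_bd] at hx
  exact hx.2.2 (hc x hx.1 hx.2.1)

/-- rotation with one element -/
theorem rot_of_fixed {G : RotGraph V H} {x : H} (hx : x ∈ G.darts) (h : nx G x = x) :
    G.rot (G.base x) = [x] := by
  by_contra h1
  exact nx_ne hx h1 h

theorem eq_of_rot {G : RotGraph V H} {v : V} {l : List H} (h : G.rot v ~r l) {x : H}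
    (hx : x ∈ G.darts) (hv : G.base x = v) : x ∈ l :=
  h.mem_iff.1 ((G.mem_rot v x).2 ⟨hx, hv⟩)

theorem eq_of_rot1 {G : RotGraph V H} {v : V} {y : H} (h : G.rot v = [y]) {x : H}
    (hx : x ∈ G.darts) (hv : G.base x = v) : x = y := by
  have := (G.mem_rot v x).2 ⟨hx, hv⟩
  rw [h, List.mem_singleton] at this
  exact this

section
variable {G : RotGraph V H} {d : H}

theorem del_verts : (delE G d).verts = G.verts := rfl
theorem del_base : (delE G d).base = G.base := rfl
theorem del_opp' : (delE G d).opp = G.opp := rfl

theorem faces_del (h : (delE G d).darts ≠ ∅) :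
    faces (delE G d) = ((delE G d).darts.image (face (delE G d))).card := by
  unfold faces
  rw [if_neg h]

theorem faces_G (hd : d ∈ G.darts) : faces G = (G.darts.image (face G)).card := by
  unfold faces
  rw [if_neg (Finset.ne_empty_of_mem hd)]

theorem only_two (hd : d ∈ G.darts) (h : (delE G d).darts = ∅) {x : H} (hx : x ∈ G.darts) :
    x = d ∨ x = G.opp d := by
  by_contra h1
  push Not at h1
  have : x ∈ (delE G d).darts := (mem_del G hd).2 ⟨hx, h1.1, h1.2⟩
  rw [h] at this
  exact absurd this (Finset.notMem_empty _)

/-- row E2 -/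
theorem e2 (hd : d ∈ G.darts) (hC : Conn (delE G d)) (hs : R G d (G.opp d)) :
    faces G ≤ faces (delE G d) := by
  have hbd : G.opp d ∈ G.darts := G.opp_mem d hd
  have hne : G.opp d ≠ d := G.opp_ne d hd
  have hs' : R G (G.opp d) d := hs.symm hd
  by_cases hD : (delE G d).darts = ∅
  · have h1 : faces (delE G d) = 1 := by
      unfold faces
      rw [if_pos hD]
    rw [h1, faces_G hd]
    have h2 : G.darts.image (face G) ⊆ {face G d} := by
      intro F hF
      obtain ⟨x, hx, rfl⟩ := Finset.mem_image.1 hF
      rw [Finset.mem_singleton]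
      rcases only_two hd hD hx with rfl | rfl
      · rfl
      · exact (face_iff hbd hd).2 hs'
    exact (Finset.card_le_card h2).trans_eq (Finset.card_singleton _)
  · rw [faces_del hD, faces_G hd]
    have step : ∀ h ∈ (delE G d).darts, R G h (fs (delE G d) h) := by
      intro h hh
      obtain ⟨h1, h2, h3⟩ := (mem_del G hd).1 hh
      rw [fs_del G hd h1 h2 h3]
      split_ifs with c1 c2 c3 c4
      · exact R.head c1 (R.step d)
      · exact R.head c1 (hs.trans (R.step _))
      · exact R.head c3 (R.step _)
      · exact R.head c3 (hs'.trans (R.step _))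
      · exact R.step h
    have hmeet : ∃ y ∈ (delE G d).darts, R G d y := by
      by_contra hno
      push Not at hno
      have hcl : ∀ y, R G d y → y = d ∨ y = G.opp d := by
        intro y hy
        by_contra h1
        push Not at h1
        exact hno y ((mem_del G hd).2 ⟨hy.mem hd, h1.1, h1.2⟩) hy
      -- the face permutation exchanges the two half-edges
      have k1 : fs G d = G.opp d := by
        rcases hcl _ (R.step d) with h | h
        · exfalso
          apply hne
          exact R.closed (G := G) (P := fun z => z = d) (fun z _ hz => by rw [hz, h]) hd hs rfl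
        · exact h
      have k2 : fs G (G.opp d) = d := by
        rcases hcl _ (hs.trans (R.step _)) with h | h
        · exact h
        · exfalso
          apply hne
          exact (R.closed (G := G) (P := fun z => z = G.opp d) (fun z _ hz => by rw [hz, h])
            hbd hs' rfl).symm
      have k3 : nx G (G.opp d) = G.opp d := k1
      have k4 : nx G d = d := by
        have : nx G (G.opp (G.opp d)) = d := k2
        rwa [G.opp_opp d hd] at this
      have r1 := rot_of_fixed hd k4
      have r2 := rot_of_fixed hbd k3
      have hv : G.base (G.opp d) ≠ G.base d := by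
        intro h
        rw [h, r1] at r2
        simp at r2
        exact hne r2.symm
      have := conn_closed hC (S := {G.base d}) (by
        rw [del_verts, Finset.singleton_subset_iff]
        exact G.base_mem d hd) (Finset.singleton_nonempty _) (by
        intro x hx hxv
        obtain ⟨h1, h2, h3⟩ := (mem_del G hd).1 hx
        rw [del_base, Finset.mem_singleton] at hxv
        exact absurd (eq_of_rot1 r1 h1 hxv) h2)
      have h5 : G.base (G.opp d) ∈ ({G.base d} : Finset V) := by
        rw [this]
        exact G.base_mem _ hbd
      exact hv (Finset.mem_singleton.1 h5)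
    obtain ⟨y0, hy0, hy1⟩ := hmeet
    have hy0' : y0 ∈ G.darts := ((mem_del G hd).1 hy0).1
    have h2 : G.darts.image (face G) ⊆ (delE G d).darts.image (face G) := by
      intro F hF
      obtain ⟨x, hx, rfl⟩ := Finset.mem_image.1 hF
      rw [Finset.mem_image]
      by_cases hxd : x = d
      · subst hxd
        exact ⟨y0, hy0, (face_iff hy0' hd).2 (hy1.symm hd)⟩
      · by_cases hxo : x = G.opp d
        · subst hxo
          exact ⟨y0, hy0, (face_iff hy0' hbd).2 ((hs'.trans hy1).symm hbd)⟩
        · exact ⟨x, (mem_del G hd).2 ⟨hx, hxd, hxo⟩, rfl⟩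
    refine (Finset.card_le_card h2).trans (card_image_le_of _ _ _ ?_)
    intro x hx y hy hxy
    have h3 := (face_iff (G := delE G d) hx hy).1 hxy
    exact (face_iff ((mem_del G hd).1 hx).1 ((mem_del G hd).1 hy).1).2 (h3.sub step hx)

/-- row E3 -/
theorem e3 (hd : d ∈ G.darts) (hC : Conn G) (hr : G.rot (G.base d) = [d]) :
    faces (delE G d) = faces G := by
  have hbd : G.opp d ∈ G.darts := G.opp_mem d hd
  have hne : G.opp d ≠ d := G.opp_ne d hd
  have k1 : fs G (G.opp d) = d := by
    show nx G (G.opp (G.opp d)) = d
    rw [G.opp_opp d hd]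
    rcases nx_cases G hd with ⟨-, h⟩ | ⟨l, h⟩
    · exact h
    · rw [hr] at h
      have := h.perm.length_eq
      simp at this
  have hs' : R G (G.opp d) d := ⟨1, k1⟩
  have hs : R G d (G.opp d) := hs'.symm hbd
  by_cases hD : (delE G d).darts = ∅
  · have h1 : faces (delE G d) = 1 := by
      unfold faces
      rw [if_pos hD]
    rw [h1, faces_G hd]
    have h2 : G.darts.image (face G) = {face G d} := by
      ext F
      rw [Finset.mem_singleton, Finset.mem_image]
      constructor
      · rintro ⟨x, hx, rfl⟩
        rcases only_two hd hD hx with rfl | rfl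
        · rfl
        · exact (face_iff hbd hd).2 hs'
      · rintro rfl
        exact ⟨d, hd, rfl⟩
    rw [h2, Finset.card_singleton]
  · have ka : fs G d ≠ d := by
      intro h
      exact hne (fs_injOn G hbd hd (k1.trans h.symm))
    have kb : fs G d ≠ G.opp d := by
      intro h
      have r2 := rot_of_fixed hbd h
      have := conn_closed hC (S := {G.base d, G.base (G.opp d)}) (by
        intro v hv
        rw [Finset.mem_insert, Finset.mem_singleton] at hv
        rcases hv with rfl | rfl
        · exact G.base_mem _ hd
        · exact G.base_mem _ hbd) (Finset.insert_nonempty _ _) (by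
        intro x hx hxv
        rw [Finset.mem_insert, Finset.mem_singleton] at hxv ⊢
        rcases hxv with hxv | hxv
        · have := eq_of_rot1 hr hx hxv
          subst this
          exact Or.inr rfl
        · have := eq_of_rot1 r2 hx hxv
          subst this
          rw [G.opp_opp d hd]
          exact Or.inl rfl)
      apply hD
      rw [Finset.eq_empty_iff_forall_notMem]
      intro x hx
      obtain ⟨h1, h2, h3⟩ := (mem_del G hd).1 hx
      have hxv : G.base x ∈ ({G.base d, G.base (G.opp d)} : Finset V) := by
        rw [this]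
        exact G.base_mem x h1
      rw [Finset.mem_insert, Finset.mem_singleton] at hxv
      rcases hxv with hxv | hxv
      · exact h2 (eq_of_rot1 hr h1 hxv)
      · exact h3 (eq_of_rot1 r2 h1 hxv)
    have hfd : fs G d ∈ (delE G d).darts := (mem_del G hd).2 ⟨Pl.fs_mem hd, ka, kb⟩
    have hfa : ∀ h ∈ (delE G d).darts, fs G h ≠ d := by
      intro h hh h4
      obtain ⟨h1, h2, h3⟩ := (mem_del G hd).1 hh
      exact h3 (fs_injOn G h1 hbd (h4.trans k1.symm))
    have hf' : ∀ h ∈ (delE G d).darts, fs (delE G d) h =
        if fs G h = G.opp d then fs G d else fs G h := by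
      intro h hh
      obtain ⟨h1, h2, h3⟩ := (mem_del G hd).1 hh
      rw [fs_del G hd h1 h2 h3, if_neg (hfa h hh), if_neg ka]
    have step : ∀ h ∈ (delE G d).darts, R G h (fs (delE G d) h) := by
      intro h hh
      rw [hf' h hh]
      split_ifs with c
      · exact R.head c (R.head k1 (R.step d))
      · exact R.step h
    have back : ∀ n : ℕ, ∀ x ∈ (delE G d).darts, ∀ y ∈ (delE G d).darts, (fs G)^[n] x = y →
        R (delE G d) x y := by
      intro n
      induction n using Nat.strong_induction_on with
      | _ n ih =>
        intro x hx y hy hxy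
        obtain ⟨y1, y2, y3⟩ := (mem_del G hd).1 hy
        rcases n with _ | n
        · rw [← hxy]
          exact R.refl _
        · rw [Function.iterate_succ_apply] at hxy
          by_cases c : fs G x = G.opp d
          · rw [c] at hxy
            rcases n with _ | n
            · exact absurd hxy.symm y3
            · rw [Function.iterate_succ_apply, k1] at hxy
              rcases n with _ | n
              · exact absurd hxy.symm y2
              · rw [Function.iterate_succ_apply] at hxy
                refine R.head (y := fs G d) ?_ (ih n (by omega) _ hfd y hy hxy)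
                rw [hf' x hx, if_pos c]
          · have hfx : fs G x ∈ (delE G d).darts :=
              (mem_del G hd).2 ⟨Pl.fs_mem ((mem_del G hd).1 hx).1, hfa x hx, c⟩
            refine R.head (y := fs G x) ?_ (ih n (by omega) _ hfx y hy hxy)
            rw [hf' x hx, if_neg c]
    rw [faces_del hD, faces_G hd]
    have h2 : G.darts.image (face G) = (delE G d).darts.image (face G) := by
      ext F
      rw [Finset.mem_image, Finset.mem_image]
      constructor
      · rintro ⟨x, hx, rfl⟩
        have hfd' := ((mem_del G hd).1 hfd).1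
        by_cases hxd : x = d
        · subst hxd
          exact ⟨_, hfd, (face_iff hfd' hd).2 ((R.step _).symm hd)⟩
        · by_cases hxo : x = G.opp d
          · subst hxo
            exact ⟨_, hfd, (face_iff hfd' hbd).2 ((hs'.trans (R.step _)).symm hbd)⟩
          · exact ⟨x, (mem_del G hd).2 ⟨hx, hxd, hxo⟩, rfl⟩
      · rintro ⟨x, hx, rfl⟩
        exact ⟨x, ((mem_del G hd).1 hx).1, rfl⟩
    rw [h2]
    refine card_image_eq_of _ _ _ ?_
    intro x hx y hy
    rw [face_iff ((mem_del G hd).1 hx).1 ((mem_del G hd).1 hy).1,
      face_iff (G := delE G d) hx hy]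
    constructor
    · rintro ⟨n, hn⟩
      exact back n x hx y hy hn
    · intro h
      exact h.sub step hx

/-- the walk from a half-edge of the face of `d` -/
theorem toEnd (hd : d ∈ G.darts) (hs : ¬ R G d (G.opp d)) : ∀ n : ℕ, ∀ x ∈ (delE G d).darts,
    (fs G)^[n] x = d → R (delE G d) x (if fs G (G.opp d) = G.opp d then fs G d
      else fs G (G.opp d)) := by
  intro n
  induction n with
  | zero =>
    intro x hx h
    exact absurd h ((mem_del G hd).1 hx).2.1
  | succ n ih =>
    intro x hx h
    obtain ⟨h1, h2, h3⟩ := (mem_del G hd).1 hx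
    have hR : R G x d := ⟨n + 1, h⟩
    rw [Function.iterate_succ_apply] at h
    have hf := fs_del G hd h1 h2 h3
    by_cases c1 : fs G x = d
    · rw [if_pos c1] at hf
      rw [← hf]
      exact R.step x
    · have c2 : fs G x ≠ G.opp d := by
        intro c
        apply hs
        exact (hR.symm h1).trans ⟨1, c⟩
      rw [if_neg c1, if_neg c2] at hf
      exact R.head hf (ih _ ((mem_del G hd).2 ⟨Pl.fs_mem h1, c1, c2⟩) h)

/-- row E1 -/
theorem e1 (hd : d ∈ G.darts) (hC : Conn (delE G d)) (hs : ¬ R G d (G.opp d)) :
    faces (delE G d) + 1 = faces G := by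
  have hbd : G.opp d ∈ G.darts := G.opp_mem d hd
  have hne : G.opp d ≠ d := G.opp_ne d hd
  have hs2 : ¬ R G (G.opp d) d := fun h => hs (h.symm hbd)
  have hFne : face G d ≠ face G (G.opp d) := fun h => hs ((face_iff hd hbd).1 h)
  by_cases hD : (delE G d).darts = ∅
  · have h1 : faces (delE G d) = 1 := by
      unfold faces
      rw [if_pos hD]
    rw [h1, faces_G hd]
    have h2 : G.darts.image (face G) = {face G d, face G (G.opp d)} := by
      ext F
      rw [Finset.mem_insert, Finset.mem_singleton, Finset.mem_image]
      constructor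
      · rintro ⟨x, hx, rfl⟩
        rcases only_two hd hD hx with rfl | rfl
        · exact Or.inl rfl
        · exact Or.inr rfl
      · rintro (rfl | rfl)
        · exact ⟨d, hd, rfl⟩
        · exact ⟨_, hbd, rfl⟩
    rw [h2, Finset.card_pair hFne]
  · -- the two half-edges are not both fixed
    have hfix : ¬ (fs G d = d ∧ fs G (G.opp d) = G.opp d) := by
      rintro ⟨f1, f2⟩
      have n1 : nx G (G.opp d) = d := f1
      have n2 : nx G d = G.opp d := by
        have : nx G (G.opp (G.opp d)) = G.opp d := f2
        rwa [G.opp_opp d hd] at this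
      have hb : G.base (G.opp d) = G.base d := by
        rw [← n2]
        exact (Pl.nx_mem hd).2
      have hr : G.rot (G.base d) ~r [d, G.opp d] := by
        rcases nx_cases G hd with ⟨-, h⟩ | ⟨l, h⟩
        · exact absurd (n2.symm.trans h) hne
        · rw [n2] at h
          rcases l with _ | ⟨z, l⟩
          · exact h
          · exfalso
            have h' : G.rot (G.base (G.opp d)) ~r G.opp d :: z :: (l ++ [d]) := by
              rw [hb]
              refine h.trans ?_
              exact rot_snoc d (G.opp d :: z :: l)
            have := nx_of_rot h'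
            rw [n1] at this
            have hn := nodup_of_rot G h
            rw [← this] at hn
            simp at hn
      have := conn_closed hC (S := {G.base d}) (by
        rw [del_verts, Finset.singleton_subset_iff]
        exact G.base_mem d hd) (Finset.singleton_nonempty _) (by
        intro x hx hxv
        obtain ⟨h1, h2, h3⟩ := (mem_del G hd).1 hx
        rw [del_base, Finset.mem_singleton] at hxv
        have := eq_of_rot hr h1 hxv
        simp [h2, h3] at this)
      apply hD
      rw [Finset.eq_empty_iff_forall_notMem]
      intro x hx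
      obtain ⟨h1, h2, h3⟩ := (mem_del G hd).1 hx
      have hxv : G.base x ∈ ({G.base d} : Finset V) := by
        rw [this]
        exact G.base_mem x h1
      have := eq_of_rot hr h1 (Finset.mem_singleton.1 hxv)
      simp [h2, h3] at this
    have hfa : fs G d ≠ G.opp d := fun h => hs ⟨1, h⟩
    have hfb : fs G (G.opp d) ≠ d := fun h => hs2 ⟨1, h⟩
    set ea : H := if fs G (G.opp d) = G.opp d then fs G d else fs G (G.opp d) with hea
    set eb : H := if fs G d = d then fs G (G.opp d) else fs G d with heb
    have toA : ∀ x ∈ (delE G d).darts, R G x d → R (delE G d) x ea := by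
      rintro x hx ⟨n, hn⟩
      exact toEnd hd hs n x hx hn
    have toB : ∀ x ∈ (delE G d).darts, R G x (G.opp d) → R (delE G d) x eb := by
      rintro x hx ⟨n, hn⟩
      have hx' : x ∈ (delE G (G.opp d)).darts := by rwa [del_opp G hd]
      have := toEnd hbd (by rwa [G.opp_opp d hd]) n x hx' hn
      rw [del_opp G hd, G.opp_opp d hd] at this
      exact this
    -- the classes of the two faces become one class
    have same : ∀ x ∈ (delE G d).darts, ∀ y ∈ (delE G d).darts,
        (R G x d ∨ R G x (G.opp d)) → (R G y d ∨ R G y (G.opp d)) → R (delE G d) x y := by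
      have cross : ∀ x ∈ (delE G d).darts, ∀ y ∈ (delE G d).darts, R G x d → R G y (G.opp d) →
          R (delE G d) x y := by
        intro x hx y hy hxd hyo
        obtain ⟨x1, x2, x3⟩ := (mem_del G hd).1 hx
        obtain ⟨y1, y2, y3⟩ := (mem_del G hd).1 hy
        have fb : fs G (G.opp d) ≠ G.opp d := by
          intro h
          apply y3
          exact R.closed (G := G) (P := fun z => z = G.opp d) (fun z _ hz => by rw [hz, h]) hbd
            (hyo.symm y1) rfl
        have h1 := toA x hx hxd
        rw [hea, if_neg fb] at h1
        have hmem : fs G (G.opp d) ∈ (delE G d).darts :=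
          (mem_del G hd).2 ⟨Pl.fs_mem hbd, hfb, fb⟩
        have h2 := toB _ hmem ((R.step _).symm hbd)
        exact (h1.trans h2).trans ((toB y hy hyo).symm hy)
      intro x hx y hy hx1 hy1
      rcases hx1 with hx1 | hx1 <;> rcases hy1 with hy1 | hy1
      · exact (toA x hx hx1).trans ((toA y hy hy1).symm hy)
      · exact cross x hx y hy hx1 hy1
      · exact (cross y hy x hx hy1 hx1).symm hy
      · exact (toB x hx hx1).trans ((toB y hy hy1).symm hy)
    -- outside of the two faces nothing changes
    have out : ∀ n : ℕ, ∀ x ∈ (delE G d).darts, ¬ R G x d → ¬ R G x (G.opp d) →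
        (fs (delE G d))^[n] x = (fs G)^[n] x := by
      intro n
      induction n with
      | zero => intro x _ _ _; rfl
      | succ n ih =>
        intro x hx hxd hxo
        obtain ⟨x1, x2, x3⟩ := (mem_del G hd).1 hx
        have c1 : fs G x ≠ d := fun h => hxd ⟨1, h⟩
        have c2 : fs G x ≠ G.opp d := fun h => hxo ⟨1, h⟩
        rw [Function.iterate_succ_apply, Function.iterate_succ_apply, fs_del G hd x1 x2 x3,
          if_neg c1, if_neg c2]
        exact ih _ ((mem_del G hd).2 ⟨Pl.fs_mem x1, c1, c2⟩) (fun h => hxd (R.head rfl h))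
          (fun h => hxo (R.head rfl h))
    have out' : ∀ x ∈ (delE G d).darts, ¬ R G x d → ¬ R G x (G.opp d) →
        ∀ y, R (delE G d) x y ↔ R G x y := by
      intro x hx hxd hxo y
      constructor
      · rintro ⟨n, hn⟩
        exact ⟨n, by rw [← out n x hx hxd hxo, hn]⟩
      · rintro ⟨n, hn⟩
        exact ⟨n, by rw [out n x hx hxd hxo, hn]⟩
    set g : H → Finset H := fun x => if R G x d ∨ R G x (G.opp d) then ∅ else face G x with hg
    have hgc : ((delE G d).darts.image (face (delE G d))).card =
        ((delE G d).darts.image g).card := by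
      refine card_image_eq_of _ _ _ ?_
      intro x hx y hy
      obtain ⟨x1, x2, x3⟩ := (mem_del G hd).1 hx
      obtain ⟨y1, y2, y3⟩ := (mem_del G hd).1 hy
      rw [face_iff (G := delE G d) hx hy]
      simp only [hg]
      by_cases cx : R G x d ∨ R G x (G.opp d) <;> by_cases cy : R G y d ∨ R G y (G.opp d)
      · rw [if_pos cx, if_pos cy]
        exact ⟨fun _ => same x hx y hy cx cy, fun _ => rfl⟩
      · rw [if_pos cx, if_neg cy]
        push Not at cy
        constructor
        · intro h
          have := mem_face_self y1
          rw [← h] at this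
          exact absurd this (Finset.notMem_empty _)
        · intro h
          exfalso
          have h1 := (out' y hy cy.1 cy.2 x).1 (h.symm hx)
          rcases cx with cx | cx
          · exact cy.1 (h1.trans cx)
          · exact cy.2 (h1.trans cx)
      · rw [if_neg cx, if_pos cy]
        push Not at cx
        constructor
        · intro h
          have := mem_face_self x1
          rw [h] at this
          exact absurd this (Finset.notMem_empty _)
        · intro h
          exfalso
          have h1 := (out' x hx cx.1 cx.2 y).1 h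
          rcases cy with cy | cy
          · exact cx.1 (h1.trans cy)
          · exact cx.2 (h1.trans cy)
      · rw [if_neg cx, if_neg cy]
        push Not at cx
        rw [face_iff x1 y1]
        exact (out' x hx cx.1 cx.2 y).symm
    have himg : (delE G d).darts.image g =
        insert ∅ (((G.darts.image (face G)).erase (face G d)).erase (face G (G.opp d))) := by
      ext F
      rw [Finset.mem_image, Finset.mem_insert, Finset.mem_erase, Finset.mem_erase,
        Finset.mem_image]
      constructor
      · rintro ⟨x, hx, rfl⟩
        obtain ⟨x1, x2, x3⟩ := (mem_del G hd).1 hx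
        simp only [hg]
        by_cases cx : R G x d ∨ R G x (G.opp d)
        · rw [if_pos cx]
          exact Or.inl rfl
        · rw [if_neg cx]
          push Not at cx
          exact Or.inr ⟨fun h => cx.2 ((face_iff x1 hbd).1 h),
            fun h => cx.1 ((face_iff x1 hd).1 h), x, x1, rfl⟩
      · rintro (rfl | ⟨h1, h2, x, hx, rfl⟩)
        · -- some half-edge stays
          by_cases f1 : fs G d = d
          · have f2 : fs G (G.opp d) ≠ G.opp d := fun h => hfix ⟨f1, h⟩
            refine ⟨fs G (G.opp d), (mem_del G hd).2 ⟨Pl.fs_mem hbd, hfb, f2⟩, ?_⟩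
            simp only [hg]
            rw [if_pos (Or.inr ((R.step _).symm hbd))]
          · refine ⟨fs G d, (mem_del G hd).2 ⟨Pl.fs_mem hd, f1, hfa⟩, ?_⟩
            simp only [hg]
            rw [if_pos (Or.inl ((R.step _).symm hd))]
        · have c1 : ¬ R G x d := fun h => h2 ((face_iff hx hd).2 h)
          have c2 : ¬ R G x (G.opp d) := fun h => h1 ((face_iff hx hbd).2 h)
          refine ⟨x, (mem_del G hd).2 ⟨hx, ?_, ?_⟩, ?_⟩
          · rintro rfl
            exact c1 (R.refl _)
          · rintro rfl
            exact c2 (R.refl _)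
          · simp only [hg]
            rw [if_neg (by tauto)]
    have hm1 : face G d ∈ G.darts.image (face G) := Finset.mem_image_of_mem _ hd
    have hm2 : face G (G.opp d) ∈ (G.darts.image (face G)).erase (face G d) :=
      Finset.mem_erase.2 ⟨hFne.symm, Finset.mem_image_of_mem _ hbd⟩
    have hm3 : ∅ ∉ ((G.darts.image (face G)).erase (face G d)).erase (face G (G.opp d)) := by
      intro h
      have := Finset.mem_of_mem_erase (Finset.mem_of_mem_erase h)
      obtain ⟨x, hx, hx'⟩ := Finset.mem_image.1 this
      have h5 := mem_face_self hx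
      rw [hx'] at h5
      exact absurd h5 (Finset.notMem_empty _)
    rw [faces_del hD, faces_G hd, hgc, himg, Finset.card_insert_of_notMem hm3,
      Finset.card_erase_of_mem hm2, Finset.card_erase_of_mem hm1]
    have p1 := Finset.card_pos.2 ⟨_, hm2⟩
    rw [Finset.card_erase_of_mem hm1] at p1
    omega

end

end RotWqo.Pl.Fc11

namespace RotWqo.Pl

/-- row E1 -/
theorem e1_11 : StFc1 := by
  intro V H G d hd hC hs
  exact Fc11.e1 hd hC (fun ⟨n, hn⟩ => hs n hn)

/-- row E2 -/
theorem e2_11 : StFc2 := by
  intro V H G d hd hC hs
  exact Fc11.e2 hd hC hs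

/-- row E3 -/
theorem e3_11 : StFc3 := by
  intro V H G d hd hC hr
  have h : faces (delL G d) = faces (delE G d) := rfl
  rw [h]
  exact Fc11.e3 hd hC hr

end RotWqo.Pl
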