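import Pool.Agent.Lib.MP_cb4a0f_co.Pl.E4_25

/-!
# MP_cb4a0f_co, row E5: connected planar rotated graphs can be built
-/

open Classical

namespace RotWqo.Pl

section E5

variable {V H : Type} {G : RotGraph V H}

theorem verts_one25 (hc : Conn G) (h0 : G.darts = ∅) : G.verts.card = 1 := by
  obtain ⟨v, hv⟩ := hc.1
  have h1 : ({v} : Finset V) = G.verts := by
    by_contra h2
    have h3 := hc.2 {v} (by simpa using hv) (by simp) h2
    obtain ⟨h, hh⟩ := Finset.card_pos.1 h3
    have h4 := (mem_bd.1 hh).1
    rw [h0] at h4
    simp at h4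
  rw [← h1]
  simp

theorem faces_empty25 (h0 : G.darts = ∅) : faces G = 1 := by
  unfold faces
  rw [if_pos h0]

theorem card_delE25 {d : H} (hd : d ∈ G.darts) : (delE G d).darts.card + 2 = G.darts.card := by
  have h1 : (delE G d).darts = (G.darts.erase d).erase (G.opp d) := by
    ext h
    rw [mem_darts_delE25 hd, Finset.mem_erase, Finset.mem_erase]
    tauto
  have h2 : G.opp d ∈ G.darts.erase d :=
    Finset.mem_erase.2 ⟨G.opp_ne d hd, G.opp_mem d hd⟩
  rw [h1]
  have h3 := Finset.card_erase_add_one h2
  have h4 := Finset.card_erase_add_one hd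
  omega

theorem card_delL25 {d : H} (hd : d ∈ G.darts) : (delL G d).darts.card + 2 = G.darts.card :=
  card_delE25 hd

theorem card_verts_delL25 {d : H} (hd : d ∈ G.darts) (hr : G.rot (G.base d) = [d]) :
    (delL G d).verts.card + 1 = G.verts.card := by
  have h1 : (delL G d).verts = G.verts.erase (G.base d) := by
    ext w
    rw [verts_delL25 hd hr, Finset.mem_erase]
    tauto
  rw [h1]
  exact Finset.card_erase_add_one (G.base_mem d hd)

theorem euler_ineq25 (hF1 : StFc1) (hF2 : StFc2) (hF3 : StFc3) (hC : StCyc) (n : ℕ) :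
    ∀ G : RotGraph V H, G.darts.card = n → Conn G →
      2 * (G.verts.card + faces G) ≤ G.darts.card + 4 := by
  induction n using Nat.strong_induction_on with
  | _ n ih =>
    intro G hn hc
    by_cases h0 : G.darts = ∅
    · rw [verts_one25 hc h0, faces_empty25 h0]
      omega
    · by_cases hl : ∃ d ∈ G.darts, G.rot (G.base d) = [d]
      · obtain ⟨d, hd, hr⟩ := hl
        have h1 := card_delL25 hd
        have h2 := card_verts_delL25 hd hr
        have h3 := hF3 V H G d hd hc hr
        have h4 := ih _ (by omega) (delL G d) rfl ((hC V H G hc).2 d hd hr)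
        omega
      · push Not at hl
        obtain ⟨d, hd, hcd⟩ := (hC V H G hc).1 (Finset.nonempty_iff_ne_empty.2 h0) hl
        have h1 := card_delE25 hd
        have h4 := ih _ (by omega) (delE G d) rfl hcd
        have h5 : (delE G d).verts.card = G.verts.card := rfl
        by_cases hs : ∃ n, (fs G)^[n] d = G.opp d
        · have h6 := hF2 V H G d hd hcd hs
          omega
        · push Not at hs
          have h6 := hF1 V H G d hd hcd hs
          omega

/-- If the edge of `d` bounds two faces of length one, then it is a loop and nothing else is at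
its vertex. -/
theorem loop25 (hc : Conn G) {d : H} (hd : d ∈ G.darts) (hl : G.rot (G.base d) ≠ [d])
    (h1 : fs G d = d) (h2 : fs G (G.opp d) = G.opp d) :
    G.verts.card = 1 ∧ G.darts.card = 2 := by
  have hod := G.opp_mem d hd
  have hb : G.base (G.opp d) = G.base d := by
    have := fs_base hd
    rw [h1] at this
    exact this.symm
  have e1 : nx G (G.opp d) = d := h1
  have e2 : nx G d = G.opp d := by
    have : nx G (G.opp (G.opp d)) = G.opp d := h2
    rwa [G.opp_opp d hd] at this
  have hrot : G.rot (G.base d) ~r [d, G.opp d] := by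
    rcases nx_cases G hd with ⟨h3, -⟩ | ⟨l, h3⟩
    · exact absurd h3 hl
    · rw [e2] at h3
      cases l with
      | nil => exact h3
      | cons x l =>
        exfalso
        have h4 : G.rot (G.base (G.opp d)) ~r G.opp d :: x :: (l ++ [d]) := by
          rw [hb]
          refine h3.trans ?_
          simpa using (List.isRotated_append (l := [d]) (l' := G.opp d :: x :: l))
        have h5 := nx_of_rot h4
        rw [e1] at h5
        have h6 : (d :: G.opp d :: x :: l).Nodup := h3.nodup_iff.1 (G.nodup _)
        rw [← h5] at h6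
        simp at h6
  have hall : ∀ h ∈ G.darts, G.base h = G.base d → h = d ∨ h = G.opp d := by
    intro h hh hb'
    have h3 : h ∈ G.rot (G.base d) := (G.mem_rot _ _).2 ⟨hh, hb'⟩
    simpa using hrot.mem_iff.1 h3
  have hv : ({G.base d} : Finset V) = G.verts := by
    by_contra h3
    obtain ⟨h, hh⟩ := Finset.card_pos.1
      (hc.2 {G.base d} (by simpa using G.base_mem d hd) (by simp) h3)
    obtain ⟨h4, h5, h6⟩ := mem_bd.1 hh
    rw [Finset.mem_singleton] at h5 h6
    rcases hall h h4 h5 with rfl | rfl
    · exact h6 hb
    · rw [G.opp_opp d hd] at h6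
      exact h6 rfl
  refine ⟨by rw [← hv]; simp, ?_⟩
  have h3 : G.darts = {d, G.opp d} := by
    ext h
    rw [Finset.mem_insert, Finset.mem_singleton]
    constructor
    · intro hh
      have h4 := G.base_mem h hh
      rw [← hv, Finset.mem_singleton] at h4
      exact hall h hh h4
    · rintro (rfl | rfl)
      · exact hd
      · exact hod
  rw [h3, Finset.card_pair (G.opp_ne d hd).symm]

theorem conn_opp25 {d : H} (hd : d ∈ G.darts) (h : Conn (delE G d)) :
    Conn (delE G (G.opp d)) := by
  have hod := G.opp_mem d hd
  refine ⟨h.1, fun X hX hne hX' => ?_⟩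
  have h3 := h.2 X hX hne hX'
  obtain ⟨x, hx⟩ := Finset.card_pos.1 h3
  refine Finset.card_pos.2 ⟨x, ?_⟩
  rw [mem_bd_delE25 hd] at hx
  rw [mem_bd_delE25 hod, G.opp_opp d hd]
  tauto

theorem euler_bld25 (hF1 : StFc1) (hF2 : StFc2) (hF3 : StFc3) (hC : StCyc) (n : ℕ) :
    ∀ G : RotGraph V H, G.darts.card = n → PlanarC G → Bld G := by
  induction n using Nat.strong_induction_on with
  | _ n ih =>
    intro G hn hP
    obtain ⟨hc, he⟩ := hP
    by_cases h0 : G.darts = ∅
    · exact .single G (verts_one25 hc h0) h0
    · by_cases hl : ∃ d ∈ G.darts, G.rot (G.base d) = [d]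
      · obtain ⟨d, hd, hr⟩ := hl
        have h1 := card_delL25 hd
        have h2 := card_verts_delL25 hd hr
        have h3 := hF3 V H G d hd hc hr
        refine .pend G d hd hr (ih _ (by omega) (delL G d) rfl ⟨(hC V H G hc).2 d hd hr, ?_⟩)
        omega
      · push Not at hl
        obtain ⟨d, hd, hcd⟩ := (hC V H G hc).1 (Finset.nonempty_iff_ne_empty.2 h0) hl
        have h1 := card_delE25 hd
        have h4 := euler_ineq25 hF1 hF2 hF3 hC _ (delE G d) rfl hcd
        have h5 : (delE G d).verts.card = G.verts.card := rfl
        have hs : ∀ n, (fs G)^[n] d ≠ G.opp d := by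
          by_contra hs
          push Not at hs
          have h6 := hF2 V H G d hd hcd hs
          omega
        have h6 := hF1 V H G d hd hcd hs
        by_cases hd1 : fs G d = d
        · by_cases hd2 : fs G (G.opp d) = G.opp d
          · obtain ⟨h7, h8⟩ := loop25 hc hd (hl d hd) hd1 hd2
            exact .loop G h7 h8
          · have hod := G.opp_mem d hd
            have hs' : ∀ n, (fs G)^[n] (G.opp d) ≠ G.opp (G.opp d) := by
              rw [G.opp_opp d hd]
              intro m hm
              obtain ⟨k, hk⟩ := fs_symm hod ⟨m, hm⟩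
              exact hs k hk
            have h1' := card_delE25 hod
            have hcd' := conn_opp25 hd hcd
            have h6' := hF1 V H G (G.opp d) hod hcd' hs'
            have h5' : (delE G (G.opp d)).verts.card = G.verts.card := rfl
            refine .face G (G.opp d) hod hd2 hs' (ih _ (by omega) _ rfl ⟨hcd', ?_⟩)
            omega
        · refine .face G d hd hd1 hs (ih _ (by omega) _ rfl ⟨hcd, ?_⟩)
          omega

end E5

theorem stEuler_25 (hF1 : StFc1) (hF2 : StFc2) (hF3 : StFc3) (hC : StCyc) : StEuler :=
  fun _ _ G hP => euler_bld25 hF1 hF2 hF3 hC _ G rfl hP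

end RotWqo.Pl
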