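import Pool.Agent.Lib.MP_cb4a0f_co.Pl.Stmts
import Pool.Agent.Lib.MP_cb4a0f_co.Gen
import Pool.Agent.Lib.MP_cb4a0f_co.Sem

/-!
# MP_cb4a0f_co: thickening is monotone (row A1)
-/

open Classical

namespace RotWqo.Pl

namespace A1h2

variable {V H V' H' : Type*}

/-- three copies -/
def T3 (h : H) : List (H × Fin 3) := [(h, 0), (h, 1), (h, 2)]

/-- the lifted matching -/
def M3 (M : H → H → Prop) (p q : H × Fin 3) : Prop := M p.1 q.1 ∧ q.2 = p.2.rev

theorem mem_T3 (h : H) (p : H × Fin 3) : p ∈ T3 h ↔ p.1 = h := by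
  obtain ⟨g, i⟩ := p
  simp only [T3, List.mem_cons, Prod.mk.injEq, List.not_mem_nil, or_false]
  constructor
  · rintro (⟨h1, -⟩ | ⟨h1, -⟩ | ⟨h1, -⟩) <;> exact h1
  · intro h1
    fin_cases i <;> simp [h1]

theorem flat_filter (P : H → Prop) [DecidablePred P] (Q : H × Fin 3 → Prop) [DecidablePred Q]
    (hPQ : ∀ p, Q p ↔ P p.1) : ∀ l : List H,
    (l.flatMap T3).filter (fun p => decide (Q p)) =
      (l.filter (fun h => decide (P h))).flatMap T3 := by
  intro l
  induction l with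
  | nil => rfl
  | cons a l ih =>
    rw [List.flatMap_cons, List.filter_append, ih]
    by_cases ha : P a
    · rw [List.filter_cons_of_pos (by simpa using ha), List.flatMap_cons]
      congr 1
      rw [List.filter_eq_self]
      intro p hp
      rw [mem_T3] at hp
      simp only [decide_eq_true_eq]
      rw [hPQ, hp]
      exact ha
    · rw [List.filter_cons_of_neg (by simpa using ha)]
      have : (T3 a).filter (fun p => decide (Q p)) = [] := by
        rw [List.filter_eq_nil_iff]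
        intro p hp
        rw [mem_T3] at hp
        simp only [decide_eq_true_eq]
        rw [hPQ, hp]
        exact ha
      rw [this, List.nil_append]

theorem flat_rot {l l' : List H} (h : l ~r l') : l.flatMap T3 ~r l'.flatMap T3 := by
  obtain ⟨n, rfl⟩ := h
  rw [← List.rotate_mod, List.rotate_eq_drop_append_take_mod, Nat.mod_mod]
  have h1 : l.flatMap T3 = (l.take (n % l.length)).flatMap T3 ++
      (l.drop (n % l.length)).flatMap T3 := by
    rw [← List.flatMap_append, List.take_append_drop]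
  rw [List.flatMap_append, h1]
  exact List.isRotated_append

theorem flat_map (φ : H → H') (l : List H) :
    (l.flatMap T3).map (fun p => (φ p.1, p.2)) = (l.map φ).flatMap T3 := by
  induction l with
  | nil => rfl
  | cons a l ih =>
    rw [List.flatMap_cons, List.map_append, ih, List.map_cons, List.flatMap_cons]
    rfl

theorem nc3 {M : H → H → Prop} {l : List H} (h : NC M l) : NC (M3 M) (l.flatMap T3) := by
  induction h with
  | done l h =>
    refine NC.done _ ?_
    intro p hp q hpq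
    rw [List.mem_flatMap] at hp
    obtain ⟨a, ha, hp⟩ := hp
    rw [mem_T3] at hp
    exact h a ha q.1 (hp ▸ hpq.1)
  | pair l a b l' h1 h2 _ ih =>
    have e : l.flatMap T3 ~r (a, 2) :: (b, 0) :: ((b, 1) :: (b, 2) :: l'.flatMap T3 ++
        [(a, 0), (a, 1)]) := by
      refine (flat_rot h1).trans ?_
      have e1 : (a :: b :: l').flatMap T3 = [(a, 0), (a, 1)] ++
          ((a, 2) :: (b, 0) :: (b, 1) :: (b, 2) :: l'.flatMap T3) := by
        simp [List.flatMap_cons, T3]
      rw [e1]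
      refine (List.isRotated_append (l := [(a, 0), (a, 1)])).trans ?_
      simp only [List.cons_append]
      exact List.IsRotated.refl _
    refine NC.pair _ (a, 2) (b, 0) _ e ⟨h2, rfl⟩ ?_
    have e2 : (b, (1 : Fin 3)) :: (b, 2) :: l'.flatMap T3 ++ [(a, 0), (a, 1)] ~r
        (a, 1) :: (b, 1) :: ((b, 2) :: l'.flatMap T3 ++ [(a, 0)]) := by
      have e3 : (b, (1 : Fin 3)) :: (b, 2) :: l'.flatMap T3 ++ [(a, 0), (a, 1)] =
          ((b, 1) :: (b, 2) :: l'.flatMap T3 ++ [(a, 0)]) ++ [(a, 1)] := by simp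
      rw [e3]
      refine (List.isRotated_append (l' := [(a, 1)])).trans ?_
      exact List.IsRotated.refl _
    refine NC.pair _ (a, 1) (b, 1) _ e2 ⟨h2, rfl⟩ ?_
    have e4 : (b, (2 : Fin 3)) :: l'.flatMap T3 ++ [(a, 0)] ~r
        (a, 0) :: (b, 2) :: l'.flatMap T3 := by
      refine (List.isRotated_append (l' := [(a, 0)])).trans ?_
      exact List.IsRotated.refl _
    exact NC.pair _ (a, 0) (b, 2) _ e4 ⟨h2, rfl⟩ ih

theorem run3 {opp : H → H} {M : H → H → Prop} {x y : H} (h : Run opp M x y) (i : Fin 3) :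
    Run (fun p : H × Fin 3 => (opp p.1, p.2.rev)) (M3 M) (x, i) (y, i) := by
  induction h with
  | refl x => exact Run.refl _
  | step x z y h1 _ ih =>
    refine Run.step (x, i) (z, i) (y, i) ⟨h1, ?_⟩ ih
    simp

theorem kr3 (G : RotGraph V H) (φ : H → H') (p : H' × Fin 3) :
    GenAux.Kr (thk G) (fun q : H × Fin 3 => (φ q.1, q.2)) p ↔ GenAux.Kr G φ p.1 := by
  constructor
  · rintro ⟨q, hq, rfl⟩
    exact ⟨q.1, (Finset.mem_product.1 hq).1, rfl⟩
  · rintro ⟨h, hh, h1⟩
    exact ⟨(h, p.2), Finset.mem_product.2 ⟨hh, Finset.mem_univ _⟩, Prod.ext h1 rfl⟩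

theorem thk_rot (G : RotGraph V H) (v : V) : (thk G).rot v = (G.rot v).flatMap T3 := rfl

end A1h2

open A1h2 in
theorem stThk_2 : StThk := by
  intro V V' H H' G K hGK
  obtain ⟨β, f, φ, M, hd⟩ := hGK
  have E := GenAux.emb_of_data hd
  refine LE.of_emb (f := f) (φ := fun q : H × Fin 3 => (φ q.1, q.2)) (M := M3 M) ?_
  refine ⟨E.f_mem, E.f_rel, E.f_inj, ?_, ?_, ?_, ?_, ?_, ?_, ?_, ?_, ?_, ?_, ?_⟩
  · rintro p q ⟨h1, h2⟩
    exact ⟨E.M_symm _ _ h1, by rw [h2, Fin.rev_rev]⟩
  · rintro p q s ⟨h1, h2⟩ ⟨h3, h4⟩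
    exact Prod.ext (E.M_fun _ _ _ h1 h3) (by rw [h2, h4])
  · rintro p q ⟨h1, -⟩
    exact Finset.mem_product.2 ⟨E.M_mem _ _ h1, Finset.mem_univ _⟩
  · rintro p q ⟨h1, -⟩
    exact E.M_base _ _ h1
  · rintro p q ⟨h1, -⟩ h2
    rw [kr3] at h2
    exact E.M_ker _ _ h1 h2
  · intro q hq
    exact Finset.mem_product.2 ⟨E.φ_mem _ (Finset.mem_product.1 hq).1, Finset.mem_univ _⟩
  · intro q hq
    exact E.φ_base _ (Finset.mem_product.1 hq).1
  · intro p hp q hq hpq
    have hp' := (Finset.mem_product.1 (Finset.mem_coe.1 hp)).1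
    have hq' := (Finset.mem_product.1 (Finset.mem_coe.1 hq)).1
    have h1 := Prod.ext_iff.1 hpq
    exact Prod.ext (E.φ_inj (Finset.mem_coe.2 hp') (Finset.mem_coe.2 hq') h1.1) h1.2
  · intro v hv
    rw [thk_rot, thk_rot, flat_filter (fun a => GenAux.Kr G φ a) _ (kr3 G φ), flat_map]
    exact flat_rot (E.rot_eq v hv)
  · intro x hx
    rw [thk_rot, flat_filter (fun a => GenAux.Kr G φ a ∨ ∃ b, M a b) _ ?_]
    · exact nc3 (E.nc x hx)
    · intro p
      rw [kr3]
      constructor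
      · rintro (h | ⟨q, h, -⟩)
        · exact Or.inl h
        · exact Or.inr ⟨q.1, h⟩
      · rintro (h | ⟨b, h⟩)
        · exact Or.inl h
        · exact Or.inr ⟨(b, p.2.rev), h, rfl⟩
  · rintro ⟨h, i⟩ hh
    obtain ⟨y, h1, h2⟩ := E.run_in h (Finset.mem_product.1 hh).1
    refine ⟨(y, i), run3 h1 i, ?_⟩
    exact Prod.ext h2 rfl

end RotWqo.Pl
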