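import Pool.Agent.Lib.MP_cb4a0f_co.Pl.Stmts
import Pool.Agent.Lib.MP_cb4a0f_co.Pl.Nx6
import Pool.Agent.Lib.MP_cb4a0f_co.Pl.A1_2

/-!
# MP_cb4a0f_co: an edge is routed along a face (row A2)
-/

open Classical

namespace RotWqo.Pl

namespace A2h7

variable {V H : Type}

theorem flat_rot {α β : Type*} (g : α → List β) {l l' : List α} (h : l ~r l') :
    l.flatMap g ~r l'.flatMap g := by
  obtain ⟨n, rfl⟩ := h
  rw [List.rotate_eq_drop_append_take_mod, List.flatMap_append]
  conv_lhs => rw [← List.take_append_drop (n % l.length) l, List.flatMap_append]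
  exact List.isRotated_append

theorem flat_congr {α β : Type*} {g g' : α → List β} (l : List α) (h : ∀ x ∈ l, g x = g' x) :
    l.flatMap g = l.flatMap g' := by
  induction l with
  | nil => rfl
  | cons a l ih =>
    rw [List.flatMap_cons, List.flatMap_cons, h a (by simp), ih (fun x hx => h x (by simp [hx]))]

theorem flat_single {α β : Type*} (g : α → β) (l : List α) :
    l.flatMap (fun x => [g x]) = l.map g := by
  induction l with
  | nil => rfl
  | cons a l ih => rw [List.flatMap_cons, ih]; rfl

theorem shift {α β : Type*} {g g' : α → List β} {l l' : List α} {p q : α}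
    (hl : l ~r p :: q :: l') (h1 : g p ++ g q = g' p ++ g' q) (h2 : ∀ x ∈ l', g x = g' x) :
    l.flatMap g ~r l.flatMap g' := by
  refine (flat_rot g hl).trans (List.IsRotated.trans ?_ (flat_rot g' hl).symm)
  rw [List.flatMap_cons, List.flatMap_cons, List.flatMap_cons, List.flatMap_cons,
    flat_congr l' h2, ← List.append_assoc, ← List.append_assoc, h1]

theorem nc_adj {α : Type*} (M : α → α → Prop) (hs : ∀ a b, M a b → M b a)
    (hf : ∀ a b c, M a b → M a c → b = c) : ∀ n : ℕ, ∀ L : List α, L.length ≤ n → L.Nodup →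
    (∀ a ∈ L, ∀ b, M a b → (∃ L', L ~r a :: b :: L') ∨ ∃ L', L ~r b :: a :: L') → NC M L := by
  intro n
  induction n with
  | zero =>
    intro L hL _ _
    have : L = [] := List.length_eq_zero_iff.1 (Nat.le_zero.1 hL)
    subst this
    exact NC.done _ (fun a ha => absurd ha List.not_mem_nil)
  | succ n ih =>
    intro L hL hn hadj
    by_cases h0 : ∀ a ∈ L, ∀ b, ¬ M a b
    · exact NC.done _ h0
    push Not at h0
    obtain ⟨a, ha, b, hab⟩ := h0
    -- the general step
    have key : ∀ a b : α, M a b → (∃ L', L ~r a :: b :: L') → NC M L := by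
      rintro a b hab ⟨L', hL'⟩
      refine NC.pair _ a b L' hL' hab ?_
      have hn' : (a :: b :: L').Nodup := hL'.nodup_iff.1 hn
      have hlen := hL'.perm.length_eq
      simp only [List.length_cons] at hlen
      simp only [List.nodup_cons, List.mem_cons, not_or] at hn'
      obtain ⟨⟨hab', haL⟩, hbL, hnL⟩ := hn'
      refine ih L' (by omega) hnL ?_
      intro c hc e hce
      have hca : c ≠ a := fun h => haL (h ▸ hc)
      have hcb : c ≠ b := fun h => hbL (h ▸ hc)
      have hea : e ≠ a := by
        rintro rfl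
        exact hcb (hf _ _ _ (hs _ _ hce) hab)
      have heb : e ≠ b := by
        rintro rfl
        exact hca (hf _ _ _ (hs _ _ hce) (hs _ _ hab))
      have hfil : L.filter (fun x => decide (x ≠ a ∧ x ≠ b)) ~r L' := by
        refine (GenAux.rot_filter _ hL').trans ?_
        have e1 : (a :: b :: L').filter (fun x => decide (x ≠ a ∧ x ≠ b)) = L' := by
          rw [List.filter_cons_of_neg (by simp), List.filter_cons_of_neg (by simp),
            List.filter_eq_self]
          intro x hx
          simp only [decide_eq_true_eq]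
          exact ⟨fun h => haL (h ▸ hx), fun h => hbL (h ▸ hx)⟩
        rw [e1]
      rcases hadj c (hL'.mem_iff.2 (by simp [hc])) e hce with ⟨L2, h2⟩ | ⟨L2, h2⟩
      · left
        refine ⟨L2.filter (fun x => decide (x ≠ a ∧ x ≠ b)), hfil.symm.trans ?_⟩
        refine (GenAux.rot_filter _ h2).trans ?_
        rw [List.filter_cons_of_pos (by simp [hca, hcb]),
          List.filter_cons_of_pos (by simp [hea, heb])]
      · right
        refine ⟨L2.filter (fun x => decide (x ≠ a ∧ x ≠ b)), hfil.symm.trans ?_⟩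
        refine (GenAux.rot_filter _ h2).trans ?_
        rw [List.filter_cons_of_pos (by simp [hea, heb]),
          List.filter_cons_of_pos (by simp [hca, hcb])]
    rcases hadj a ha b hab with h | h
    · exact key a b hab h
    · exact key b a (hs _ _ hab) h

/-- the face of `d` -/
noncomputable def xs (G : RotGraph V H) (d : H) (i : ℕ) : H := (fs G)^[i] d

/-- the map of the half-edges -/
noncomputable def ph (G : RotGraph V H) (d : H) (l : ℕ) (h : H) : H × Fin 3 :=
  if h = d then (G.opp (xs G d l), 2) else if h = G.opp d then (xs G d 1, 0) else (h, 1)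

/-- the matching -/
def mt (G : RotGraph V H) (d : H) (l : ℕ) (p q : H × Fin 3) : Prop :=
  ∃ i, 1 ≤ i ∧ i < l ∧ ((p = (G.opp (xs G d i), 2) ∧ q = (xs G d (i + 1), 0)) ∨
    (q = (G.opp (xs G d i), 2) ∧ p = (xs G d (i + 1), 0)))

theorem mt_symm (G : RotGraph V H) (d : H) (l : ℕ) (p q : H × Fin 3) (h : mt G d l p q) :
    mt G d l q p := by
  obtain ⟨i, h1, h2, h3⟩ := h
  exact ⟨i, h1, h2, h3.symm⟩

theorem kr_iff (G : RotGraph V H) {d : H} (hd : d ∈ G.darts) (l : ℕ) (p : H × Fin 3) :
    GenAux.Kr G (ph G d l) p ↔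
      p = (G.opp (xs G d l), 2) ∨ p = (xs G d 1, 0) ∨ ∃ h ∈ G.darts, h ≠ d ∧ h ≠ G.opp d ∧
        p = (h, 1) := by
  constructor
  · rintro ⟨h, h1, h2⟩
    unfold ph at h2
    split_ifs at h2 with h3 h4
    · exact Or.inl h2.symm
    · exact Or.inr (Or.inl h2.symm)
    · exact Or.inr (Or.inr ⟨h, h1, h3, h4, h2.symm⟩)
  · rintro (rfl | rfl | ⟨h, h1, h2, h3, rfl⟩)
    · exact ⟨d, hd, by simp [ph]⟩
    · exact ⟨G.opp d, G.opp_mem d hd, by simp [ph, G.opp_ne d hd]⟩
    · exact ⟨h, h1, by simp [ph, h2, h3]⟩

theorem mem_delE {G : RotGraph V H} {d h : H} (hd : d ∈ G.darts) :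
    h ∈ (delE G d).darts ↔ h ∈ G.darts ∧ h ≠ d ∧ h ≠ G.opp d := by
  show h ∈ G.darts.filter (fun h => d ∈ G.darts → h ≠ d ∧ h ≠ G.opp d) ↔ _
  rw [Finset.mem_filter]
  constructor
  · rintro ⟨h1, h2⟩
    exact ⟨h1, h2 hd⟩
  · rintro ⟨h1, h2⟩
    exact ⟨h1, fun _ => h2⟩

/-- two consecutive half-edges -/
theorem exists_adj {G : RotGraph V H} {a b : H} (ha : a ∈ G.darts) (h : nx G a = b) (hne : b ≠ a) :
    ∃ l, G.rot (G.base a) ~r a :: b :: l := by
  rcases nx_cases G ha with ⟨-, h1⟩ | ⟨l, h1⟩
  · exact absurd (h.symm.trans h1) hne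
  · exact ⟨l, by rw [← h]; exact h1⟩

/-- the strands that are used -/
noncomputable def c0 (G : RotGraph V H) (d : H) (l : ℕ) (h : H) : List (H × Fin 3) :=
  if h = d ∨ h = G.opp d then [] else
    (if h = xs G d 1 then [(xs G d 1, 0)] else []) ++ ([(h, 1)] ++
      (if h = G.opp (xs G d l) then [(G.opp (xs G d l), 2)] else []))

noncomputable def c1 (G : RotGraph V H) (d : H) (l : ℕ) (h : H) : List (H × Fin 3) :=
  if h = d then [] else if h = G.opp d then [(xs G d 1, 0)] else
    ([(h, 1)] ++ (if h = G.opp (xs G d l) then [(G.opp (xs G d l), 2)] else []))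

theorem filter_flat (G : RotGraph V H) {d : H} (hd : d ∈ G.darts) (n : ℕ) (l : List H)
    (hl : ∀ h ∈ l, h ∈ G.darts) :
    (((l.filter (fun h => decide (d ∈ G.darts → h ≠ d ∧ h ≠ G.opp d))).flatMap
      (fun h => [(h, (0 : Fin 3)), (h, 1), (h, 2)])).filter
        (fun p => decide (GenAux.Kr G (ph G d n) p))) = l.flatMap (c0 G d n) := by
  induction l with
  | nil => rfl
  | cons h l ih =>
    have h1 := hl h (by simp)
    have ih' := ih (fun x hx => hl x (by simp [hx]))
    rw [List.flatMap_cons]
    by_cases h2 : h = d ∨ h = G.opp d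
    · rw [List.filter_cons_of_neg (by simp only [decide_eq_true_eq]; tauto), ih']
      unfold c0
      rw [if_pos h2, List.nil_append]
    · rw [List.filter_cons_of_pos (by simp only [decide_eq_true_eq]; tauto), List.flatMap_cons,
        List.filter_append, ih']
      congr 1
      push Not at h2
      have k0 : GenAux.Kr G (ph G d n) (h, (0 : Fin 3)) ↔ h = xs G d 1 := by
        rw [kr_iff G hd]
        simp
      have k1 : GenAux.Kr G (ph G d n) (h, (1 : Fin 3)) := by
        rw [kr_iff G hd]
        exact Or.inr (Or.inr ⟨h, h1, h2.1, h2.2, rfl⟩)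
      have k2 : GenAux.Kr G (ph G d n) (h, (2 : Fin 3)) ↔ h = G.opp (xs G d n) := by
        rw [kr_iff G hd]
        simp
      unfold c0
      rw [if_neg (by tauto)]
      by_cases h3 : h = xs G d 1 <;> by_cases h4 : h = G.opp (xs G d n)
      · rw [List.filter_cons_of_pos (by rw [decide_eq_true_eq, k0]; exact h3),
          List.filter_cons_of_pos (by simpa using k1),
          List.filter_cons_of_pos (by rw [decide_eq_true_eq, k2]; exact h4), List.filter_nil,
          if_pos h3, if_pos h4, ← h3, ← h4]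
        rfl
      · rw [List.filter_cons_of_pos (by rw [decide_eq_true_eq, k0]; exact h3),
          List.filter_cons_of_pos (by simpa using k1),
          List.filter_cons_of_neg (by rw [decide_eq_true_eq, k2]; exact h4), List.filter_nil,
          if_pos h3, if_neg h4, ← h3]
        rfl
      · rw [List.filter_cons_of_neg (by rw [decide_eq_true_eq, k0]; exact h3),
          List.filter_cons_of_pos (by simpa using k1),
          List.filter_cons_of_pos (by rw [decide_eq_true_eq, k2]; exact h4), List.filter_nil,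
          if_neg h3, if_pos h4, ← h4]
        rfl
      · rw [List.filter_cons_of_neg (by rw [decide_eq_true_eq, k0]; exact h3),
          List.filter_cons_of_pos (by simpa using k1),
          List.filter_cons_of_neg (by rw [decide_eq_true_eq, k2]; exact h4), List.filter_nil,
          if_neg h3, if_neg h4]
        rfl

end A2h7

open A2h7 in
/-- An edge whose two sides are in different faces is routed along one of these faces. -/
theorem stFace_7 : StFace := by
  intro V H G d hd hne hopp
  have hd' := G.opp_mem d hd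
  have hdd' : G.opp d ≠ d := G.opp_ne d hd
  -- the length of the face
  have hex : ∃ n, (fs G)^[n + 1] d = d := fs_returns hd
  obtain ⟨l, hl, hmin⟩ : ∃ l, xs G d (l + 1) = d ∧ ∀ i, 1 ≤ i → i ≤ l → xs G d i ≠ d := by
    refine ⟨Nat.find hex, Nat.find_spec hex, ?_⟩
    intro i h1 h2 h3
    have := Nat.find_min hex (m := i - 1) (by omega)
    rw [Nat.sub_add_cancel h1] at this
    exact this h3
  have hl1 : 1 ≤ l := by
    rcases Nat.eq_zero_or_pos l with h | h
    · subst h
      exact absurd hl hne
    · exact h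
  have hmem : ∀ i, xs G d i ∈ G.darts := fun i => fs_iter_mem hd i
  have hsucc : ∀ i, xs G d (i + 1) = fs G (xs G d i) := fun i =>
    Function.iterate_succ_apply' _ _ _
  have hnx : ∀ i, nx G (G.opp (xs G d i)) = xs G d (i + 1) := fun i => (hsucc i).symm
  have hno : ∀ i, xs G d i ≠ G.opp d := hopp
  have hinj0 : ∀ i k, 1 ≤ i → i + k + 1 ≤ l → xs G d i ≠ xs G d (i + k + 1) := by
    intro i
    induction i with
    | zero => intro k h1; omega
    | succ i ih =>
      intro k h1 h2 h3
      rw [hsucc i, show i + 1 + k + 1 = (i + k + 1) + 1 by omega, hsucc] at h3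
      have h4 := fs_injOn G (hmem _) (hmem _) h3
      rcases Nat.eq_zero_or_pos i with h5 | h5
      · subst h5
        exact hmin (0 + k + 1) (by omega) (by omega) h4.symm
      · exact ih k h5 (by omega) h4
  have hinj : ∀ i j, 1 ≤ i → i ≤ l → 1 ≤ j → j ≤ l → xs G d i = xs G d j → i = j := by
    intro i j h1 h2 h3 h4 h5
    rcases lt_trichotomy i j with h6 | h6 | h6
    · obtain ⟨k, rfl⟩ := Nat.exists_eq_add_of_lt h6
      exact absurd h5 (hinj0 i k h1 h4)
    · exact h6
    · obtain ⟨k, rfl⟩ := Nat.exists_eq_add_of_lt h6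
      exact absurd h5.symm (hinj0 j k h3 h2)
  have hoi : ∀ {a b : H}, a ∈ G.darts → b ∈ G.darts → G.opp a = G.opp b → a = b := by
    intro a b ha hb hab
    rw [← G.opp_opp a ha, hab, G.opp_opp b hb]
  have hod : ∀ i, G.opp (xs G d i) ≠ d := fun i h => hno i (by
    rw [← G.opp_opp _ (hmem i), h])
  have hod' : ∀ i, 1 ≤ i → i ≤ l → G.opp (xs G d i) ≠ G.opp d := fun i h1 h2 h =>
    hmin i h1 h2 (hoi (hmem i) hd h)
  have hbs : ∀ i, G.base (xs G d (i + 1)) = G.base (G.opp (xs G d i)) := by
    intro i
    rw [hsucc]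
    exact fs_base (hmem i)
  -- the host
  have hrotE : ∀ u, (delE G d).rot u = (G.rot u).filter
      (fun h => decide (d ∈ G.darts → h ≠ d ∧ h ≠ G.opp d)) := fun u => rfl
  have hrotK : ∀ u, (thk (delE G d)).rot u = ((delE G d).rot u).flatMap
      (fun h => [(h, (0 : Fin 3)), (h, 1), (h, 2)]) := fun u => rfl
  have hoppK : ∀ p, (thk (delE G d)).opp p = (G.opp p.1, p.2.rev) := fun p => rfl
  have hbaseK : ∀ p, (thk (delE G d)).base p = G.base p.1 := fun p => rfl
  have hdK : ∀ h i, h ∈ G.darts → h ≠ d → h ≠ G.opp d → (h, i) ∈ (thk (delE G d)).darts := by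
    intro h i h1 h2 h3
    exact Finset.mem_product.2 ⟨(mem_delE hd).2 ⟨h1, h2, h3⟩, Finset.mem_univ _⟩
  have hMf : ∀ a b c, mt G d l a b → mt G d l a c → b = c := by
    rintro a b c ⟨i, h1, h2, h3⟩ ⟨j, h4, h5, h6⟩
    rcases h3 with ⟨rfl, rfl⟩ | ⟨rfl, rfl⟩ <;> rcases h6 with ⟨h7, rfl⟩ | ⟨rfl, h7⟩
    · have h8 := hoi (hmem i) (hmem j) (Prod.ext_iff.1 h7).1
      have h9 := hinj i j h1 (by omega) h4 (by omega) h8
      rw [h9]
    · exact absurd (Prod.ext_iff.1 h7).2 (by simp)
    · exact absurd (Prod.ext_iff.1 h7).2 (by simp)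
    · have h8 := hinj (i + 1) (j + 1) (by omega) (by omega) (by omega) (by omega)
        (Prod.ext_iff.1 h7).1
      have h9 : i = j := by omega
      rw [h9]
  -- adjacency in the host
  have hadjK : ∀ i, 1 ≤ i → i < l → ∃ L, (thk (delE G d)).rot (G.base (G.opp (xs G d i))) ~r
      (G.opp (xs G d i), 2) :: (xs G d (i + 1), 0) :: L := by
    intro i h1 h2
    have ho := hod i
    have ho' := hod' i h1 (by omega)
    have hx := hmin (i + 1) (by omega) (by omega)
    have hx' := hno (i + 1)
    rcases nx_cases G (G.opp_mem _ (hmem i)) with ⟨h3, h4⟩ | ⟨L, h3⟩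
    · rw [hnx] at h4
      refine ⟨[(G.opp (xs G d i), 1)], ?_⟩
      rw [hrotK, hrotE, h3, h4, List.filter_cons_of_pos (by simp [ho, ho']), List.filter_nil]
      exact ⟨2, by simp⟩
    · rw [hnx] at h3
      have h4 := GenAux.rot_filter (fun h => decide (d ∈ G.darts → h ≠ d ∧ h ≠ G.opp d)) h3
      rw [List.filter_cons_of_pos (by simp [ho, ho']),
        List.filter_cons_of_pos (by simp [hx, hx'])] at h4
      have h5 := A2h7.flat_rot (fun h => [(h, (0 : Fin 3)), (h, 1), (h, 2)]) h4
      rw [← hrotE, ← hrotK, List.flatMap_cons, List.flatMap_cons] at h5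
      refine ⟨[(xs G d (i + 1), 1), (xs G d (i + 1), 2)] ++ ((L.filter (fun h => decide
        (d ∈ G.darts → h ≠ d ∧ h ≠ G.opp d))).flatMap
        (fun h => [(h, (0 : Fin 3)), (h, 1), (h, 2)])) ++
        [(G.opp (xs G d i), 0), (G.opp (xs G d i), 1)], h5.trans ⟨2, ?_⟩⟩
      simp only [List.cons_append, List.nil_append, List.rotate_cons_succ, List.rotate_zero,
        List.append_assoc]
  refine LE.of_emb (f := fun v => v) (φ := ph G d l) (M := mt G d l) ⟨?_, fun _ _ => trivial, ?_,
    mt_symm G d l, hMf, ?_, ?_, ?_, ?_, ?_, ?_, ?_, ?_, ?_⟩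
  · -- f_mem
    intro u hu
    exact hu
  · -- f_inj
    intro u _ u' _ h
    exact h
  · -- M_mem
    rintro p q ⟨i, h1, h2, ⟨rfl, rfl⟩ | ⟨rfl, rfl⟩⟩
    · exact hdK _ _ (G.opp_mem _ (hmem i)) (hod i) (hod' i h1 (by omega))
    · exact hdK _ _ (hmem _) (hmin _ (by omega) (by omega)) (hno _)
  · -- M_base
    rintro p q ⟨i, h1, h2, ⟨rfl, rfl⟩ | ⟨rfl, rfl⟩⟩
    · exact hbs i
    · exact (hbs i).symm
  · -- M_ker
    rintro p q ⟨i, h1, h2, ⟨rfl, rfl⟩ | ⟨rfl, rfl⟩⟩ h3
    · rw [kr_iff G hd] at h3
      rcases h3 with h3 | h3 | ⟨h, -, -, -, h3⟩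
      · have h4 := hinj i l h1 (by omega) hl1 le_rfl (hoi (hmem i) (hmem l) (Prod.ext_iff.1 h3).1)
        omega
      · exact absurd (Prod.ext_iff.1 h3).2 (by simp)
      · exact absurd (Prod.ext_iff.1 h3).2 (by simp)
    · rw [kr_iff G hd] at h3
      rcases h3 with h3 | h3 | ⟨h, -, -, -, h3⟩
      · exact absurd (Prod.ext_iff.1 h3).2 (by simp)
      · have h4 := hinj (i + 1) 1 (by omega) (by omega) le_rfl hl1 (Prod.ext_iff.1 h3).1
        omega
      · exact absurd (Prod.ext_iff.1 h3).2 (by simp)
  · -- φ_mem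
    intro h hh
    unfold ph
    split_ifs with h1 h2
    · exact hdK _ _ (G.opp_mem _ (hmem l)) (hod l) (hod' l hl1 le_rfl)
    · exact hdK _ _ (hmem 1) (hmin 1 le_rfl hl1) (hno 1)
    · exact hdK _ _ hh h1 h2
  · -- φ_base
    intro h hh
    unfold ph
    split_ifs with h1 h2
    · rw [hbaseK, h1]
      show G.base (G.opp (xs G d l)) = _
      rw [← hbs l, hl]
    · rw [hbaseK, h2]
      show G.base (xs G d 1) = _
      exact hbs 0
    · rfl
  · -- φ_inj
    intro h hh h' hh' h1
    have q1 : ph G d l d = (G.opp (xs G d l), 2) := by simp [ph]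
    have q2 : ph G d l (G.opp d) = (xs G d 1, 0) := by simp [ph, hdd']
    have q3 : ∀ g, g ≠ d → g ≠ G.opp d → ph G d l g = (g, 1) := by
      intro g g1 g2
      simp [ph, g1, g2]
    by_cases a1 : h = d
    · by_cases b1 : h' = d
      · exact a1.trans b1.symm
      · exfalso
        rw [a1, q1] at h1
        by_cases b2 : h' = G.opp d
        · rw [b2, q2] at h1
          exact absurd (Prod.ext_iff.1 h1).2 (by simp)
        · rw [q3 _ b1 b2] at h1
          exact absurd (Prod.ext_iff.1 h1).2 (by simp)
    by_cases a2 : h = G.opp d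
    · by_cases b2 : h' = G.opp d
      · exact a2.trans b2.symm
      · exfalso
        rw [a2, q2] at h1
        by_cases b1 : h' = d
        · rw [b1, q1] at h1
          exact absurd (Prod.ext_iff.1 h1).2 (by simp)
        · rw [q3 _ b1 b2] at h1
          exact absurd (Prod.ext_iff.1 h1).2 (by simp)
    rw [q3 _ a1 a2] at h1
    by_cases b1 : h' = d
    · rw [b1, q1] at h1
      exact absurd (Prod.ext_iff.1 h1).2 (by simp)
    by_cases b2 : h' = G.opp d
    · rw [b2, q2] at h1
      exact absurd (Prod.ext_iff.1 h1).2 (by simp)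
    rw [q3 _ b1 b2] at h1
    exact (Prod.ext_iff.1 h1).1
  · -- rot_eq
    intro u hu
    show ((((G.rot u).filter (fun h => decide (d ∈ G.darts → h ≠ d ∧ h ≠ G.opp d))).flatMap
      (fun h => [(h, (0 : Fin 3)), (h, 1), (h, 2)])).filter
        (fun p => decide (GenAux.Kr G (ph G d l) p))) ~r _
    rw [filter_flat G hd l _ (fun h hh => ((G.mem_rot u h).1 hh).1), ← flat_single]
    refine List.IsRotated.trans (l' := (G.rot u).flatMap (c1 G d l)) ?_ ?_
    · by_cases h1 : u = G.base (G.opp d)
      · subst h1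
        obtain ⟨L, hL⟩ := exists_adj hd' (hnx 0) (hno 1)
        have hn : (G.opp d :: xs G d 1 :: L).Nodup := hL.nodup_iff.1 (G.nodup _)
        refine shift hL ?_ ?_
        · have e1 : xs G d 1 ≠ d := hmin 1 le_rfl hl1
          have e2 : xs G d 1 ≠ G.opp d := hno 1
          simp [c0, c1, e1, e2, hdd']
        · intro x hx
          have e3 : x ≠ G.opp d := by
            rintro rfl
            simp at hn
            exact hn.1.2 hx
          have e4 : x ≠ xs G d 1 := by
            rintro rfl
            simp at hn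
            exact hn.2.1 hx
          unfold c0 c1
          by_cases e5 : x = d
          · simp [e5]
          · simp [e3, e4, e5]
      · have hcong : ∀ (g g' : H → List (H × Fin 3)), (∀ x ∈ G.rot u, g x = g' x) →
            (G.rot u).flatMap g ~r (G.rot u).flatMap g' := by
          intro g g' hg
          rw [flat_congr _ hg]
        refine hcong _ _ ?_
        intro x hx
        obtain ⟨-, hx2⟩ := (G.mem_rot u x).1 hx
        have e3 : x ≠ G.opp d := by
          rintro rfl
          exact h1 hx2.symm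
        have e4 : x ≠ xs G d 1 := by
          rintro rfl
          exact h1 (by rw [← hx2]; exact hbs 0)
        unfold c0 c1
        by_cases e5 : x = d
        · simp [e5]
        · simp [e3, e4, e5]
    · by_cases h1 : u = G.base d
      · have hbl : G.base (G.opp (xs G d l)) = G.base d := by rw [← hbs l, hl]
        subst h1
        have hnl : nx G (G.opp (xs G d l)) = d := by rw [hnx, hl]
        obtain ⟨L, hL⟩ := exists_adj (G.opp_mem _ (hmem l)) hnl (hod l).symm
        rw [hbl] at hL
        have hn : (G.opp (xs G d l) :: d :: L).Nodup := hL.nodup_iff.1 (G.nodup _)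
        refine shift hL ?_ ?_
        · have e1 := hod l
          have e2 := hod' l hl1 le_rfl
          simp [c1, ph, e1, e2]
        · intro x hx
          have e3 : x ≠ G.opp (xs G d l) := by
            rintro rfl
            simp at hn
            exact hn.1.2 hx
          have e4 : x ≠ d := by
            rintro rfl
            simp at hn
            exact hn.2.1 hx
          unfold c1 ph
          by_cases e5 : x = G.opp d
          · simp [e5, hdd']
          · simp [e3, e4, e5]
      · have hcong : ∀ (g g' : H → List (H × Fin 3)), (∀ x ∈ G.rot u, g x = g' x) →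
            (G.rot u).flatMap g ~r (G.rot u).flatMap g' := by
          intro g g' hg
          rw [flat_congr _ hg]
        refine hcong _ _ ?_
        intro x hx
        obtain ⟨-, hx2⟩ := (G.mem_rot u x).1 hx
        have e4 : x ≠ d := by
          rintro rfl
          exact h1 hx2.symm
        have e3 : x ≠ G.opp (xs G d l) := by
          rintro rfl
          exact h1 (by rw [← hx2, ← hbs l, hl])
        unfold c1 ph
        by_cases e5 : x = G.opp d
        · simp [e5, hdd']
        · simp [e3, e4, e5]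
  · -- nc
    intro u hu
    refine nc_adj _ (mt_symm G d l) hMf _ _ le_rfl (((thk (delE G d)).nodup u).filter _) ?_
    intro a ha b hab
    have hau := (((thk (delE G d)).mem_rot u a).1 (List.mem_of_mem_filter ha)).2
    have key : ∀ p q : H × Fin 3, (∃ i, 1 ≤ i ∧ i < l ∧ p = (G.opp (xs G d i), 2) ∧
        q = (xs G d (i + 1), 0)) → (thk (delE G d)).base p = u →
        ∃ L', ((thk (delE G d)).rot u).filter (fun a => decide (GenAux.Kr G (ph G d l) a ∨
          ∃ b, mt G d l a b)) ~r p :: q :: L' := by
      rintro p q ⟨i, h1, h2, rfl, rfl⟩ h3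
      obtain ⟨L, hL⟩ := hadjK i h1 h2
      have h4 : G.base (G.opp (xs G d i)) = u := h3
      rw [h4] at hL
      have h5 : mt G d l (G.opp (xs G d i), 2) (xs G d (i + 1), 0) :=
        ⟨i, h1, h2, Or.inl ⟨rfl, rfl⟩⟩
      refine ⟨L.filter (fun a => decide (GenAux.Kr G (ph G d l) a ∨ ∃ b, mt G d l a b)),
        (GenAux.rot_filter _ hL).trans ?_⟩
      rw [List.filter_cons_of_pos (by simp only [decide_eq_true_eq]; exact Or.inr ⟨_, h5⟩),
        List.filter_cons_of_pos (by
          simp only [decide_eq_true_eq]; exact Or.inr ⟨_, mt_symm _ _ _ _ _ h5⟩)]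
    obtain ⟨i, h1, h2, h3 | h3⟩ := hab
    · left
      exact key a b ⟨i, h1, h2, h3.1, h3.2⟩ hau
    · right
      refine key b a ⟨i, h1, h2, h3.1, h3.2⟩ ?_
      rw [h3.1, ← hau, h3.2]
      exact (hbs i).symm
  · -- run_in
    have run1 : ∀ i, 1 ≤ i → i ≤ l → Run (thk (delE G d)).opp (mt G d l) (xs G d 1, 0)
        (xs G d i, 0) := by
      intro i h1
      induction i, h1 using Nat.le_induction with
      | base => intro _; exact Run.refl _
      | succ i h1 ih =>
        intro h2
        refine Run.trans (ih (by omega)) (Run.step _ _ _ ?_ (Run.refl _))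
        refine ⟨i, h1, by omega, Or.inl ⟨?_, rfl⟩⟩
        rw [hoppK]
        rfl
    have run2 : ∀ i, 1 ≤ i → i ≤ l → Run (thk (delE G d)).opp (mt G d l)
        (G.opp (xs G d i), 2) (G.opp (xs G d 1), 2) := by
      intro i h1
      induction i, h1 using Nat.le_induction with
      | base => intro _; exact Run.refl _
      | succ i h1 ih =>
        intro h2
        refine Run.step _ (G.opp (xs G d i), 2) _ ?_ (ih (by omega))
        refine ⟨i, h1, by omega, Or.inr ⟨rfl, ?_⟩⟩
        rw [hoppK]
        show (G.opp (G.opp (xs G d (i + 1))), _) = _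
        rw [G.opp_opp _ (hmem _)]
        rfl
    intro h hh
    by_cases h1 : h = d
    · subst h1
      refine ⟨(G.opp (xs G h 1), 2), ?_, ?_⟩
      · have : ph G h l h = (G.opp (xs G h l), 2) := by simp [ph]
        rw [this]
        exact run2 l hl1 le_rfl
      · rw [hoppK]
        show (G.opp (G.opp (xs G h 1)), _) = _
        rw [G.opp_opp _ (hmem _)]
        simp [ph, G.opp_ne h hh]
    by_cases h2 : h = G.opp d
    · subst h2
      refine ⟨(xs G d l, 0), ?_, ?_⟩
      · have : ph G d l (G.opp d) = (xs G d 1, 0) := by simp [ph, hdd']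
        rw [this]
        exact run1 l hl1 le_rfl
      · rw [hoppK, G.opp_opp d hd]
        simp [ph]
    · have h3 : G.opp h ≠ d := by
        intro h3
        exact h2 (by rw [← h3, G.opp_opp h hh])
      have h4 : G.opp h ≠ G.opp d := by
        intro h4
        exact h1 (hoi hh hd h4)
      refine ⟨_, Run.refl _, ?_⟩
      rw [hoppK]
      simp [ph, h1, h2, h3, h4]

end RotWqo.Pl
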