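import Pool.Agent.Lib.MP_cb4a0f_co.Pl.Stmts
import Pool.Agent.Lib.MP_cb4a0f_co.Pl.Nx6

/-!
# MP_cb4a0f_co: planar rotated graphs, module A3 (pendant edges)
-/

open Classical

namespace RotWqo.Pl.A3X

variable {V H : Type}

theorem rot_flatMap {α β : Type*} (g : α → List β) {l l' : List α} (h : l ~r l') :
    l.flatMap g ~r l'.flatMap g := by
  obtain ⟨n, rfl⟩ := h
  rw [List.rotate_eq_drop_append_take_mod, List.flatMap_append]
  conv_lhs => rw [← List.take_append_drop (n % l.length) l, List.flatMap_append]
  exact List.isRotated_append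

/-- the map of the half-edges -/
noncomputable def ph (G : RotGraph V H) (d a : H) (h : H) : (H ⊕ Bool) × Fin 3 :=
  if h = d then (.inr false, 0) else if h = G.opp d then (.inl a, 2) else (.inl h, 1)

/-- the map of the vertices -/
noncomputable def fv (G : RotGraph V H) (d : H) (u : V) : Option V :=
  if u = G.base d then none else some u

/-- the matching -/
def mt (p q : (H ⊕ Bool) × Fin 3) : Prop :=
  (p = (.inr false, 1) ∧ q = (.inr true, 1)) ∨ (p = (.inr true, 1) ∧ q = (.inr false, 1))

theorem kr_iff (G : RotGraph V H) {d a : H} (hd : d ∈ G.darts) (p : (H ⊕ Bool) × Fin 3) :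
    GenAux.Kr G (ph G d a) p ↔
      p = (.inr false, 0) ∨ p = (.inl a, 2) ∨ ∃ h ∈ G.darts, h ≠ d ∧ h ≠ G.opp d ∧
        p = (.inl h, 1) := by
  constructor
  · rintro ⟨h, h1, h2⟩
    unfold ph at h2
    split_ifs at h2 with h3 h4
    · exact Or.inl h2.symm
    · exact Or.inr (Or.inl h2.symm)
    · exact Or.inr (Or.inr ⟨h, h1, h3, h4, h2.symm⟩)
  · rintro (rfl | rfl | ⟨h, h1, h2, h3, rfl⟩)
    · exact ⟨d, hd, by simp [ph]⟩
    · exact ⟨G.opp d, G.opp_mem d hd, by simp [ph, G.opp_ne d hd]⟩
    · exact ⟨h, h1, by simp [ph, h2, h3]⟩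

theorem mem_delL {G : RotGraph V H} {d h : H} (hd : d ∈ G.darts) :
    h ∈ (delL G d).darts ↔ h ∈ G.darts ∧ h ≠ d ∧ h ≠ G.opp d := by
  show h ∈ G.darts.filter (fun h => d ∈ G.darts → h ≠ d ∧ h ≠ G.opp d) ↔ _
  rw [Finset.mem_filter]
  constructor
  · rintro ⟨h1, h2⟩
    exact ⟨h1, h2 hd⟩
  · rintro ⟨h1, h2⟩
    exact ⟨h1, fun _ => h2⟩

/-- the strands with index 1 (and the strand 2 of `a`) -/
theorem filter_flat (G : RotGraph V H) {d a : H} (hd : d ∈ G.darts) (l : List H)
    (hl : ∀ h ∈ l, h ∈ G.darts ∧ h ≠ d ∧ h ≠ G.opp d) :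
    ((l.map (Sum.inl (β := Bool))).flatMap
      (fun h => [(h, (0 : Fin 3)), (h, 1), (h, 2)])).filter
        (fun p => decide (GenAux.Kr G (ph G d a) p)) =
      l.flatMap (fun h => if h = a then [(.inl h, 1), (.inl h, 2)] else [(.inl h, 1)]) := by
  induction l with
  | nil => rfl
  | cons h l ih =>
    have h1 := hl h (by simp)
    have ih' := ih (fun x hx => hl x (by simp [hx]))
    rw [List.map_cons, List.flatMap_cons, List.flatMap_cons, List.filter_append, ih']
    congr 1
    have k0 : ¬ GenAux.Kr G (ph G d a) ((Sum.inl h : H ⊕ Bool), (0 : Fin 3)) := by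
      rw [kr_iff G hd]
      simp
    have k1 : GenAux.Kr G (ph G d a) ((Sum.inl h : H ⊕ Bool), (1 : Fin 3)) := by
      rw [kr_iff G hd]
      exact Or.inr (Or.inr ⟨h, h1.1, h1.2.1, h1.2.2, rfl⟩)
    have k2 : GenAux.Kr G (ph G d a) ((Sum.inl h : H ⊕ Bool), (2 : Fin 3)) ↔ h = a := by
      rw [kr_iff G hd]
      simp
    by_cases h3 : h = a
    · rw [if_pos h3, List.filter_cons_of_neg (by simpa using k0),
        List.filter_cons_of_pos (by simpa using k1),
        List.filter_cons_of_pos (by rw [decide_eq_true_eq, k2]; exact h3), List.filter_nil]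
    · rw [if_neg h3, List.filter_cons_of_neg (by simpa using k0),
        List.filter_cons_of_pos (by simpa using k1),
        List.filter_cons_of_neg (by rw [decide_eq_true_eq, k2]; exact h3), List.filter_nil]

end RotWqo.Pl.A3X

namespace RotWqo.Pl

open A3X

theorem A3_helper28 : StPend := by
  intro V H G d a ha hd hrot hnx
  have ha' := (mem_delL hd).1 ha
  obtain ⟨haG, had, had'⟩ := ha'
  have hd' := G.opp_mem d hd
  have hbase : G.base (G.opp d) = G.base a := by
    rw [← hnx]
    exact (nx_mem haG).2
  obtain ⟨l, hl⟩ : ∃ l, G.rot (G.base a) ~r a :: G.opp d :: l := by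
    rcases nx_cases G haG with ⟨-, h1⟩ | h1
    · exact absurd (h1.symm.trans hnx) had'
    · rwa [hnx] at h1
  have hleaf : ∀ h ∈ G.darts, G.base h = G.base d → h = d := by
    intro h h1 h2
    have h3 := (G.mem_rot (G.base d) h).2 ⟨h1, h2⟩
    rw [hrot] at h3
    simpa using h3
  have hvw : G.base a ≠ G.base d := fun h1 => had (hleaf a haG h1)
  -- the vertices
  have hvert : ∀ u ∈ G.verts, u ≠ G.base d → u ∈ (delL G d).verts := by
    intro u hu h1
    show u ∈ G.verts.filter _
    rw [Finset.mem_filter]
    exact ⟨hu, fun _ => h1⟩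
  have hrotL : ∀ u, (delL G d).rot u = (G.rot u).filter
      (fun h => decide (d ∈ G.darts → h ≠ d ∧ h ≠ G.opp d)) := fun u => rfl
  refine LE.of_emb (f := fv G d) (φ := ph G d a) (M := mt) ⟨?_, fun _ _ => trivial, ?_, ?_, ?_,
    ?_, ?_, ?_, ?_, ?_, ?_, ?_, ?_, ?_⟩
  · -- f_mem
    intro u hu
    show fv G d u ∈ insert none ((delL G d).verts.image some)
    unfold fv
    split_ifs with h1
    · simp
    · simp [hvert u hu h1]
  · -- f_inj
    intro u hu u' hu' h1
    unfold fv at h1
    split_ifs at h1 with h2 h3 h3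
    · rw [h2, h3]
    · simpa using h1
  · -- M_symm
    rintro p q (⟨rfl, rfl⟩ | ⟨rfl, rfl⟩)
    · exact Or.inr ⟨rfl, rfl⟩
    · exact Or.inl ⟨rfl, rfl⟩
  · -- M_fun
    rintro p q r (⟨rfl, rfl⟩ | ⟨rfl, rfl⟩) (⟨h1, rfl⟩ | ⟨h1, rfl⟩)
    · rfl
    · simp at h1
    · simp at h1
    · rfl
  · -- M_mem
    rintro p q (⟨rfl, rfl⟩ | ⟨rfl, rfl⟩)
    · show _ ∈ (Finset.disjSum _ _) ×ˢ _
      simp
    · show _ ∈ (Finset.disjSum _ _) ×ˢ _
      simp
  · -- M_base
    rintro p q (⟨rfl, rfl⟩ | ⟨rfl, rfl⟩) <;> rfl
  · -- M_ker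
    rintro p q h1 h2
    rw [kr_iff G hd] at h2
    rcases h1 with ⟨rfl, rfl⟩ | ⟨rfl, rfl⟩ <;> simp at h2
  · -- φ_mem
    intro h hh
    show ph G d a h ∈ ((delL G d).darts.disjSum Finset.univ) ×ˢ Finset.univ
    unfold ph
    split_ifs with h1 h2
    · simp
    · simp [ha]
    · have := (mem_delL hd).2 ⟨hh, h1, h2⟩
      simp [this]
  · -- φ_base
    intro h hh
    unfold ph fv
    by_cases h1 : h = d
    · subst h1
      rw [if_pos rfl, if_pos rfl]
      rfl
    have h2 : G.base h ≠ G.base d := fun h2 => h1 (hleaf h hh h2)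
    rw [if_neg h1, if_neg h2]
    split_ifs with h3
    · show some (G.base a) = _
      rw [h3, hbase]
    · rfl
  · -- φ_inj
    intro h hh h' hh' h1
    unfold ph at h1
    split_ifs at h1 with h2 h3 h4 h5 h6 h7 h8
    all_goals simp_all
  · -- rot_eq
    intro u hu
    by_cases h1 : u = G.base d
    · subst h1
      rw [hrot]
      have e : fv G d (G.base d) = none := by simp [fv]
      rw [e]
      show (([Sum.inr false, Sum.inr true] : List (H ⊕ Bool)).flatMap
        (fun h => [(h, (0 : Fin 3)), (h, 1), (h, 2)])).filter _ ~r _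
      have k0 : GenAux.Kr G (ph G d a) ((Sum.inr false : H ⊕ Bool), (0 : Fin 3)) := by
        rw [kr_iff G hd]; simp
      have k1 : ∀ i, i ≠ 0 → ¬ GenAux.Kr G (ph G d a) ((Sum.inr false : H ⊕ Bool), (i : Fin 3)) := by
        intro i hi
        rw [kr_iff G hd]; simp [hi]
      have k2 : ∀ i, ¬ GenAux.Kr G (ph G d a) ((Sum.inr true : H ⊕ Bool), (i : Fin 3)) := by
        intro i
        rw [kr_iff G hd]; simp
      simp [List.filter_cons, k0, k1, k2, ph]
    · have e : fv G d u = some u := by simp [fv, h1]
      rw [e]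
      show (((delL G d).rot u).map Sum.inl |>.flatMap
        (fun h => [(h, (0 : Fin 3)), (h, 1), (h, 2)])).filter _ ~r _
      have hmem : ∀ h ∈ (delL G d).rot u, h ∈ G.darts ∧ h ≠ d ∧ h ≠ G.opp d := by
        intro h hh
        exact (mem_delL hd).1 (((delL G d).mem_rot u h).1 hh).1
      rw [filter_flat G hd _ hmem]
      by_cases h2 : u = G.base a
      · subst h2
        have r1 : (delL G d).rot (G.base a) ~r a :: l := by
          rw [hrotL]
          refine (GenAux.rot_filter _ hl).trans ?_
          have hn : (a :: G.opp d :: l).Nodup := hl.nodup_iff.1 (G.nodup _)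
          have hl2 : ∀ h ∈ l, h ∈ G.darts ∧ G.base h = G.base a := by
            intro h hh
            exact (G.mem_rot _ _).1 (hl.mem_iff.2 (by simp [hh]))
          have e2 : (a :: G.opp d :: l).filter
              (fun h => decide (d ∈ G.darts → h ≠ d ∧ h ≠ G.opp d)) = a :: l := by
            rw [List.filter_cons_of_pos (by simp [had, had']),
              List.filter_cons_of_neg (by simp [hd])]
            congr 1
            rw [List.filter_eq_self]
            intro h hh
            have h3 : h ≠ G.opp d := by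
              rintro rfl
              simp at hn
              exact hn.2.1 hh
            have h4 : h ≠ d := by
              rintro rfl
              exact hvw (hl2 h hh).2.symm
            simp [h3, h4]
          rw [e2]
        refine (rot_flatMap _ r1).trans ?_
        refine List.IsRotated.trans ?_ (hl.map (ph G d a)).symm
        have hn : (a :: G.opp d :: l).Nodup := hl.nodup_iff.1 (G.nodup _)
        have hl2 : ∀ h ∈ l, h ∈ G.darts ∧ G.base h = G.base a := by
          intro h hh
          exact (G.mem_rot _ _).1 (hl.mem_iff.2 (by simp [hh]))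
        have e3 : ∀ l' : List H, (∀ h ∈ l', h ≠ a ∧ h ≠ d ∧ h ≠ G.opp d) →
            l'.flatMap (fun h => if h = a then [((Sum.inl h : H ⊕ Bool), (1 : Fin 3)), (.inl h, 2)]
              else [(.inl h, 1)]) = l'.map (ph G d a) := by
          intro l'
          induction l' with
          | nil => intro _; rfl
          | cons x l' ih =>
            intro hx
            obtain ⟨x1, x2, x3⟩ := hx x (by simp)
            rw [List.flatMap_cons, List.map_cons, ih (fun y hy => hx y (by simp [hy]))]
            simp [x1, x2, x3, ph]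
        have e4 : (a :: l).flatMap (fun h => if h = a then
            [((Sum.inl h : H ⊕ Bool), (1 : Fin 3)), (.inl h, 2)] else [(.inl h, 1)]) =
            (a :: G.opp d :: l).map (ph G d a) := by
          rw [List.flatMap_cons, e3 l ?_]
          · simp [ph, had, had', G.opp_ne d hd]
          · intro h hh
            refine ⟨?_, ?_, ?_⟩
            · rintro rfl
              simp at hn
              exact hn.1.2 hh
            · rintro rfl
              exact hvw (hl2 h hh).2.symm
            · rintro rfl
              simp at hn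
              exact hn.2.1 hh
        rw [e4]
      · have hself : (delL G d).rot u = G.rot u := by
          rw [hrotL, List.filter_eq_self]
          intro h hh
          obtain ⟨h3, h4⟩ := (G.mem_rot u h).1 hh
          have h5 : h ≠ d := by
            rintro rfl
            exact h1 h4.symm
          have h6 : h ≠ G.opp d := by
            rintro rfl
            exact h2 (by rw [← h4, hbase])
          simp [h5, h6]
        rw [hself]
        have e5 : ∀ l' : List H, (∀ h ∈ l', h ≠ a ∧ h ≠ d ∧ h ≠ G.opp d) →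
            l'.flatMap (fun h => if h = a then [((Sum.inl h : H ⊕ Bool), (1 : Fin 3)), (.inl h, 2)]
              else [(.inl h, 1)]) = l'.map (ph G d a) := by
          intro l'
          induction l' with
          | nil => intro _; rfl
          | cons x l' ih =>
            intro hx
            obtain ⟨x1, x2, x3⟩ := hx x (by simp)
            rw [List.flatMap_cons, List.map_cons, ih (fun y hy => hx y (by simp [hy]))]
            simp [x1, x2, x3, ph]
        rw [e5]
        intro h hh
        obtain ⟨h3, h4⟩ := (G.mem_rot u h).1 hh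
        refine ⟨?_, ?_, ?_⟩
        · rintro rfl
          exact h2 h4.symm
        · rintro rfl
          exact h1 h4.symm
        · rintro rfl
          exact h2 (by rw [← h4, hbase])
  · -- nc
    intro x hx
    rcases x with _ | u
    · show NC mt ((([Sum.inr false, Sum.inr true] : List (H ⊕ Bool)).flatMap
        (fun h => [(h, (0 : Fin 3)), (h, 1), (h, 2)])).filter _)
      have k0 : ∀ b i, (GenAux.Kr G (ph G d a) ((Sum.inr b : H ⊕ Bool), (i : Fin 3)) ∨
          ∃ q, mt ((Sum.inr b : H ⊕ Bool), (i : Fin 3)) q) ↔ ((b = false ∧ i = 0) ∨ i = 1) := by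
        intro b i
        rw [kr_iff G hd]
        constructor
        · rintro (h1 | ⟨q, h1⟩)
          · left
            simpa using h1
          · right
            rcases h1 with ⟨h1, -⟩ | ⟨h1, -⟩ <;> exact (Prod.ext_iff.1 h1).2
        · rintro (⟨rfl, rfl⟩ | rfl)
          · left; left; rfl
          · right
            cases b
            · exact ⟨_, Or.inl ⟨rfl, rfl⟩⟩
            · exact ⟨_, Or.inr ⟨rfl, rfl⟩⟩
      have e : (([Sum.inr false, Sum.inr true] : List (H ⊕ Bool)).flatMap
          (fun h => [(h, (0 : Fin 3)), (h, 1), (h, 2)])).filter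
          (fun p => decide (GenAux.Kr G (ph G d a) p ∨ ∃ q, mt p q)) =
          [(Sum.inr false, 0), (Sum.inr false, 1), (Sum.inr true, 1)] := by
        show ([((Sum.inr false : H ⊕ Bool), (0 : Fin 3)), (Sum.inr false, 1), (Sum.inr false, 2),
          (Sum.inr true, 0), (Sum.inr true, 1), (Sum.inr true, 2)]).filter _ = _
        rw [List.filter_cons_of_pos (by rw [decide_eq_true_eq, k0]; exact Or.inl ⟨rfl, rfl⟩),
          List.filter_cons_of_pos (by rw [decide_eq_true_eq, k0]; exact Or.inr rfl),
          List.filter_cons_of_neg (by rw [decide_eq_true_eq, k0]; simp),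
          List.filter_cons_of_neg (by rw [decide_eq_true_eq, k0]; simp),
          List.filter_cons_of_pos (by rw [decide_eq_true_eq, k0]; exact Or.inr rfl),
          List.filter_cons_of_neg (by rw [decide_eq_true_eq, k0]; simp), List.filter_nil]
      rw [e]
      refine NC.pair _ (Sum.inr false, 1) (Sum.inr true, 1) [(Sum.inr false, 0)] ?_
        (Or.inl ⟨rfl, rfl⟩) ?_
      · exact ⟨1, by simp⟩
      · refine NC.done _ ?_
        intro p hp q hq
        simp only [List.mem_singleton] at hp
        subst hp
        rcases hq with ⟨h1, -⟩ | ⟨h1, -⟩ <;> simp at h1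
    · refine NC.done _ ?_
      intro p hp q hq
      have hp' := List.mem_of_mem_filter hp
      have h2 := (((thk (subE (delL G d) a ha)).mem_rot (some u) p).1 hp').2
      rcases hq with ⟨rfl, -⟩ | ⟨rfl, -⟩
      · simp [thk, subE] at h2
      · simp [thk, subE] at h2
  · -- run_in
    intro h hh
    have hopp : ∀ x, (thk (subE (delL G d) a ha)).opp x =
        ((subE (delL G d) a ha).opp x.1, x.2.rev) := fun x => rfl
    by_cases h1 : h = d
    · subst h1
      refine ⟨_, Run.refl _, ?_⟩
      rw [hopp]
      simp [ph, subE, G.opp_ne h hh]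
    by_cases h2 : h = G.opp d
    · subst h2
      refine ⟨_, Run.refl _, ?_⟩
      rw [hopp, G.opp_opp d hd]
      simp [ph, subE, G.opp_ne d hd]
    have h3 : G.opp h ≠ d := by
      intro h3
      exact h2 (by rw [← h3, G.opp_opp h hh])
    have h4 : G.opp h ≠ G.opp d := by
      intro h4
      exact h1 (by rw [← G.opp_opp h hh, h4, G.opp_opp d hd])
    have hoppL : ∀ x, (delL G d).opp x = G.opp x := fun x => rfl
    by_cases h5 : h = a
    · subst h5
      refine ⟨(Sum.inr true, 1), Run.step _ (Sum.inr true, 1) _ ?_ (Run.refl _), ?_⟩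
      · left
        refine ⟨?_, rfl⟩
        rw [hopp]
        simp [ph, subE, h1, h2]
      · rw [hopp]
        simp [ph, subE, hoppL, h3, h4]
    by_cases h6 : h = G.opp a
    · subst h6
      refine ⟨(Sum.inr false, 1), Run.step _ (Sum.inr false, 1) _ ?_ (Run.refl _), ?_⟩
      · right
        refine ⟨?_, rfl⟩
        rw [hopp]
        simp [ph, subE, h1, h2, hoppL, G.opp_ne a haG]
      · rw [hopp, G.opp_opp a haG]
        simp [ph, subE, hoppL, had, had']
    · refine ⟨_, Run.refl _, ?_⟩
      rw [hopp]
      simp [ph, subE, h1, h2, h3, h4, h5, h6, hoppL]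

end RotWqo.Pl
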