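import Pool.Agent.Lib.MP_cb4a0f_co.Pl.Stmts

/-!
# MP_cb4a0f_co, Pl: row A4, subdivision is monotone
-/

open Classical

namespace RotWqo.Pl

namespace A4x96

variable {V H V' H' : Type*}

/-- vertices -/
def fv (f : V → V') : Option V → Option V'
  | none => none
  | some v => some (f v)

/-- half-edges -/
def fd (φ : H → H') : H ⊕ Bool → H' ⊕ Bool
  | .inl h => .inl (φ h)
  | .inr c => .inr c

/-- transitions -/
def mt (M : H' → H' → Prop) (x y : H' ⊕ Bool) : Prop :=
  ∃ p q, M p q ∧ x = .inl p ∧ y = .inl q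

theorem mt_inl {M : H' → H' → Prop} {p q : H'} : mt M (.inl p) (.inl q) ↔ M p q := by
  constructor
  · rintro ⟨p', q', h, h1, h2⟩
    rw [Sum.inl.injEq] at h1 h2
    rw [h1, h2]
    exact h
  · intro h
    exact ⟨p, q, h, rfl, rfl⟩

theorem nc_map {M : H' → H' → Prop} {l : List H'} (h : NC M l) : NC (mt M) (l.map .inl) := by
  induction h with
  | done l h =>
    refine NC.done _ fun a ha y hM => ?_
    obtain ⟨p, q, h1, rfl, rfl⟩ := hM
    rw [List.mem_map] at ha
    obtain ⟨p', hp, h2⟩ := ha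
    rw [Sum.inl.injEq] at h2
    subst h2
    exact h _ hp q h1
  | pair l a b l' h1 h2 _ ih =>
    refine NC.pair _ (.inl a) (.inl b) (l'.map .inl) ?_ (mt_inl.2 h2) ih
    simpa using h1.map (Sum.inl : H' → H' ⊕ Bool)

theorem mem_sub {G : RotGraph V H} {a : H} {ha : a ∈ G.darts} {d : H ⊕ Bool} :
    d ∈ (subE G a ha).darts ↔ (∃ h ∈ G.darts, d = .inl h) ∨ ∃ c, d = .inr c := by
  rcases d with h | c
  · simp [subE]
  · simp [subE]

/-- the transfer of a run that starts in another half-edge -/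
theorem run_lift {K : RotGraph V' H'} {M : H' → H' → Prop} {x : H'} {hx : x ∈ K.darts}
    (hs : ∀ a b, M a b → M b a) (hm : ∀ a b, M a b → a ∈ K.darts) (hk : ∀ b, ¬ M x b) {p y : H'}
    (h : Run K.opp M p y) (hpd : p ∈ K.darts) (hp : p ≠ x) :
    Run (subE K x hx).opp (mt M) (.inl p) (.inl y) ∧ y ≠ x ∧ y ∈ K.darts := by
  induction h with
  | refl x => exact ⟨Run.refl _, hp, hpd⟩
  | step p z y h1 _ ih =>
    have hz : z ∈ K.darts := hm _ _ (hs _ _ h1)
    have hzx : z ≠ x := by
      rintro rfl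
      exact hk _ (hs _ _ h1)
    obtain ⟨h2, h3, h4⟩ := ih hz hzx
    refine ⟨Run.step _ (.inl z) _ ?_ h2, h3, h4⟩
    have hpo : p ≠ K.opp x := by
      rintro rfl
      rw [K.opp_opp x hx] at h1
      exact hk _ h1
    have e : (subE K x hx).opp (.inl p) = .inl (K.opp p) := by
      show (if p = x then _ else if p = K.opp x then _ else _) = _
      rw [if_neg hp, if_neg hpo]
    rw [e]
    exact mt_inl.2 h1

end A4x96

open A4x96 in
/-- (A4) -/
theorem stSub_96 : StSub := by
  intro V V' H H' G K a ha hGK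
  obtain ⟨β, f, φ, M, h0⟩ := hGK
  have h := GenAux.emb_of_data h0
  have hx : φ a ∈ K.darts := h.φ_mem a ha
  refine ⟨φ a, hx, LE.of_emb (f := fv f) (φ := fd φ) (M := mt M) ?_⟩
  have hk : ∀ b, ¬ M (φ a) b := fun b hb => h.M_ker _ _ hb ⟨a, ha, rfl⟩
  have hoa : G.opp a ∈ G.darts := G.opp_mem a ha
  have kr : ∀ p, GenAux.Kr (subE G a ha) (fd φ) (.inl p : H' ⊕ Bool) ↔ GenAux.Kr G φ p := by
    intro p
    constructor
    · rintro ⟨d, hd, h1⟩
      rcases mem_sub.1 hd with ⟨g, hg, rfl⟩ | ⟨c, rfl⟩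
      · exact ⟨g, hg, by simpa [fd] using h1⟩
      · simp [fd] at h1
    · rintro ⟨g, hg, rfl⟩
      exact ⟨.inl g, mem_sub.2 (Or.inl ⟨g, hg, rfl⟩), rfl⟩
  have krr : ∀ c, GenAux.Kr (subE G a ha) (fd φ) (.inr c : H' ⊕ Bool) := fun c =>
    ⟨.inr c, mem_sub.2 (Or.inr ⟨c, rfl⟩), rfl⟩
  have vs : ∀ v, some v ∈ (subE G a ha).verts ↔ v ∈ G.verts := by
    intro v
    simp [subE]
  have vs' : ∀ v, some v ∈ (subE K (φ a) hx).verts ↔ v ∈ K.verts := by
    intro v
    simp [subE]
  have oG : ∀ g, g ≠ a → g ≠ G.opp a → (subE G a ha).opp (.inl g) = .inl (G.opp g) := by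
    intro g h1 h2
    show (if g = a then _ else if g = G.opp a then _ else _) = _
    rw [if_neg h1, if_neg h2]
  have oK : ∀ g, g ≠ φ a → g ≠ K.opp (φ a) →
      (subE K (φ a) hx).opp (.inl g) = .inl (K.opp g) := by
    intro g h1 h2
    show (if g = φ a then _ else if g = K.opp (φ a) then _ else _) = _
    rw [if_neg h1, if_neg h2]
  have oKa : (subE K (φ a) hx).opp (.inl (φ a)) = .inr false := by
    show (if φ a = φ a then _ else _) = _
    rw [if_pos rfl]
  have oGa : (subE G a ha).opp (.inl a) = .inr false := by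
    show (if a = a then _ else _) = _
    rw [if_pos rfl]
  have oGo : (subE G a ha).opp (.inl (G.opp a)) = .inr true := by
    show (if G.opp a = a then _ else if G.opp a = G.opp a then _ else _) = _
    rw [if_neg (G.opp_ne a ha), if_pos rfl]
  have oKo : (subE K (φ a) hx).opp (.inl (K.opp (φ a))) = .inr true := by
    show (if K.opp (φ a) = φ a then _ else if K.opp (φ a) = K.opp (φ a) then _ else _) = _
    rw [if_neg (K.opp_ne _ hx), if_pos rfl]
  refine ⟨?_, fun _ _ => trivial, ?_, ?_, ?_, ?_, ?_, ?_, ?_, ?_, ?_, ?_, ?_, ?_⟩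
  · rintro (_ | v) hv
    · simp [subE, fv]
    · exact (vs' _).2 (h.f_mem v ((vs v).1 hv))
  · rintro (_ | v) hv (_ | w) hw e
    · rfl
    · simp [fv] at e
    · simp [fv] at e
    · have e' : f v = f w := by simpa [fv] using e
      rw [h.f_inj ((vs v).1 hv) ((vs w).1 hw) e']
  · rintro x y ⟨p, q, h1, rfl, rfl⟩
    exact mt_inl.2 (h.M_symm _ _ h1)
  · rintro x y z ⟨p, q, h1, rfl, rfl⟩ ⟨p', q', h1', h2, rfl⟩
    rw [Sum.inl.injEq] at h2
    subst h2
    rw [h.M_fun _ _ _ h1 h1']
  · rintro x y ⟨p, q, h1, rfl, rfl⟩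
    exact mem_sub.2 (Or.inl ⟨p, h.M_mem _ _ h1, rfl⟩)
  · rintro x y ⟨p, q, h1, rfl, rfl⟩
    show some (K.base q) = some (K.base p)
    rw [h.M_base _ _ h1]
  · rintro x y ⟨p, q, h1, rfl, rfl⟩ h2
    exact h.M_ker _ _ h1 ((kr p).1 h2)
  · intro d hd
    rcases mem_sub.1 hd with ⟨g, hg, rfl⟩ | ⟨c, rfl⟩
    · exact mem_sub.2 (Or.inl ⟨φ g, h.φ_mem g hg, rfl⟩)
    · exact mem_sub.2 (Or.inr ⟨c, rfl⟩)
  · intro d hd
    rcases mem_sub.1 hd with ⟨g, hg, rfl⟩ | ⟨c, rfl⟩
    · show some (K.base (φ g)) = some (f (G.base g))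
      rw [h.φ_base g hg]
    · rfl
  · intro d hd d' hd' e
    rcases mem_sub.1 hd with ⟨g, hg, rfl⟩ | ⟨c, rfl⟩ <;>
      rcases mem_sub.1 hd' with ⟨g', hg', rfl⟩ | ⟨c', rfl⟩
    · have e' : φ g = φ g' := by simpa [fd] using e
      rw [h.φ_inj hg hg' e']
    · simp [fd] at e
    · simp [fd] at e
    · simpa [fd] using e
  · rintro (_ | v) hv
    · have e1 : (subE K (φ a) hx).rot (fv f none) = [.inr false, .inr true] := rfl
      have e2 : (subE G a ha).rot none = [.inr false, .inr true] := rfl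
      rw [e1, e2, List.filter_eq_self.2]
      · rfl
      · intro y hy
        rw [decide_eq_true_eq]
        simp only [List.mem_cons, List.not_mem_nil, or_false] at hy
        rcases hy with rfl | rfl
        · exact krr _
        · exact krr _
    · have e1 : (subE K (φ a) hx).rot (fv f (some v)) = (K.rot (f v)).map .inl := rfl
      have e2 : (subE G a ha).rot (some v) = (G.rot v).map .inl := rfl
      rw [e1, e2, List.filter_map]
      have e3 : ((fun y => decide (GenAux.Kr (subE G a ha) (fd φ) y)) ∘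
          (Sum.inl : H' → H' ⊕ Bool)) = fun p => decide (GenAux.Kr G φ p) := by
        funext p
        simp only [Function.comp]
        exact decide_eq_decide.2 (kr p)
      rw [e3]
      have e4 := (h.rot_eq v ((vs v).1 hv)).map (Sum.inl : H' → H' ⊕ Bool)
      simpa [Function.comp_def, fd] using e4
  · rintro (_ | v) hv
    · refine NC.done _ fun y hy z hM => ?_
      obtain ⟨p, q, -, rfl, -⟩ := hM
      have e1 : (subE K (φ a) hx).rot none = [.inr false, .inr true] := rfl
      rw [e1, List.mem_filter] at hy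
      simp at hy
    · have e1 : (subE K (φ a) hx).rot (some v) = (K.rot v).map .inl := rfl
      rw [e1, List.filter_map]
      have e3 : ((fun y => decide (GenAux.Kr (subE G a ha) (fd φ) y ∨ ∃ b, mt M y b)) ∘
          (Sum.inl : H' → H' ⊕ Bool)) = fun p => decide (GenAux.Kr G φ p ∨ ∃ b, M p b) := by
        funext p
        simp only [Function.comp]
        refine decide_eq_decide.2 (or_congr (kr p) ⟨?_, ?_⟩)
        · rintro ⟨z, p', q, h1, h2, rfl⟩
          rw [Sum.inl.injEq] at h2
          subst h2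
          exact ⟨q, h1⟩
        · rintro ⟨q, h1⟩
          exact ⟨.inl q, mt_inl.2 h1⟩
      rw [e3]
      exact nc_map (h.nc v ((vs' v).1 hv))
  · intro d hd
    rcases mem_sub.1 hd with ⟨g, hg, rfl⟩ | ⟨c, rfl⟩
    · by_cases h1 : g = a
      · subst h1
        exact ⟨_, Run.refl _, by rw [oGa]; exact oKa⟩
      · obtain ⟨y, h2, h3⟩ := h.run_in g hg
        have hne : φ g ≠ φ a := fun e => h1 (h.φ_inj hg ha e)
        obtain ⟨h4, h5, h6⟩ := run_lift (hx := hx) h.M_symm h.M_mem hk h2 (h.φ_mem g hg) hne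
        refine ⟨.inl y, h4, ?_⟩
        by_cases h7 : g = G.opp a
        · subst h7
          rw [oGo]
          have h8 : y = K.opp (φ a) := by
            rw [← K.opp_opp y h6, h3, G.opp_opp a ha]
          rw [h8, oKo]
          rfl
        · rw [oG g h1 h7, oK y h5]
          · rw [h3]
            rfl
          · rintro rfl
            rw [K.opp_opp _ hx] at h3
            have h9 := h.φ_inj ha (G.opp_mem g hg) h3
            exact h7 (by rw [h9, G.opp_opp g hg])
    · cases c
      · exact ⟨_, Run.refl _, rfl⟩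
      · obtain ⟨y, h2, h3⟩ := h.run_in a ha
        have e1 : (subE G a ha).opp (.inr true) = .inl (G.opp a) := rfl
        rw [e1]
        cases h2 with
        | refl => exact ⟨_, Run.refl _, by
            show (Sum.inl (K.opp (φ a)) : H' ⊕ Bool) = _
            rw [h3]
            rfl⟩
        | step _ z _ h4 h5 =>
          have hz : z ∈ K.darts := h.M_mem _ _ (h.M_symm _ _ h4)
          have hzx : z ≠ φ a := by
            rintro rfl
            exact hk _ (h.M_symm _ _ h4)
          obtain ⟨h6, h7, h8⟩ := run_lift (hx := hx) h.M_symm h.M_mem hk h5 hz hzx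
          refine ⟨.inl y, Run.step _ (.inl z) _ ?_ h6, ?_⟩
          · show mt M (.inl (K.opp (φ a))) (.inl z)
            exact mt_inl.2 h4
          rw [oK y h7]
          · rw [h3]
            rfl
          · rintro rfl
            rw [K.opp_opp _ hx] at h3
            have h9 := h.φ_inj ha (G.opp_mem a ha) h3
            exact G.opp_ne a ha h9.symm

end RotWqo.Pl
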