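import Pool.Agent.Lib.MP_cb4a0f_co.Pl.Stmts

/-!
# MP_cb4a0f_co, Pl: row A5, a subdivided thick path
-/

open Classical

namespace RotWqo.Pl

namespace A5x96

variable {H : Type*}

theorem nc_out {M : H → H → Prop} : ∀ (k : ℕ) (a b : ℕ → H) (l : List H),
    (∀ j < k, M (b j) (a j)) → NC M l →
    NC M ((List.range k).map a ++ (l ++ (List.range k).reverse.map b)) := by
  intro k
  induction k with
  | zero => intro a b l _ h; simpa using h
  | succ k ih =>
    intro a b l hM h
    have h1 := ih (fun j => a (j + 1)) (fun j => b (j + 1)) l (fun j hj => hM (j + 1) (by omega)) h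
    refine NC.pair _ (b 0) (a 0) _ ?_ (hM 0 (by omega)) h1
    have e1 : (List.range (k + 1)).map a = a 0 :: (List.range k).map (fun j => a (j + 1)) := by
      rw [List.range_succ_eq_map]
      simp [Function.comp_def]
    have e2 : (List.range (k + 1)).reverse.map b =
        (List.range k).reverse.map (fun j => b (j + 1)) ++ [b 0] := by
      rw [List.range_succ_eq_map]
      simp [Function.comp_def]
    rw [e1, e2]
    refine List.IsRotated.symm ⟨1, ?_⟩
    simp

theorem nc_in {M : H → H → Prop} : ∀ (k : ℕ) (a b : ℕ → H) (l : List H),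
    (∀ j < k, M (a j) (b j)) → NC M l →
    NC M ((List.range k).reverse.map b ++ (l ++ (List.range k).map a)) := by
  intro k a b l hM h
  induction k with
  | zero => simpa using h
  | succ k ih =>
    have h1 := ih (fun j hj => hM j (by omega))
    refine NC.pair _ (a k) (b k) _ ?_ (hM k (by omega)) h1
    rw [List.range_succ]
    refine List.IsRotated.symm ⟨1, ?_⟩
    simp

theorem two_rot {l : List H} {x y : H} (hn : l.Nodup) (hm : ∀ a, a ∈ l ↔ a = x ∨ a = y)
    (hxy : x ≠ y) : l ~r [x, y] := by
  have hp : l.Perm [x, y] := by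
    rw [List.perm_ext_iff_of_nodup hn (by simp [hxy])]
    intro a
    rw [hm]
    simp
  rcases l with _ | ⟨a, _ | ⟨b, _ | ⟨c, l⟩⟩⟩
  · simpa using hp.length_eq
  · simpa using hp.length_eq
  · have ha := (hm a).1 (by simp)
    have hb := (hm b).1 (by simp)
    have hab : a ≠ b := by
      intro h
      rw [h] at hn
      simp at hn
    rcases ha with rfl | rfl <;> rcases hb with rfl | rfl
    · exact absurd rfl hab
    · exact List.IsRotated.refl _
    · exact ⟨1, by simp⟩
    · exact absurd rfl hab
  · have := hp.length_eq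
    simp at this

theorem range_split {N j : ℕ} (hj : j < N) :
    List.range N = List.range j ++ j :: (List.range (N - 1 - j)).map (fun t => j + 1 + t) := by
  have h1 : N = j + (1 + (N - 1 - j)) := by omega
  conv_lhs => rw [h1, List.range_add, List.range_add]
  simp [Function.comp_def, add_assoc]

/-- position of a vertex -/
def fv (i : ℕ) : Option ℕ → ℕ
  | none => i + 1
  | some v => if v ≤ i then v else v + 1

/-- half-edges -/
def fd (i j : ℕ) (b : Bool) : (ℕ × ℕ × Bool) ⊕ Bool → ℕ × ℕ × Bool
  | .inl d => if d.1 < i ∨ (d.1 = i ∧ d.2.2 = false) then d else (d.1 + 1, d.2)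
  | .inr c => if c = b then (i, j, true) else (i + 1, j, false)

/-- transitions -/
def mt (N i j : ℕ) (x y : ℕ × ℕ × Bool) : Prop :=
  ∃ t < N, t ≠ j ∧ ((x = (i, t, true) ∧ y = (i + 1, t, false)) ∨
    (x = (i + 1, t, false) ∧ y = (i, t, true)))

theorem mem_TP {n N : ℕ} {d : ℕ × ℕ × Bool} :
    d ∈ (TP n N).darts ↔ d.1 < n - 1 ∧ d.2.1 < N := by
  obtain ⟨i, j, b⟩ := d
  simp [TP]

theorem mem_sub {V H : Type*} {G : RotGraph V H} {a : H} {ha : a ∈ G.darts} {d : H ⊕ Bool} :
    d ∈ (subE G a ha).darts ↔ (∃ h ∈ G.darts, d = .inl h) ∨ ∃ c, d = .inr c := by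
  rcases d with h | c
  · simp [subE]
  · simp [subE]

theorem mt_base {N i j n : ℕ} {x y : ℕ × ℕ × Bool} (h : mt N i j x y) :
    (TP (n + 1) N).base x = i + 1 ∧ (TP (n + 1) N).base y = i + 1 := by
  obtain ⟨t, -, -, ⟨rfl, rfl⟩ | ⟨rfl, rfl⟩⟩ := h
  · exact ⟨rfl, rfl⟩
  · exact ⟨rfl, rfl⟩

theorem fd_inl_base {n N i j : ℕ} {b : Bool} (d : ℕ × ℕ × Bool) :
    (TP (n + 1) N).base (fd i j b (.inl d)) ≠ i + 1 := by
  obtain ⟨i', j', b'⟩ := d
  simp only [fd, TP]
  cases b' <;> split_ifs <;> simp_all <;> omega

theorem fd_inr_base {n N i j : ℕ} {b : Bool} (c : Bool) :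
    (TP (n + 1) N).base (fd i j b (.inr c)) = i + 1 := by
  simp only [fd, TP]
  by_cases h : c = b
  · simp [h]
  · simp [h]

theorem fd_base {n N i j : ℕ} {b : Bool} {ha} (d : (ℕ × ℕ × Bool) ⊕ Bool) :
    (TP (n + 1) N).base (fd i j b d) = fv i ((subE (TP n N) (i, j, b) ha).base d) := by
  rcases d with ⟨i', j', b'⟩ | c
  · simp only [fd, TP, fv, subE, Sum.elim_inl]
    cases b' <;> split_ifs <;> simp_all <;> omega
  · rw [fd_inr_base]
    rfl

theorem fd_inj {n N i j : ℕ} {b : Bool} {x y : (ℕ × ℕ × Bool) ⊕ Bool}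
    (h : fd i j b x = fd i j b y) : x = y := by
  rcases x with ⟨i1, j1, b1⟩ | c1 <;> rcases y with ⟨i2, j2, b2⟩ | c2
  · simp only [fd] at h
    cases b1 <;> cases b2 <;> split_ifs at h <;> simp_all <;> omega
  · exact absurd (by rw [h, fd_inr_base]) (fd_inl_base (n := n) (N := N) (i := i) (j := j)
      (b := b) (i1, j1, b1))
  · exact absurd (by rw [← h, fd_inr_base]) (fd_inl_base (n := n) (N := N) (i := i) (j := j)
      (b := b) (i2, j2, b2))
  · simp only [fd] at h
    cases c1 <;> cases c2 <;> cases b <;> simp_all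

theorem rot_some {n N i j v : ℕ} {b : Bool} (hi : i < n - 1) (hv : v < n) :
    (TP (n + 1) N).rot (fv i (some v)) =
      (((TP n N).rot v).map .inl).map (fd i j b) := by
  simp only [TP, fv, List.map_append, List.map_map]
  by_cases h : v ≤ i
  · rw [if_pos h]
    congr 1
    · by_cases h0 : 0 < v
      · rw [if_pos ⟨h0, by omega⟩, if_pos ⟨h0, by omega⟩, List.map_map]
        refine List.map_congr_left fun t _ => ?_
        simp only [Function.comp, fd]
        rw [if_pos (Or.inl (by omega))]
      · rw [if_neg (by omega), if_neg (by omega)]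
        rfl
    · rw [if_pos (by omega), if_pos (by omega), List.map_map]
      refine List.map_congr_left fun t _ => ?_
      simp only [Function.comp, fd]
      rw [if_pos]
      rcases Nat.lt_or_eq_of_le h with h5 | h5
      · exact Or.inl h5
      · exact Or.inr ⟨h5, by trivial⟩
  · rw [if_neg h]
    congr 1
    · rw [if_pos (by omega), if_pos (by omega), List.map_map]
      refine List.map_congr_left fun t _ => ?_
      simp only [Function.comp, fd]
      rw [if_neg (by simp; omega)]
      simp only [Prod.mk.injEq, and_true]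
      omega
    · by_cases h1 : v + 1 < n
      · rw [if_pos (by omega), if_pos h1, List.map_map]
        refine List.map_congr_left fun t _ => ?_
        simp only [Function.comp, fd]
        rw [if_neg (by simp; omega)]
      · rw [if_neg (by omega), if_neg h1]
        rfl

theorem emb (n N i j : ℕ) (b : Bool) (hx : (i, j, b) ∈ (TP n N).darts) :
    GenAux.Emb (fun _ _ => True) (subE (TP n N) (i, j, b) hx) (TP (n + 1) N) (fv i) (fd i j b)
      (mt N i j) := by
  have h0 := mem_TP.1 hx
  obtain ⟨hi, hj⟩ := h0
  simp only at hi hj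
  refine ⟨?_, fun _ _ => trivial, ?_, ?_, ?_, ?_, ?_, ?_, ?_, fun h _ => fd_base h,
    fun x _ y _ h => fd_inj (n := n) (N := N) h, ?_, ?_, ?_⟩
  · intro v hv
    rcases v with _ | v
    · simp only [fv, TP, Finset.mem_range]
      omega
    · simp only [subE, TP, Finset.mem_insert, Finset.mem_image, Finset.mem_range] at hv
      obtain ⟨w, hw, h1⟩ : ∃ a < n, some a = some v := by simpa using hv
      obtain rfl : w = v := by simpa using h1
      simp only [fv, TP, Finset.mem_range]
      split_ifs <;> omega
  · rintro (_ | v) - (_ | w) - h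
    · rfl
    · simp only [fv] at h
      split_ifs at h <;> omega
    · simp only [fv] at h
      split_ifs at h <;> omega
    · simp only [fv] at h
      congr 1
      split_ifs at h <;> omega
  · rintro x y ⟨t, h1, h2, ⟨rfl, rfl⟩ | ⟨rfl, rfl⟩⟩
    · exact ⟨t, h1, h2, Or.inr ⟨rfl, rfl⟩⟩
    · exact ⟨t, h1, h2, Or.inl ⟨rfl, rfl⟩⟩
  · rintro x y z ⟨t, h1, h2, ⟨rfl, rfl⟩ | ⟨rfl, rfl⟩⟩ ⟨t', h1', h2', ⟨h3, h4⟩ | ⟨h3, h4⟩⟩ <;>
      simp_all
  · rintro x y ⟨t, h1, h2, ⟨rfl, rfl⟩ | ⟨rfl, rfl⟩⟩
    · rw [mem_TP]
      exact ⟨by simp only; omega, h1⟩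
    · rw [mem_TP]
      exact ⟨by simp only; omega, h1⟩
  · intro x y h
    obtain ⟨h1, h2⟩ := mt_base (n := n) h
    rw [h1, h2]
  · rintro x y h ⟨d, hd, rfl⟩
    rcases d with d | c
    · exact fd_inl_base (n := n) (N := N) d (mt_base h).1
    · obtain ⟨t, -, h2, ⟨h3, -⟩ | ⟨h3, -⟩⟩ := h
      · simp only [fd] at h3
        split_ifs at h3 <;> simp_all
      · simp only [fd] at h3
        split_ifs at h3 <;> simp_all
  · intro d hd
    rcases mem_sub.1 hd with ⟨⟨i', j', b'⟩, h1, rfl⟩ | ⟨c, rfl⟩
    · rw [mem_TP] at h1 ⊢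
      simp only [fd]
      simp only at h1
      split_ifs
      · exact ⟨by simp only; omega, h1.2⟩
      · exact ⟨by simp only; omega, h1.2⟩
    · rw [mem_TP]
      simp only [fd]
      split_ifs
      · exact ⟨by simp only; omega, hj⟩
      · exact ⟨by simp only; omega, hj⟩
  · rintro (_ | v) hv
    · have hr : (subE (TP n N) (i, j, b) hx).rot none = [.inr false, .inr true] := rfl
      rw [hr]
      refine two_rot (((TP (n + 1) N).nodup _).filter _) ?_
        (fun h => by simpa using fd_inj (n := n) (N := N) h)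
      intro a
      rw [List.mem_filter, (TP (n + 1) N).mem_rot]
      simp only [decide_eq_true_eq]
      constructor
      · rintro ⟨⟨h1, h2⟩, d, hd, rfl⟩
        rcases d with d | c
        · exact absurd h2 (fd_inl_base (n := n) (N := N) d)
        · cases c
          · exact Or.inl rfl
          · exact Or.inr rfl
      · have key : ∀ c : Bool, (fd i j b (.inr c) ∈ (TP (n + 1) N).darts ∧
            (TP (n + 1) N).base (fd i j b (.inr c)) = fv i none) ∧
            GenAux.Kr (subE (TP n N) (i, j, b) hx) (fd i j b) (fd i j b (.inr c)) := by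
          intro c
          refine ⟨⟨?_, fd_inr_base c⟩, .inr c, mem_sub.2 (Or.inr ⟨c, rfl⟩), rfl⟩
          rw [mem_TP]
          simp only [fd]
          split_ifs
          · exact ⟨by simp only; omega, hj⟩
          · exact ⟨by simp only; omega, hj⟩
        rintro (rfl | rfl)
        · exact key false
        · exact key true
    · have hv' : v < n := by simpa [subE, TP] using hv
      have hr : (subE (TP n N) (i, j, b) hx).rot (some v) = ((TP n N).rot v).map .inl := rfl
      rw [hr, rot_some (j := j) (b := b) hi hv', List.filter_eq_self.2]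
      intro a ha
      rw [List.mem_map] at ha
      obtain ⟨d, hd, rfl⟩ := ha
      rw [List.mem_map] at hd
      obtain ⟨d, hd, rfl⟩ := hd
      rw [decide_eq_true_eq]
      exact ⟨.inl d, mem_sub.2 (Or.inl ⟨d, (((TP n N).mem_rot v d).1 hd).1, rfl⟩), rfl⟩
  · intro x hx'
    by_cases h : x = i + 1
    · subst h
      have hr : (TP (n + 1) N).rot (i + 1) = (List.range N).map (fun t => (i, t, true)) ++
          (List.range N).reverse.map (fun t => (i + 1, t, false)) := by
        simp only [TP]
        rw [if_pos (by omega), if_pos (by omega)]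
        rfl
      rw [List.filter_eq_self.2]
      · rw [hr, range_split hj]
        have h1 := nc_in (M := mt N i j) (N - 1 - j) (fun t => (i, j + 1 + t, true))
          (fun t => (i + 1, j + 1 + t, false)) [(i + 1, j, false), (i, j, true)] (by
            intro t ht
            exact ⟨j + 1 + t, by omega, by omega, Or.inl ⟨rfl, rfl⟩⟩) (by
            refine NC.done _ fun a ha y hM => ?_
            obtain ⟨t, -, h2, ⟨h3, -⟩ | ⟨h3, -⟩⟩ := hM
            · subst h3
              simp at ha
              omega
            · subst h3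
              simp at ha
              omega)
        have h2 : NC (mt N i j) ([(i, j, true)] ++ (List.range (N - 1 - j)).map
            (fun t => (i, j + 1 + t, true)) ++ ((List.range (N - 1 - j)).reverse.map
            (fun t => (i + 1, j + 1 + t, false)) ++ [(i + 1, j, false)])) := by
          refine GenAux.nc_rot h1 ?_
          have e1 : ∀ (A B : List (ℕ × ℕ × Bool)) (x y : ℕ × ℕ × Bool),
              ([y] ++ A ++ (B ++ [x])) ~r (B ++ ([x, y] ++ A)) := by
            intro A B x y
            have e2 : B ++ ([x, y] ++ A) = (B ++ [x]) ++ ([y] ++ A) := by simp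
            rw [e2]
            exact List.isRotated_append
          exact e1 _ _ _ _
        have h3 := nc_out (M := mt N i j) j (fun t => (i, t, true)) (fun t => (i + 1, t, false))
          _ (by
            intro t ht
            exact ⟨t, by omega, by omega, Or.inr ⟨rfl, rfl⟩⟩) h2
        refine cast ?_ h3
        congr 1
        simp [Function.comp_def]
      · intro a ha
        rw [decide_eq_true_eq]
        rw [hr, List.mem_append, List.mem_map, List.mem_map] at ha
        rcases ha with ⟨t, ht, rfl⟩ | ⟨t, ht, rfl⟩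
        · rw [List.mem_range] at ht
          by_cases htj : t = j
          · subst htj
            left
            refine ⟨.inr b, mem_sub.2 (Or.inr ⟨b, rfl⟩), ?_⟩
            simp [fd]
          · right
            exact ⟨_, t, ht, htj, Or.inl ⟨rfl, rfl⟩⟩
        · rw [List.mem_reverse, List.mem_range] at ht
          by_cases htj : t = j
          · subst htj
            left
            refine ⟨.inr (!b), mem_sub.2 (Or.inr ⟨_, rfl⟩), ?_⟩
            simp [fd]
          · right
            exact ⟨_, t, ht, htj, Or.inr ⟨rfl, rfl⟩⟩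
    · refine NC.done _ fun a ha y hM => h ?_
      rw [List.mem_filter, (TP (n + 1) N).mem_rot] at ha
      rw [← ha.1.2, (mt_base (n := n) hM).1]
  · intro d hd
    rcases mem_sub.1 hd with ⟨⟨i', j', b'⟩, h1, rfl⟩ | ⟨c, rfl⟩
    · rw [mem_TP] at h1
      simp only at h1
      by_cases h2 : i' = i
      · subst h2
        by_cases h3 : j' = j
        · subst h3
          refine ⟨_, Run.refl _, ?_⟩
          simp only [subE, Sum.elim_inl, TP, fd]
          cases b <;> cases b' <;> simp
        · cases b'
          · refine ⟨(i' + 1, j', false), Run.step _ _ _ ?_ (Run.refl _), ?_⟩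
            · exact ⟨j', h1.2, h3, Or.inl ⟨by simp [TP, fd], rfl⟩⟩
            · simp only [subE, Sum.elim_inl, TP, fd]
              cases b <;> simp [h3]
          · refine ⟨(i', j', true), Run.step _ _ _ ?_ (Run.refl _), ?_⟩
            · exact ⟨j', h1.2, h3, Or.inr ⟨by simp [TP, fd], rfl⟩⟩
            · simp only [subE, Sum.elim_inl, TP, fd]
              cases b <;> simp [h3]
      · refine ⟨_, Run.refl _, ?_⟩
        simp only [subE, Sum.elim_inl, TP, fd]
        cases b <;> cases b' <;> by_cases h4 : i' < i <;> simp [h2, h4]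
    · refine ⟨_, Run.refl _, ?_⟩
      simp only [subE, Sum.elim_inr, TP, fd]
      cases b <;> cases c <;> simp

end A5x96

/-- (A5) -/
theorem stSubTP_96 : StSubTP := by
  rintro n N ⟨i, j, b⟩ hx
  exact LE.of_emb (A5x96.emb n N i j b hx)

end RotWqo.Pl
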