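import Pool.Agent.Lib.MP_cb4a0f_co.Pl.Stmts

/-! # MP_cb4a0f_co: planar rotated graphs, row A6 (a thickened thick path) -/

open Classical

namespace RotWqo.Pl.A26

/-- the image of a half-edge of the thickened path -/
def ph (p : (ℕ × ℕ × Bool) × Fin 3) : ℕ × ℕ × Bool :=
  if p.1.2.2 then (p.1.1, 3 * p.1.2.1 + p.2.1, true) else (p.1.1, 3 * p.1.2.1 + 2 - p.2.1, false)

theorem range3 (N : ℕ) : List.range (3 * N) =
    (List.range N).flatMap (fun j => [3 * j, 3 * j + 1, 3 * j + 2]) := by
  induction N with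
  | zero => rfl
  | succ N ih =>
    rw [show 3 * (N + 1) = 3 * N + 1 + 1 + 1 by ring, List.range_succ, List.range_succ,
      List.range_succ, ih, List.range_succ, List.flatMap_append]
    simp

theorem range3_rev (N : ℕ) : (List.range (3 * N)).reverse =
    (List.range N).reverse.flatMap (fun j => [3 * j + 2, 3 * j + 1, 3 * j]) := by
  induction N with
  | zero => rfl
  | succ N ih =>
    rw [show 3 * (N + 1) = 3 * N + 1 + 1 + 1 by ring, List.range_succ, List.range_succ,
      List.range_succ, List.range_succ]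
    simp only [List.reverse_append, List.reverse_cons, List.reverse_nil, List.nil_append,
      List.flatMap_append, List.flatMap_cons, List.flatMap_nil, List.append_nil, ih]
    simp

theorem rot_map (n N v : ℕ) : ((thk (TP n N)).rot v).map ph = (TP n (3 * N)).rot v := by
  show (((if 0 < v ∧ v < n then (List.range N).map (fun j => (v - 1, j, true)) else []) ++
    (if v + 1 < n then (List.range N).reverse.map (fun j => (v, j, false)) else [])).flatMap
      (fun h => [((h, 0) : (ℕ × ℕ × Bool) × Fin 3), (h, 1), (h, 2)])).map ph =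
    (if 0 < v ∧ v < n then (List.range (3 * N)).map (fun j => (v - 1, j, true)) else []) ++
    (if v + 1 < n then (List.range (3 * N)).reverse.map (fun j => (v, j, false)) else [])
  rw [List.flatMap_append, List.map_append]
  congr 1
  · split_ifs
    · rw [range3]
      simp only [List.flatMap_map, List.map_flatMap]
      rfl
    · rfl
  · split_ifs
    · rw [range3_rev]
      simp only [List.flatMap_map, List.map_flatMap]
      rfl
    · rfl

theorem opp_ph (n N : ℕ) (p : (ℕ × ℕ × Bool) × Fin 3) :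
    (TP n (3 * N)).opp (ph p) = ph ((thk (TP n N)).opp p) := by
  obtain ⟨⟨i, j, b⟩, k⟩ := p
  cases b <;> fin_cases k <;> rfl

theorem ph_inj {p q : (ℕ × ℕ × Bool) × Fin 3} (h : ph p = ph q) : p = q := by
  obtain ⟨⟨i, j, b⟩, k⟩ := p
  obtain ⟨⟨i', j', b'⟩, k'⟩ := q
  have hk := k.2
  have hk' := k'.2
  cases b <;> cases b' <;> simp only [ph, Bool.false_eq_true, if_false, if_true, Prod.mk.injEq,
    and_true, and_false, reduceCtorEq] at h
  · obtain ⟨rfl, h⟩ := h
    have h1 : j = j' := by omega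
    have h2 : k.1 = k'.1 := by omega
    rw [h1, Fin.ext h2]
  · obtain ⟨rfl, h⟩ := h
    have h1 : j = j' := by omega
    have h2 : k.1 = k'.1 := by omega
    rw [h1, Fin.ext h2]

theorem mem_G {n N : ℕ} {p : (ℕ × ℕ × Bool) × Fin 3} :
    p ∈ (thk (TP n N)).darts ↔ p.1.1 < n - 1 ∧ p.1.2.1 < N := by
  show p ∈ (Finset.range (n - 1) ×ˢ Finset.range N ×ˢ Finset.univ) ×ˢ Finset.univ ↔ _
  simp

theorem mem_K {n N : ℕ} {p : ℕ × ℕ × Bool} :
    p ∈ (TP n N).darts ↔ p.1 < n - 1 ∧ p.2.1 < N := by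
  show p ∈ Finset.range (n - 1) ×ˢ Finset.range N ×ˢ Finset.univ ↔ _
  simp

theorem ph_mem {n N : ℕ} {p : (ℕ × ℕ × Bool) × Fin 3} (h : p ∈ (thk (TP n N)).darts) :
    ph p ∈ (TP n (3 * N)).darts := by
  rw [mem_G] at h
  obtain ⟨⟨i, j, b⟩, k⟩ := p
  have hk := k.2
  rw [mem_K]
  cases b <;> simp only [ph, Bool.false_eq_true, if_false, if_true] at h ⊢ <;> omega

theorem ph_surj {n N : ℕ} {a : ℕ × ℕ × Bool} (h : a ∈ (TP n (3 * N)).darts) :
    ∃ p ∈ (thk (TP n N)).darts, ph p = a := by
  rw [mem_K] at h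
  obtain ⟨i, j, b⟩ := a
  simp only at h
  have h3 : j % 3 < 3 := Nat.mod_lt _ (by omega)
  cases b
  · refine ⟨((i, j / 3, false), ⟨2 - j % 3, by omega⟩), mem_G.2 ⟨h.1, ?_⟩, ?_⟩
    · simp only; omega
    · simp only [ph, Bool.false_eq_true, if_false, Prod.mk.injEq, and_true, true_and]
      omega
  · refine ⟨((i, j / 3, true), ⟨j % 3, h3⟩), mem_G.2 ⟨h.1, ?_⟩, ?_⟩
    · simp only; omega
    · simp only [ph, if_true, Prod.mk.injEq, and_true, true_and]
      omega

theorem stThkTP_26 : StThkTP := by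
  intro n N
  refine LE.of_emb (f := id) (φ := ph) (M := fun _ _ => False) ?_
  refine ⟨fun v hv => hv, fun _ _ => trivial, fun _ _ _ _ h => h, fun _ _ h => h.elim,
    fun _ _ _ h => h.elim, fun _ _ h => h.elim, fun _ _ h => h.elim, fun _ _ h => h.elim,
    fun h hh => ph_mem hh, ?_, fun _ _ _ _ h => ph_inj h, ?_, ?_, ?_⟩
  · rintro ⟨⟨i, j, b⟩, k⟩ _
    cases b <;> rfl
  · intro v _
    rw [rot_map, List.filter_eq_self.2]
    · exact List.IsRotated.refl _
    · intro a ha
      rw [decide_eq_true_iff]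
      exact ph_surj (((TP n (3 * N)).mem_rot _ _).1 ha).1
  · intro x _
    exact NC.done _ (fun a _ b h => h)
  · intro h _
    exact ⟨ph h, Run.refl _, opp_ph n N h⟩

end RotWqo.Pl.A26

namespace RotWqo.Pl

theorem A6_26 : StThkTP := A26.stThkTP_26

end RotWqo.Pl
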