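import Pool.Agent.Lib.MP_cb4a0f_co.Pl.Stmts

/-!
# MP_cb4a0f_co, planar rotated graphs, row A7: one vertex, one loop, one edge
-/

open Classical

namespace RotWqo.Pl.A7s44

open RotWqo RotWqo.Pl

theorem base1 {V H : Type} (G : RotGraph V H) (hv : G.verts.card = 1) (hd : G.darts = ∅) :
    LE G (TP 1 0) := by
  refine LE.of_emb (f := fun _ => 0) (φ := fun _ => (0, 0, true)) (M := fun _ _ => False) ?_
  have hr : ∀ v, G.rot v = [] := by
    intro v
    rw [List.eq_nil_iff_forall_not_mem]
    intro h hh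
    have := ((G.mem_rot v h).1 hh).1
    rw [hd] at this
    simp at this
  refine ⟨?_, ?_, ?_, ?_, ?_, ?_, ?_, ?_, ?_, ?_, ?_, ?_, ?_, ?_⟩
  · intro v _; simp [TP]
  · intro v _; trivial
  · intro a ha b hb _
    exact Finset.card_le_one.1 hv.le a ha b hb
  · intro a b h; exact h.elim
  · intro a b c h; exact h.elim
  · intro a b h; exact h.elim
  · intro a b h; exact h.elim
  · intro a b h; exact h.elim
  · intro h hh; rw [hd] at hh; simp at hh
  · intro h hh; rw [hd] at hh; simp at hh
  · intro a ha; rw [hd] at ha; simp at ha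
  · intro v _
    simp [TP, hr]
  · intro x _
    exact NC.done _ (fun a _ b h => h)
  · intro h hh; rw [hd] at hh; simp at hh

/-- A list without repetitions whose elements are `a ≠ b`. -/
theorem two_list {α : Type} {l : List α} {a b : α} (hn : l.Nodup) (hab : a ≠ b)
    (h : ∀ x, x ∈ l ↔ x = a ∨ x = b) : l = [a, b] ∨ l = [b, a] := by
  have hp : l.Perm [a, b] := by
    rw [List.perm_ext_iff_of_nodup hn (by simp [hab])]
    intro x
    simp [h x]
  rcases l with _ | ⟨x, _ | ⟨y, _ | ⟨z, l⟩⟩⟩
  · simpa using hp.length_eq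
  · simpa using hp.length_eq
  · have hx := (h x).1 (by simp)
    have hy := (h y).1 (by simp)
    have hxy : x ≠ y := by
      intro e
      subst e
      simp at hn
    rcases hx with rfl | rfl <;> rcases hy with rfl | rfl
    · exact absurd rfl hxy
    · left; rfl
    · right; rfl
    · exact absurd rfl hxy
  · have := hp.length_eq
    simp at this

theorem one_list {α : Type} {l : List α} {a : α} (hn : l.Nodup)
    (h : ∀ x, x ∈ l ↔ x = a) : l = [a] := by
  have hp : l.Perm [a] := by
    rw [List.perm_ext_iff_of_nodup hn (by simp)]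
    intro x
    simp [h x]
  exact List.perm_singleton.1 hp

theorem dart_cases {V H : Type} (G : RotGraph V H) (hd : G.darts.card = 2) {d : H}
    (hm : d ∈ G.darts) (x : H) : x ∈ G.darts ↔ x = d ∨ x = G.opp d := by
  have hne : G.opp d ≠ d := G.opp_ne d hm
  have hs : ({d, G.opp d} : Finset H) ⊆ G.darts := by
    intro y hy
    rw [Finset.mem_insert, Finset.mem_singleton] at hy
    rcases hy with rfl | rfl
    · exact hm
    · exact G.opp_mem _ hm
  have hc : ({d, G.opp d} : Finset H).card = 2 := Finset.card_pair (Ne.symm hne)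
  have he := Finset.eq_of_subset_of_card_le hs (by omega)
  rw [← he, Finset.mem_insert, Finset.mem_singleton]

theorem base2 {V H : Type} (G : RotGraph V H) (hv : G.verts.card = 1) (hd : G.darts.card = 2) :
    LE G (TP 2 2) := by
  obtain ⟨d, hm⟩ : G.darts.Nonempty := Finset.card_pos.1 (by omega)
  have hne : G.opp d ≠ d := G.opp_ne d hm
  have hdc := dart_cases G hd hm
  have hoo : G.opp (G.opp d) = d := G.opp_opp d hm
  let φ : H → ℕ × ℕ × Bool := fun h => if h = d then (0, 0, false) else (0, 1, false)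
  have hφ1 : φ d = (0, 0, false) := by simp [φ]
  have hφ2 : φ (G.opp d) = (0, 1, false) := by simp [φ, hne]
  let M : (ℕ × ℕ × Bool) → (ℕ × ℕ × Bool) → Prop := fun a b =>
    (a = (0, 0, true) ∧ b = (0, 1, true)) ∨ (a = (0, 1, true) ∧ b = (0, 0, true))
  have hK : ∀ a, GenAux.Kr G φ a ↔ a = (0, 0, false) ∨ a = (0, 1, false) := by
    intro a
    constructor
    · rintro ⟨h, h1, h2⟩
      rcases (hdc h).1 h1 with rfl | rfl
      · left; rw [← h2, hφ1]
      · right; rw [← h2, hφ2]
    · rintro (rfl | rfl)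
      · exact ⟨d, hm, hφ1⟩
      · exact ⟨_, G.opp_mem _ hm, hφ2⟩
  have hbase : ∀ v ∈ G.verts, ∀ h ∈ G.darts, G.base h = v := by
    intro v hv' h hh
    exact Finset.card_le_one.1 hv.le _ (G.base_mem h hh) _ hv'
  refine LE.of_emb (f := fun _ => 0) (φ := φ) (M := M) ?_
  refine ⟨?_, ?_, ?_, ?_, ?_, ?_, ?_, ?_, ?_, ?_, ?_, ?_, ?_, ?_⟩
  · intro v _; simp [TP]
  · intro v _; trivial
  · intro a ha b hb _
    exact Finset.card_le_one.1 hv.le a ha b hb
  · intro a b h
    rcases h with ⟨h1, h2⟩ | ⟨h1, h2⟩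
    · exact Or.inr ⟨h2, h1⟩
    · exact Or.inl ⟨h2, h1⟩
  · intro a b c h h'
    rcases h with ⟨h1, h2⟩ | ⟨h1, h2⟩ <;> rcases h' with ⟨h3, h4⟩ | ⟨h3, h4⟩
    · rw [h2, h4]
    · rw [h1] at h3; simp at h3
    · rw [h1] at h3; simp at h3
    · rw [h2, h4]
  · intro a b h
    rcases h with ⟨h1, h2⟩ | ⟨h1, h2⟩ <;> subst h1 <;> simp [TP]
  · intro a b h
    rcases h with ⟨h1, h2⟩ | ⟨h1, h2⟩ <;> subst h1 <;> subst h2 <;> simp [TP]
  · intro a b h
    rw [hK]
    rcases h with ⟨h1, h2⟩ | ⟨h1, h2⟩ <;> subst h1 <;> simp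
  · intro h hh
    rcases (hdc h).1 hh with rfl | rfl
    · rw [hφ1]; simp [TP]
    · rw [hφ2]; simp [TP]
  · intro h hh
    rcases (hdc h).1 hh with rfl | rfl
    · rw [hφ1]; simp [TP]
    · rw [hφ2]; simp [TP]
  · intro a ha b hb hab
    rcases (hdc a).1 ha with rfl | rfl <;> rcases (hdc b).1 hb with rfl | rfl
    · rfl
    · rw [hφ1, hφ2] at hab; simp at hab
    · rw [hφ1, hφ2] at hab; simp at hab
    · rfl
  · intro v hv'
    have hr : (TP 2 2).rot 0 = [(0, 1, false), (0, 0, false)] := by
      simp [TP, List.range_succ]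
    have hf : ((TP 2 2).rot 0).filter (fun a => decide (GenAux.Kr G φ a)) =
        [(0, 1, false), (0, 0, false)] := by
      rw [hr]
      simp [hK]
    rw [hf]
    have hl := two_list (l := G.rot v) (a := d) (b := G.opp d) (G.nodup v) (Ne.symm hne) (by
      intro x
      rw [G.mem_rot, hdc]
      constructor
      · exact fun h => h.1
      · intro h
        exact ⟨h, hbase v hv' x ((hdc x).2 h)⟩)
    rcases hl with hl | hl
    · rw [hl]
      simp only [List.map_cons, List.map_nil, hφ1, hφ2]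
      exact ⟨1, rfl⟩
    · rw [hl]
      simp only [List.map_cons, List.map_nil, hφ1, hφ2]
      exact ⟨0, rfl⟩
  · intro x hx
    have hx' : x = 0 ∨ x = 1 := by
      simp [TP] at hx
      omega
    rcases hx' with rfl | rfl
    · have hr : (TP 2 2).rot 0 = [(0, 1, false), (0, 0, false)] := by
        simp [TP, List.range_succ]
      rw [hr]
      refine NC.done _ ?_
      intro a ha b hab
      have ha' := (List.mem_filter.1 ha).1
      rcases hab with ⟨h1, h2⟩ | ⟨h1, h2⟩ <;> rw [h1] at ha' <;> simp at ha'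
    · have hr : (TP 2 2).rot 1 = [(0, 0, true), (0, 1, true)] := by
        simp [TP, List.range_succ]
      have hf : ((TP 2 2).rot 1).filter
          (fun a => decide (GenAux.Kr G φ a ∨ ∃ b, M a b)) = [(0, 0, true), (0, 1, true)] := by
        rw [hr, List.filter_eq_self]
        intro a ha
        rw [decide_eq_true_eq]
        right
        simp only [List.mem_cons, List.not_mem_nil, or_false] at ha
        rcases ha with rfl | rfl
        · exact ⟨(0, 1, true), Or.inl ⟨rfl, rfl⟩⟩
        · exact ⟨(0, 0, true), Or.inr ⟨rfl, rfl⟩⟩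
      rw [hf]
      refine NC.pair _ (0, 0, true) (0, 1, true) [] (List.IsRotated.refl _) (Or.inl ⟨rfl, rfl⟩) ?_
      exact NC.done _ (fun a ha => absurd ha List.not_mem_nil)
  · intro h hh
    rcases (hdc h).1 hh with rfl | rfl
    · refine ⟨(0, 1, true), ?_, ?_⟩
      · rw [hφ1]
        exact Run.step _ (0, 1, true) _ (Or.inl ⟨rfl, rfl⟩) (Run.refl _)
      · rw [hφ2]; rfl
    · refine ⟨(0, 0, true), ?_, ?_⟩
      · rw [hφ2]
        exact Run.step _ (0, 0, true) _ (Or.inr ⟨rfl, rfl⟩) (Run.refl _)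
      · rw [hoo, hφ1]; rfl

theorem base3 {V H : Type} (G : RotGraph V H) (d : H) (hv : G.verts.card = 2)
    (hd : G.darts.card = 2) (hm : d ∈ G.darts) (hb : G.base (G.opp d) ≠ G.base d) :
    LE G (TP 2 1) := by
  have hne : G.opp d ≠ d := G.opp_ne d hm
  have hdc := dart_cases G hd hm
  have hoo : G.opp (G.opp d) = d := G.opp_opp d hm
  have hvc : ∀ v, v ∈ G.verts ↔ v = G.base d ∨ v = G.base (G.opp d) := by
    intro v
    have hs : ({G.base d, G.base (G.opp d)} : Finset V) ⊆ G.verts := by
      intro y hy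
      rw [Finset.mem_insert, Finset.mem_singleton] at hy
      rcases hy with rfl | rfl
      · exact G.base_mem _ hm
      · exact G.base_mem _ (G.opp_mem _ hm)
    have hc : ({G.base d, G.base (G.opp d)} : Finset V).card = 2 := Finset.card_pair (Ne.symm hb)
    have he := Finset.eq_of_subset_of_card_le hs (by omega)
    rw [← he, Finset.mem_insert, Finset.mem_singleton]
  let φ : H → ℕ × ℕ × Bool := fun h => if h = d then (0, 0, false) else (0, 0, true)
  let f : V → ℕ := fun v => if v = G.base d then 0 else 1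
  have hφ1 : φ d = (0, 0, false) := by simp [φ]
  have hφ2 : φ (G.opp d) = (0, 0, true) := by simp [φ, hne]
  have hf1 : f (G.base d) = 0 := by simp [f]
  have hf2 : f (G.base (G.opp d)) = 1 := by simp [f, hb]
  have hK : ∀ a, GenAux.Kr G φ a ↔ a = (0, 0, false) ∨ a = (0, 0, true) := by
    intro a
    constructor
    · rintro ⟨h, h1, h2⟩
      rcases (hdc h).1 h1 with rfl | rfl
      · left; rw [← h2, hφ1]
      · right; rw [← h2, hφ2]
    · rintro (rfl | rfl)
      · exact ⟨d, hm, hφ1⟩
      · exact ⟨_, G.opp_mem _ hm, hφ2⟩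
  have hr0 : (TP 2 1).rot 0 = [(0, 0, false)] := by simp [TP, List.range_succ]
  have hr1 : (TP 2 1).rot 1 = [(0, 0, true)] := by simp [TP, List.range_succ]
  refine LE.of_emb (f := f) (φ := φ) (M := fun _ _ => False) ?_
  refine ⟨?_, ?_, ?_, ?_, ?_, ?_, ?_, ?_, ?_, ?_, ?_, ?_, ?_, ?_⟩
  · intro v hv'
    rcases (hvc v).1 hv' with rfl | rfl
    · rw [hf1]; simp [TP]
    · rw [hf2]; simp [TP]
  · intro v _; trivial
  · intro a ha b hb' hab
    rcases (hvc a).1 ha with rfl | rfl <;> rcases (hvc b).1 hb' with rfl | rfl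
    · rfl
    · rw [hf1, hf2] at hab; simp at hab
    · rw [hf1, hf2] at hab; simp at hab
    · rfl
  · intro a b h; exact h.elim
  · intro a b c h; exact h.elim
  · intro a b h; exact h.elim
  · intro a b h; exact h.elim
  · intro a b h; exact h.elim
  · intro h hh
    rcases (hdc h).1 hh with rfl | rfl
    · rw [hφ1]; simp [TP]
    · rw [hφ2]; simp [TP]
  · intro h hh
    rcases (hdc h).1 hh with rfl | rfl
    · rw [hφ1, hf1]; simp [TP]
    · rw [hφ2, hf2]; simp [TP]
  · intro a ha b hb' hab
    rcases (hdc a).1 ha with rfl | rfl <;> rcases (hdc b).1 hb' with rfl | rfl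
    · rfl
    · rw [hφ1, hφ2] at hab; simp at hab
    · rw [hφ1, hφ2] at hab; simp at hab
    · rfl
  · intro v hv'
    rcases (hvc v).1 hv' with rfl | rfl
    · rw [hf1, hr0]
      have hl : G.rot (G.base d) = [d] := one_list (G.nodup _) (by
        intro x
        rw [G.mem_rot, hdc]
        constructor
        · rintro ⟨rfl | rfl, h2⟩
          · rfl
          · exact absurd h2 hb
        · rintro rfl
          exact ⟨Or.inl rfl, rfl⟩)
      rw [hl]
      simp [hK, hφ1]
    · rw [hf2, hr1]
      have hl : G.rot (G.base (G.opp d)) = [G.opp d] := one_list (G.nodup _) (by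
        intro x
        rw [G.mem_rot, hdc]
        constructor
        · rintro ⟨rfl | rfl, h2⟩
          · exact absurd h2.symm hb
          · rfl
        · rintro rfl
          exact ⟨Or.inr rfl, rfl⟩)
      rw [hl]
      simp [hK, hφ2]
  · intro x _
    exact NC.done _ (fun a _ b h => h)
  · intro h hh
    rcases (hdc h).1 hh with rfl | rfl
    · exact ⟨_, Run.refl _, by rw [hφ1, hφ2]; rfl⟩
    · exact ⟨_, Run.refl _, by rw [hoo, hφ1, hφ2]; rfl⟩

end RotWqo.Pl.A7s44

namespace RotWqo.Pl

theorem a7_44 : StBase := fun _ _ G =>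
  ⟨A7s44.base1 G, A7s44.base2 G, fun d h1 h2 h3 h4 => A7s44.base3 G d h1 h2 h3 h4⟩

end RotWqo.Pl
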