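import Pool.Agent.Lib.MP_cb4a0f_co.Pl.Stmts

/-!
# MP_cb4a0f_co: selection of blocks (row B1)
-/

open Classical

namespace RotWqo.Pl

open RotWqo.Bag

/-- A large set contains a large increasing set or a large decreasing set. -/
theorem mono_or95 (k l : ℕ) : ∃ N : ℕ, ∀ (α : Type) (F : Finset α) (p y : α → ℕ),
    N ≤ F.card → Set.InjOn p (F : Set α) → Set.InjOn y (F : Set α) →
    (∃ T ⊆ F, T.card = k ∧ ∀ a ∈ T, ∀ b ∈ T, p a < p b → y a < y b) ∨
      ∃ T ⊆ F, T.card = l ∧ ∀ a ∈ T, ∀ b ∈ T, p a < p b → y b < y a := by
  induction k generalizing l with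
  | zero =>
    exact ⟨0, fun α F p y _ _ _ => Or.inl ⟨∅, Finset.empty_subset _, rfl, by simp⟩⟩
  | succ k ihk =>
    induction l with
    | zero =>
      exact ⟨0, fun α F p y _ _ _ => Or.inr ⟨∅, Finset.empty_subset _, rfl, by simp⟩⟩
    | succ l ihl =>
      obtain ⟨N₁, h₁⟩ := ihk (l + 1)
      obtain ⟨N₂, h₂⟩ := ihl
      refine ⟨N₁ + N₂ + 1, fun α F p y hF hp hy => ?_⟩
      have hne : F.Nonempty := Finset.card_pos.1 (by omega)
      obtain ⟨a, ha, hmin⟩ := Finset.exists_min_image F p hne
      have hlt : ∀ b ∈ F.erase a, p a < p b := by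
        intro b hb
        rw [Finset.mem_erase] at hb
        refine lt_of_le_of_ne (hmin b hb.2) fun h => hb.1 (hp hb.2 ha h.symm)
      have hcard : (F.erase a).card + 1 = F.card := Finset.card_erase_add_one ha
      have hsplit : ((F.erase a).filter (fun b => y a < y b)).card +
          ((F.erase a).filter (fun b => ¬ y a < y b)).card = (F.erase a).card :=
        Finset.card_filter_add_card_filter_not _
      have hsub1 : (F.erase a).filter (fun b => y a < y b) ⊆ F :=
        (Finset.filter_subset _ _).trans (Finset.erase_subset _ _)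
      have hsub2 : (F.erase a).filter (fun b => ¬ y a < y b) ⊆ F :=
        (Finset.filter_subset _ _).trans (Finset.erase_subset _ _)
      rcases le_or_gt N₁ ((F.erase a).filter (fun b => y a < y b)).card with h | h
      · rcases h₁ α _ p y h (hp.mono (by exact_mod_cast hsub1))
          (hy.mono (by exact_mod_cast hsub1)) with ⟨T, hT, hc, hm⟩ | ⟨T, hT, hc, hm⟩
        · left
          have haT : a ∉ T := by
            intro h3
            have := hT h3
            simp at this
          refine ⟨insert a T, Finset.insert_subset ha (hT.trans hsub1), ?_, ?_⟩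
          · rw [Finset.card_insert_of_notMem haT, hc]
          · intro b hb c hc' hbc
            rw [Finset.mem_insert] at hb hc'
            rcases hb with rfl | hb
            · rcases hc' with rfl | hc'
              · exact absurd hbc (lt_irrefl _)
              · exact (Finset.mem_filter.1 (hT hc')).2
            · rcases hc' with rfl | hc'
              · exact absurd (hlt b (Finset.mem_filter.1 (hT hb)).1) (by omega)
              · exact hm b hb c hc' hbc
        · exact Or.inr ⟨T, hT.trans hsub1, hc, hm⟩
      · have h' : N₂ ≤ ((F.erase a).filter (fun b => ¬ y a < y b)).card := by omega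
        rcases h₂ α _ p y h' (hp.mono (by exact_mod_cast hsub2))
          (hy.mono (by exact_mod_cast hsub2)) with ⟨T, hT, hc, hm⟩ | ⟨T, hT, hc, hm⟩
        · exact Or.inl ⟨T, hT.trans hsub2, hc, hm⟩
        · right
          have haT : a ∉ T := by
            intro h3
            have := hT h3
            simp at this
          refine ⟨insert a T, Finset.insert_subset ha (hT.trans hsub2), ?_, ?_⟩
          · rw [Finset.card_insert_of_notMem haT, hc]
          · intro b hb c hc' hbc
            rw [Finset.mem_insert] at hb hc'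
            rcases hb with rfl | hb
            · rcases hc' with rfl | hc'
              · exact absurd hbc (lt_irrefl _)
              · have h4 := Finset.mem_filter.1 (hT hc')
                refine lt_of_le_of_ne (not_lt.1 h4.2) fun h5 => ?_
                exact (Finset.mem_erase.1 h4.1).1 (hy (Finset.mem_erase.1 h4.1).2 ha h5)
            · rcases hc' with rfl | hc'
              · exact absurd (hlt b (Finset.mem_filter.1 (hT hb)).1) (by omega)
              · exact hm b hb c hc' hbc

/-- The elements of a set in the order of `p`. -/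
theorem exists_seq95 {α : Type} [Nonempty α] (p : α → ℕ) (L : ℕ) : ∀ T : Finset α,
    Set.InjOn p (T : Set α) → L ≤ T.card → ∃ w : ℕ → α, (∀ j < L, w j ∈ T) ∧
      ∀ j j', j < j' → j' < L → p (w j) < p (w j') := by
  induction L with
  | zero =>
    intro T _ _
    exact ⟨fun _ => Classical.arbitrary α, by simp, by simp⟩
  | succ L ih =>
    intro T hp hT
    have hne : T.Nonempty := Finset.card_pos.1 (by omega)
    obtain ⟨a, ha, hmin⟩ := Finset.exists_min_image T p hne
    have hcard : (T.erase a).card + 1 = T.card := Finset.card_erase_add_one ha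
    obtain ⟨w, h1, h2⟩ := ih (T.erase a)
      (hp.mono (by exact_mod_cast Finset.erase_subset _ _)) (by omega)
    refine ⟨fun j => if j = 0 then a else w (j - 1), ?_, ?_⟩
    · intro j hj
      dsimp only
      split_ifs with h
      · exact ha
      · exact Finset.erase_subset _ _ (h1 (j - 1) (by omega))
    · intro j j' hj hj'
      dsimp only
      rw [if_neg (show ¬ j' = 0 by omega)]
      split_ifs with h
      · have h3 := Finset.mem_erase.1 (h1 (j' - 1) (by omega))
        exact lt_of_le_of_ne (hmin _ h3.2) fun h4 => h3.1 (hp h3.2 ha h4.symm)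
      · exact h2 _ _ (by omega) (by omega)

/-- Disjoint blocks of different colours. -/
theorem blocks95 {α β : Type} [Nonempty α] [Nonempty β] (L : ℕ) (p : α → ℕ) (T : β → Finset α)
    (hp : ∀ b b', ∀ a ∈ T b, ∀ a' ∈ T b', p a = p a' → a = a') (hL : 0 < L) :
    ∀ (r : ℕ) (S : Finset β) (t : ℕ), r ≤ S.card →
      (∀ b ∈ S, r * L ≤ ((T b).filter (fun a => t ≤ p a)).card) →
      ∃ (w : ℕ → ℕ → α) (e : ℕ → β), (∀ i < r, e i ∈ S) ∧
        (∀ i < r, ∀ j < L, w i j ∈ T (e i) ∧ t ≤ p (w i j)) ∧
        (∀ i i', i < i' → i' < r → e i ≠ e i') ∧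
        (∀ i < r, ∀ j j', j < j' → j' < L → p (w i j) < p (w i j')) ∧
        ∀ i i' j j', i < i' → i' < r → j < L → j' < L → p (w i j) < p (w i' j') := by
  intro r
  induction r with
  | zero =>
    intro S t _ _
    exact ⟨fun _ _ => Classical.arbitrary α, fun _ => Classical.arbitrary β, by simp, by simp,
      by simp, by simp, by simp⟩
  | succ r ih =>
    intro S t hS hT
    have hex : ∃ t', ∃ b ∈ S, L ≤ ((T b).filter (fun a => t ≤ p a ∧ p a < t')).card := by
      have hne : S.Nonempty := Finset.card_pos.1 (by omega)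
      obtain ⟨b, hb⟩ := hne
      refine ⟨(T b).sup p + 1, b, hb, ?_⟩
      have e : (T b).filter (fun a => t ≤ p a ∧ p a < (T b).sup p + 1) =
          (T b).filter (fun a => t ≤ p a) := by
        apply Finset.filter_congr
        intro a ha
        have := Finset.le_sup (f := p) ha
        constructor
        · exact fun h => h.1
        · exact fun h => ⟨h, by omega⟩
      rw [e]
      have h1 := hT b hb
      have h2 : L ≤ (r + 1) * L := Nat.le_mul_of_pos_left L (by omega)
      omega
    obtain ⟨b, hb, hbL⟩ := Nat.find_spec hex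
    have hmin := fun t' h => Nat.find_min (m := t') hex h
    set t' := Nat.find hex with ht'
    -- the other colours lose at most `L` elements
    have hlose : ∀ b' ∈ S, ((T b').filter (fun a => t ≤ p a ∧ p a < t')).card ≤ L := by
      intro b' hb'
      by_contra hcon
      push Not at hcon
      have ht0 : 0 < t' := by
        rcases Nat.eq_zero_or_pos t' with h | h
        · rw [h] at hbL
          simp at hbL
          omega
        · exact h
      apply hmin (t' - 1) (by omega)
      refine ⟨b', hb', ?_⟩
      have hsub : (T b').filter (fun a => t ≤ p a ∧ p a < t') ⊆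
          (T b').filter (fun a => t ≤ p a ∧ p a < t' - 1) ∪
            (T b').filter (fun a => p a = t' - 1) := by
        intro a ha
        rw [Finset.mem_filter] at ha
        rw [Finset.mem_union, Finset.mem_filter, Finset.mem_filter]
        rcases lt_or_ge (p a) (t' - 1) with h | h
        · exact Or.inl ⟨ha.1, ha.2.1, h⟩
        · exact Or.inr ⟨ha.1, by omega⟩
      have h1 : ((T b').filter (fun a => p a = t' - 1)).card ≤ 1 := by
        rw [Finset.card_le_one]
        intro a ha a' ha'
        rw [Finset.mem_filter] at ha ha'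
        exact hp b' b' a ha.1 a' ha'.1 (by rw [ha.2, ha'.2])
      have h2 := (Finset.card_le_card hsub).trans (Finset.card_union_le _ _)
      omega
    obtain ⟨w₀, hw₀, hw₀'⟩ := exists_seq95 p L ((T b).filter (fun a => t ≤ p a ∧ p a < t'))
      (by
        intro a ha a' ha' h
        rw [Finset.mem_coe, Finset.mem_filter] at ha ha'
        exact hp b b a ha.1 a' ha'.1 h) hbL
    have hS' : r ≤ (S.erase b).card := by
      have := Finset.card_erase_add_one hb
      omega
    obtain ⟨w, e, h1, h2, h3, h4, h5⟩ := ih (S.erase b) t' hS' (by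
      intro b' hb'
      have hb'S := (Finset.mem_erase.1 hb').2
      have e1 := hT b' hb'S
      have e2 := hlose b' hb'S
      have hsub : (T b').filter (fun a => t ≤ p a) ⊆
          (T b').filter (fun a => t ≤ p a ∧ p a < t') ∪
            (T b').filter (fun a => t' ≤ p a) := by
        intro a ha
        rw [Finset.mem_filter] at ha
        rw [Finset.mem_union, Finset.mem_filter, Finset.mem_filter]
        rcases lt_or_ge (p a) t' with h | h
        · exact Or.inl ⟨ha.1, ha.2, h⟩
        · exact Or.inr ⟨ha.1, h⟩
      have e3 := (Finset.card_le_card hsub).trans (Finset.card_union_le _ _)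
      have e4 : (r + 1) * L = r * L + L := by ring
      omega)
    refine ⟨fun i => if i = 0 then w₀ else w (i - 1), fun i => if i = 0 then b else e (i - 1),
      ?_, ?_, ?_, ?_, ?_⟩
    · intro i hi
      dsimp only
      split_ifs with h
      · exact hb
      · exact (Finset.mem_erase.1 (h1 (i - 1) (by omega))).2
    · intro i hi j hj
      dsimp only
      split_ifs with h
      · have := Finset.mem_filter.1 (hw₀ j hj)
        exact ⟨this.1, this.2.1⟩
      · obtain ⟨e1, e2⟩ := h2 (i - 1) (by omega) j hj
        refine ⟨e1, ?_⟩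
        have h6 := Finset.mem_filter.1 (hw₀ 0 hL)
        omega
    · intro i i' hi hi'
      dsimp only
      rw [if_neg (show ¬ i' = 0 by omega)]
      split_ifs with h
      · exact fun h6 => (Finset.mem_erase.1 (h1 (i' - 1) (by omega))).1 h6.symm
      · exact h3 _ _ (by omega) (by omega)
    · intro i hi j j' hj hj'
      dsimp only
      split_ifs with h
      · exact hw₀' j j' hj hj'
      · exact h4 (i - 1) (by omega) j j' hj hj'
    · intro i i' j j' hi hi' hj hj'
      dsimp only
      rw [if_neg (show ¬ i' = 0 by omega)]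
      split_ifs with h
      · have h6 := Finset.mem_filter.1 (hw₀ j hj)
        have h7 := (h2 (i' - 1) (by omega) j' hj').2
        omega
      · exact h5 _ _ j j' (by omega) (by omega) hj hj'

/-- (B1) Selection. -/
theorem b1_95 : StSel := by
  intro r L hL
  obtain ⟨N, hN⟩ := mono_or95 (r * L) (r * L)
  refine ⟨2 * r + 1, N + 1, fun α β F p y c S hS hK hp hy => ?_⟩
  have hneS : S.Nonempty := Finset.card_pos.1 (by omega)
  obtain ⟨b₀, hb₀⟩ := hneS
  have hneα : Nonempty α := by
    have := hK b₀ hb₀
    obtain ⟨a, -⟩ := Finset.card_pos.1 (show 0 < (F.filter (fun a => c a = b₀)).card by omega)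
    exact ⟨a⟩
  have hneβ : Nonempty β := ⟨b₀⟩
  have hsubF : ∀ b, F.filter (fun a => c a = b) ⊆ F := fun b => Finset.filter_subset _ _
  have hch : ∀ b, ∃ (T : Finset α) (s : Bool), b ∈ S → T ⊆ F.filter (fun a => c a = b) ∧
      T.card = r * L ∧ ∀ a ∈ T, ∀ a' ∈ T, p a < p a' → lt s (y a) (y a') := by
    intro b
    by_cases hb : b ∈ S
    · rcases hN α (F.filter (fun a => c a = b)) p y (by have := hK b hb; omega)
        (hp.mono (by exact_mod_cast hsubF b)) (by
          intro a ha a' ha' h
          rw [Finset.mem_coe, Finset.mem_filter] at ha ha'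
          exact hy a ha.1 a' ha'.1 (by rw [ha.2, ha'.2]) h) with ⟨T, h1, h2, h3⟩ | ⟨T, h1, h2, h3⟩
      · exact ⟨T, true, fun _ => ⟨h1, h2, fun a ha a' ha' h => by
          simpa [lt] using h3 a ha a' ha' h⟩⟩
      · exact ⟨T, false, fun _ => ⟨h1, h2, fun a ha a' ha' h => by
          simpa [lt] using h3 a ha a' ha' h⟩⟩
    · exact ⟨∅, true, fun h => absurd h hb⟩
  choose T₀ s₀ hT₀ using hch
  have hdir : ∃ s : Bool, r ≤ (S.filter (fun b => s₀ b = s)).card := by
    by_contra hcon
    push Not at hcon
    have h1 := hcon true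
    have h2 := hcon false
    have h3 : (S.filter (fun b => s₀ b = true)).card +
        (S.filter (fun b => ¬ s₀ b = true)).card = S.card :=
      Finset.card_filter_add_card_filter_not _
    have h4 : S.filter (fun b => ¬ s₀ b = true) = S.filter (fun b => s₀ b = false) := by
      apply Finset.filter_congr
      intro b _
      simp
    rw [h4] at h3
    omega
  obtain ⟨s, hs⟩ := hdir
  obtain ⟨w, e, h1, h2, h3, h4, h5⟩ := blocks95 L p (fun b => if b ∈ S then T₀ b else ∅)
    (by
      intro b b' a ha a' ha' h
      split_ifs at ha ha' with hb hb' <;> try exact absurd ha (Finset.notMem_empty _)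
      · have e1 := hsubF b ((hT₀ b hb).1 ha)
        have e2 := hsubF b' ((hT₀ b' hb').1 ha')
        exact hp e1 e2 h
      · exact absurd ha' (Finset.notMem_empty _)) hL r (S.filter (fun b => s₀ b = s)) 0 hs
    (by
      intro b hb
      have hbS := (Finset.mem_filter.1 hb).1
      rw [if_pos hbS]
      have : (T₀ b).filter (fun a => 0 ≤ p a) = T₀ b := by
        apply Finset.filter_true_of_mem
        intro a _
        exact Nat.zero_le _
      rw [this, (hT₀ b hbS).2.1])
  have hw : ∀ i < r, ∀ j < L, e i ∈ S ∧ s₀ (e i) = s ∧ w i j ∈ T₀ (e i) ∧ w i j ∈ F ∧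
      c (w i j) = e i := by
    intro i hi j hj
    have e1 := Finset.mem_filter.1 (h1 i hi)
    have e2 := (h2 i hi j hj).1
    rw [if_pos e1.1] at e2
    have e3 := Finset.mem_filter.1 ((hT₀ _ e1.1).1 e2)
    exact ⟨e1.1, e1.2, e2, e3.1, e3.2⟩
  refine ⟨w, s, ?_, ?_, ?_, h5⟩
  · intro i hi j hj
    obtain ⟨e1, -, -, e4, e5⟩ := hw i hi j hj
    obtain ⟨-, -, -, -, e5'⟩ := hw i hi 0 hL
    exact ⟨e4, by rw [e5]; exact e1, by rw [e5, e5']⟩
  · intro i i' hi hi'
    obtain ⟨-, -, -, -, e5⟩ := hw i (by omega) 0 hL
    obtain ⟨-, -, -, -, e5'⟩ := hw i' hi' 0 hL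
    rw [e5, e5']
    exact h3 i i' hi hi'
  · intro i hi j j' hj hj'
    obtain ⟨e1, e2, e3, -, -⟩ := hw i hi j (by omega)
    obtain ⟨-, -, e3', -, -⟩ := hw i hi j' hj'
    have e6 := h4 i hi j j' hj hj'
    have e7 := (hT₀ _ e1).2.2 _ e3 _ e3' e6
    rw [e2] at e7
    exact ⟨e6, e7⟩

end RotWqo.Pl
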