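import Pool.Agent.Lib.MP_cb4a0f_co.Pl.Stmts

/-!
# MP_cb4a0f_co: a tree of bags from a carving of the underlying simple graph (row C1)
-/

open Classical

namespace RotWqo.Pl

open RotWqo.Bag RotWqo.Hk

variable {V H : Type*}

/-- The half-edges from `u` to `v`. -/
noncomputable def mu95 (G : RotGraph V H) (u v : V) : ℕ :=
  (G.darts.filter (fun h => G.base h = u ∧ G.base (G.opp h) = v)).card

/-- Pairs of vertices joined by more than `M` edges. -/
def Th95 (G : RotGraph V H) (M : ℕ) (u v : V) : Prop :=
  u ∈ G.verts ∧ v ∈ G.verts ∧ M < mu95 G u v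

theorem mu_comm95 (G : RotGraph V H) (u v : V) : mu95 G u v = mu95 G v u := by
  unfold mu95
  apply Finset.card_bij' (fun h _ => G.opp h) (fun h _ => G.opp h)
  · intro h hh
    rw [Finset.mem_filter] at hh ⊢
    exact ⟨G.opp_mem h hh.1, hh.2.2, by rw [G.opp_opp h hh.1]; exact hh.2.1⟩
  · intro h hh
    rw [Finset.mem_filter] at hh ⊢
    exact ⟨G.opp_mem h hh.1, hh.2.2, by rw [G.opp_opp h hh.1]; exact hh.2.1⟩
  · intro h hh
    exact G.opp_opp h (Finset.mem_filter.1 hh).1
  · intro h hh
    exact G.opp_opp h (Finset.mem_filter.1 hh).1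

theorem th_symm95 (G : RotGraph V H) (M : ℕ) {u v : V} (h : Th95 G M u v) : Th95 G M v u :=
  ⟨h.2.1, h.1, by rw [mu_comm95]; exact h.2.2⟩

theorem chain_symm95 (G : RotGraph V H) (M : ℕ) {u v : V}
    (h : Relation.ReflTransGen (Th95 G M) u v) : Relation.ReflTransGen (Th95 G M) v u := by
  induction h with
  | refl => exact Relation.ReflTransGen.refl
  | tail _ h2 ih => exact Relation.ReflTransGen.head (th_symm95 G M h2) ih

/-- Chains of thick pairs. -/
def thS95 (G : RotGraph V H) (M : ℕ) : Setoid V where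
  r := Relation.ReflTransGen (Th95 G M)
  iseqv := ⟨fun _ => Relation.ReflTransGen.refl,
    fun h => chain_symm95 G M h,
    fun h h' => h.trans h'⟩

/-- A representative. -/
noncomputable def rp95 (G : RotGraph V H) (M : ℕ) (u : V) : V :=
  (Quotient.mk (thS95 G M) u).out

theorem rp_rel95 (G : RotGraph V H) (M : ℕ) (u : V) :
    Relation.ReflTransGen (Th95 G M) (rp95 G M u) u :=
  Quotient.exact (s := thS95 G M) (Quotient.out_eq _)

theorem rp_eq95 (G : RotGraph V H) (M : ℕ) {u v : V}
    (h : Relation.ReflTransGen (Th95 G M) u v) : rp95 G M u = rp95 G M v := by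
  unfold rp95
  rw [Quotient.sound (s := thS95 G M) h]

theorem rp_rp95 (G : RotGraph V H) (M : ℕ) (u : V) : rp95 G M (rp95 G M u) = rp95 G M u :=
  rp_eq95 G M (rp_rel95 G M u)

theorem rel_of_rp95 (G : RotGraph V H) (M : ℕ) {u v : V} (h : rp95 G M u = rp95 G M v) :
    Relation.ReflTransGen (Th95 G M) u v := by
  have h1 := rp_rel95 G M u
  have h2 := rp_rel95 G M v
  rw [h] at h1
  exact (chain_symm95 G M h1).trans h2

theorem chain_mem95 (G : RotGraph V H) (M : ℕ) {u v : V}
    (h : Relation.ReflTransGen (Th95 G M) u v) (hu : u ∈ G.verts) : v ∈ G.verts := by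
  induction h with
  | refl => exact hu
  | tail _ h2 _ => exact h2.2.1

theorem rp_mem95 (G : RotGraph V H) (M : ℕ) {u : V} (hu : u ∈ G.verts) :
    rp95 G M u ∈ G.verts :=
  chain_mem95 G M (chain_symm95 G M (rp_rel95 G M u)) hu

/-- A chain that leaves `X` contains a thick pair that leaves `X`. -/
theorem chain_leave95 (G : RotGraph V H) (M : ℕ) (X : Finset V) {u v : V}
    (h : Relation.ReflTransGen (Th95 G M) u v) (hu : u ∈ X) (hv : v ∉ X) :
    ∃ a b, Relation.ReflTransGen (Th95 G M) u a ∧ Th95 G M a b ∧ a ∈ X ∧ b ∉ X := by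
  induction h with
  | refl => exact absurd hu hv
  | @tail b c h1 h2 ih =>
    by_cases hb : b ∈ X
    · exact ⟨b, c, h1, h2, hb, hv⟩
    · exact ih hb

theorem mu_le_cut95 (G : RotGraph V H) (X : Finset V) {a b : V} (ha : a ∈ X) (hb : b ∉ X) :
    mu95 G a b ≤ cut G X := by
  unfold mu95 cut
  apply Finset.card_le_card
  intro h hh
  rw [Finset.mem_filter] at hh
  unfold bd
  rw [Finset.mem_filter]
  exact ⟨hh.1, by rw [hh.2.1]; exact ha, by rw [hh.2.2]; exact hb⟩

/-- The class of a representative. -/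
noncomputable def cl95 (G : RotGraph V H) (M : ℕ) (v : V) : Finset V :=
  G.verts.filter (fun u => rp95 G M u = v)

theorem mem_cl95 {G : RotGraph V H} {M : ℕ} {u v : V} :
    u ∈ cl95 G M v ↔ u ∈ G.verts ∧ rp95 G M u = v := by
  unfold cl95
  rw [Finset.mem_filter]

theorem cl_card95 (G : RotGraph V H) (m M : ℕ)
    (hl : ∀ S ⊆ G.verts, m ≤ S.card → ¬ Lnk M G S) (v : V) : (cl95 G M v).card < m := by
  by_contra hcon
  push Not at hcon
  refine hl (cl95 G M v) (Finset.filter_subset _ _) hcon ?_
  rintro X _ ⟨u, hu, huX⟩ ⟨w, hw, hwX⟩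
  rw [mem_cl95] at hu hw
  have h1 := rel_of_rp95 G M (hu.2.trans hw.2.symm)
  obtain ⟨a, b, -, h2, h3, h4⟩ := chain_leave95 G M X h1 huX hwX
  have h5 := mu_le_cut95 G X h3 h4
  have h6 := h2.2.2
  omega

/-- The tree of classes. -/
theorem bagTree95 (p : V → Prop) (c : V → Finset V) (t : Tree V) :
    (∀ v ∈ t.leaves, ¬ p v) ∨ ∃ t' : Tree (Finset V),
      t'.leaves = (t.leaves.filter (fun v => decide (p v))).map c ∧
      ∀ s', IsSub s' t' → ∃ s, IsSub s t ∧
        s'.leaves = (s.leaves.filter (fun v => decide (p v))).map c := by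
  induction t with
  | leaf v =>
    by_cases hv : p v
    · right
      refine ⟨.leaf (c v), by simp [Tree.leaves, hv], ?_⟩
      intro s' hs'
      cases hs'
      exact ⟨.leaf v, IsSub.refl, by simp [Tree.leaves, hv]⟩
    · left
      intro u hu
      simp only [Tree.leaves, List.mem_singleton] at hu
      rw [hu]
      exact hv
  | node l r ihl ihr =>
    have hnil : ∀ t : Tree V, (∀ v ∈ t.leaves, ¬ p v) →
        t.leaves.filter (fun v => decide (p v)) = [] := by
      intro t ht
      rw [List.filter_eq_nil_iff]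
      intro a ha
      simpa using ht a ha
    rcases ihl with hl | ⟨l', hl1, hl2⟩
    · rcases ihr with hr | ⟨r', hr1, hr2⟩
      · left
        intro v hv
        simp only [Tree.leaves, List.mem_append] at hv
        rcases hv with hv | hv
        · exact hl v hv
        · exact hr v hv
      · right
        refine ⟨r', ?_, ?_⟩
        · simp only [Tree.leaves, List.filter_append, hnil l hl, List.nil_append]
          exact hr1
        · intro s' hs'
          obtain ⟨s, h1, h2⟩ := hr2 s' hs'
          exact ⟨s, IsSub.right _ _ h1, h2⟩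
    · rcases ihr with hr | ⟨r', hr1, hr2⟩
      · right
        refine ⟨l', ?_, ?_⟩
        · simp only [Tree.leaves, List.filter_append, hnil r hr, List.append_nil]
          exact hl1
        · intro s' hs'
          obtain ⟨s, h1, h2⟩ := hl2 s' hs'
          exact ⟨s, IsSub.left _ _ h1, h2⟩
      · right
        have e : (Tree.node l' r').leaves =
            ((Tree.node l r).leaves.filter (fun v => decide (p v))).map c := by
          simp only [Tree.leaves, List.filter_append, List.map_append]
          rw [hl1, hr1]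
        refine ⟨.node l' r', e, ?_⟩
        intro s' hs'
        cases hs' with
        | refl => exact ⟨.node l r, IsSub.refl, e⟩
        | left _ _ h =>
          obtain ⟨s, h1, h2⟩ := hl2 s' h
          exact ⟨s, IsSub.left _ _ h1, h2⟩
        | right _ _ h =>
          obtain ⟨s, h1, h2⟩ := hr2 s' h
          exact ⟨s, IsSub.right _ _ h1, h2⟩

/-- The cut of the union of the classes with representatives in `S`. -/
theorem cut_cl95 (G : RotGraph V H) (k m M : ℕ)
    (hl : ∀ S ⊆ G.verts, m ≤ S.card → ¬ Lnk M G S)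
    (hdeg : ∀ v ∈ G.verts, scut G {v} ≤ k) (S : Finset V) (hS : scut G S ≤ k) (S' : Finset V)
    (hS' : ∀ u, u ∈ S' ↔ u ∈ G.verts ∧ rp95 G M u ∈ S) :
    cut G S' ≤ M * (k + (k * m * k + k * m * k)) := by
  set pr : H → V × V := fun h => (G.base h, G.base (G.opp h)) with hpr
  set Z : Finset V := ((bd G S).image pr).image (fun q => rp95 G M q.1) with hZ
  have hZc : Z.card ≤ k := Finset.card_image_le.trans hS
  set W : Finset V := Z.biUnion (fun z => cl95 G M z) with hW
  have hWc : W.card ≤ k * m := by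
    refine (Finset.card_biUnion_le_card_mul Z _ m fun z _ => (cl_card95 G m M hl z).le).trans ?_
    exact Nat.mul_le_mul_right m hZc
  have hWv : W ⊆ G.verts := by
    intro w hw
    rw [hW, Finset.mem_biUnion] at hw
    obtain ⟨z, -, hz⟩ := hw
    exact (mem_cl95.1 hz).1
  -- split classes
  have hsplit : ∀ x y, Relation.ReflTransGen (Th95 G M) x y → x ∈ S → y ∉ S →
      rp95 G M x ∈ Z := by
    intro x y hxy hx hy
    obtain ⟨a, b, h1, h2, h3, h4⟩ := chain_leave95 G M S hxy hx hy
    obtain ⟨h, hh⟩ := Finset.card_pos.1 (show 0 < mu95 G a b from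
      lt_of_le_of_lt (Nat.zero_le _) h2.2.2)
    rw [Finset.mem_filter] at hh
    rw [hZ, Finset.mem_image]
    refine ⟨pr h, Finset.mem_image_of_mem _ ?_, ?_⟩
    · unfold bd
      rw [Finset.mem_filter]
      exact ⟨hh.1, by rw [hh.2.1]; exact h3, by rw [hh.2.2]; exact h4⟩
    · simp only [hpr]
      rw [hh.2.1]
      exact (rp_eq95 G M h1).symm
  have hinW : ∀ x ∈ G.verts, (rp95 G M x ∈ S ∧ x ∉ S) ∨ (rp95 G M x ∉ S ∧ x ∈ S) → x ∈ W := by
    intro x hx h
    rw [hW, Finset.mem_biUnion]
    refine ⟨rp95 G M x, ?_, mem_cl95.2 ⟨hx, rfl⟩⟩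
    rcases h with ⟨h1, h2⟩ | ⟨h1, h2⟩
    · have := hsplit _ _ (rp_rel95 G M x) h1 h2
      rwa [rp_rp95] at this
    · exact hsplit _ _ (chain_symm95 G M (rp_rel95 G M x)) h2 h1
  have hsub : (bd G S').image pr ⊆ (bd G S).image pr ∪
      (W.biUnion (fun w => (bd G {w}).image pr) ∪
        W.biUnion (fun w => ((bd G {w}).image pr).image Prod.swap)) := by
    intro q hq
    rw [Finset.mem_image] at hq
    obtain ⟨h, hh, rfl⟩ := hq
    unfold bd at hh
    rw [Finset.mem_filter] at hh
    obtain ⟨h1, h2, h3⟩ := hh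
    have h4 := (hS' _).1 h2
    have h5 := G.base_mem _ (G.opp_mem h h1)
    have h6 : rp95 G M (G.base (G.opp h)) ∉ S := fun h7 => h3 ((hS' _).2 ⟨h5, h7⟩)
    have hne : G.base (G.opp h) ≠ G.base h := by
      intro h7
      rw [h7] at h3
      exact h3 h2
    rw [Finset.mem_union, Finset.mem_union, Finset.mem_biUnion, Finset.mem_biUnion]
    by_cases hx : G.base h ∈ S
    · by_cases hy : G.base (G.opp h) ∈ S
      · right; right
        refine ⟨G.base (G.opp h), hinW _ h5 (Or.inr ⟨h6, hy⟩), ?_⟩
        rw [Finset.mem_image]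
        refine ⟨pr (G.opp h), Finset.mem_image_of_mem _ ?_, ?_⟩
        · unfold bd
          rw [Finset.mem_filter, Finset.mem_singleton, Finset.mem_singleton, G.opp_opp h h1]
          exact ⟨G.opp_mem h h1, rfl, hne.symm⟩
        · simp only [hpr, G.opp_opp h h1, Prod.swap]
      · left
        refine Finset.mem_image_of_mem _ ?_
        unfold bd
        rw [Finset.mem_filter]
        exact ⟨h1, hx, hy⟩
    · right; left
      refine ⟨G.base h, hinW _ h4.1 (Or.inl ⟨h4.2, hx⟩), Finset.mem_image_of_mem _ ?_⟩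
      unfold bd
      rw [Finset.mem_filter, Finset.mem_singleton, Finset.mem_singleton]
      exact ⟨h1, rfl, hne⟩
  have hc1 : (W.biUnion (fun w => (bd G {w}).image pr)).card ≤ k * m * k := by
    refine (Finset.card_biUnion_le_card_mul W _ k fun w hw => hdeg w (hWv hw)).trans ?_
    exact Nat.mul_le_mul_right k hWc
  have hc2 : (W.biUnion (fun w => ((bd G {w}).image pr).image Prod.swap)).card ≤ k * m * k := by
    refine (Finset.card_biUnion_le_card_mul W _ k fun w hw =>
      Finset.card_image_le.trans (hdeg w (hWv hw))).trans ?_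
    exact Nat.mul_le_mul_right k hWc
  have hc : ((bd G S').image pr).card ≤ k + (k * m * k + k * m * k) := by
    refine (Finset.card_le_card hsub).trans ((Finset.card_union_le _ _).trans ?_)
    exact Nat.add_le_add hS ((Finset.card_union_le _ _).trans (Nat.add_le_add hc1 hc2))
  have hfib : ∀ q ∈ (bd G S').image pr, ((bd G S').filter (fun h => pr h = q)).card ≤ M := by
    intro q hq
    rw [Finset.mem_image] at hq
    obtain ⟨h, hh, rfl⟩ := hq
    unfold bd at hh
    rw [Finset.mem_filter] at hh
    obtain ⟨h1, h2, h3⟩ := hh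
    have h5 := G.base_mem _ (G.opp_mem h h1)
    by_contra hcon
    push Not at hcon
    have h6 : M < mu95 G (G.base h) (G.base (G.opp h)) := by
      refine hcon.trans_le (Finset.card_le_card ?_)
      intro g hg
      unfold bd at hg
      rw [Finset.mem_filter, Finset.mem_filter] at hg
      rw [Finset.mem_filter]
      have := hg.2
      simp only [hpr, Prod.mk.injEq] at this
      exact ⟨hg.1.1, this⟩
    have h7 : rp95 G M (G.base h) = rp95 G M (G.base (G.opp h)) :=
      rp_eq95 G M (Relation.ReflTransGen.single ⟨G.base_mem h h1, h5, h6⟩)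
    apply h3
    rw [hS'] at h2 ⊢
    exact ⟨h5, by rw [← h7]; exact h2.2⟩
  exact (Finset.card_le_mul_card_image (bd G S') M hfib).trans (Nat.mul_le_mul_left M hc)

/-- (C1) A tree of bags. -/
theorem c1_95 : StRe := by
  intro k m M
  refine ⟨max m (M * (k + (k * m * k + k * m * k))), fun V H G t ht hl => ?_⟩
  obtain ⟨hnd, hset, hw⟩ := ht
  have hmem : ∀ v, v ∈ t.leaves ↔ v ∈ G.verts := by
    intro v
    rw [← hset]
    exact (List.mem_toFinset).symm
  have hdeg : ∀ v ∈ G.verts, scut G {v} ≤ k := by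
    intro v hv
    have h1 : ∀ t : Tree V, v ∈ t.leaves → IsSub (.leaf v) t := by
      intro t
      induction t with
      | leaf u =>
        intro h
        simp only [Tree.leaves, List.mem_singleton] at h
        rw [h]
        exact IsSub.refl
      | node l r ihl ihr =>
        intro h
        simp only [Tree.leaves, List.mem_append] at h
        rcases h with h | h
        · exact IsSub.left _ _ (ihl h)
        · exact IsSub.right _ _ (ihr h)
    have h2 := hw _ (h1 t ((hmem v).2 hv))
    have h3 : (Tree.leaf v).set = {v} := by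
      simp [Tree.set, Tree.leaves]
    rwa [h3] at h2
  rcases bagTree95 (fun v => rp95 G M v = v) (cl95 G M) t with h | ⟨t', h1, h2⟩
  · exfalso
    have hne : ∃ v, v ∈ t.leaves := by
      clear hnd hset hw hmem hdeg h
      induction t with
      | leaf v => exact ⟨v, by simp [Tree.leaves]⟩
      | node l r ihl _ =>
        obtain ⟨v, hv⟩ := ihl
        exact ⟨v, by simp [Tree.leaves, hv]⟩
    obtain ⟨v, hv⟩ := hne
    exact h (rp95 G M v) ((hmem _).2 (rp_mem95 G M ((hmem v).1 hv))) (rp_rp95 G M v)
  · have hb : ∀ s' : Tree (Finset V), ∀ s : Tree V,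
        s'.leaves = (s.leaves.filter (fun v => decide (rp95 G M v = v))).map (cl95 G M) →
        ∀ u, u ∈ bset s' ↔ u ∈ G.verts ∧ rp95 G M u ∈ s.set := by
      intro s' s hs u
      unfold bset Tree.set
      rw [Finset.mem_sup]
      simp only [List.mem_toFinset, id]
      rw [hs]
      constructor
      · rintro ⟨B, hB, hu⟩
        rw [List.mem_map] at hB
        obtain ⟨v, hv, rfl⟩ := hB
        rw [List.mem_filter] at hv
        rw [mem_cl95] at hu
        exact ⟨hu.1, by rw [hu.2]; exact hv.1⟩
      · rintro ⟨hu, hv⟩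
        refine ⟨cl95 G M (rp95 G M u), ?_, mem_cl95.2 ⟨hu, rfl⟩⟩
        rw [List.mem_map]
        exact ⟨_, List.mem_filter.2 ⟨hv, by simp [rp_rp95]⟩, rfl⟩
    have hB : ∀ B ∈ t'.leaves, ∃ v ∈ G.verts, rp95 G M v = v ∧ B = cl95 G M v := by
      intro B hB
      rw [h1, List.mem_map] at hB
      obtain ⟨v, hv, rfl⟩ := hB
      rw [List.mem_filter] at hv
      exact ⟨v, (hmem v).1 hv.1, by simpa using hv.2, rfl⟩
    refine ⟨t', ?_, ?_, ?_, ?_, ?_⟩
    · rw [h1, List.pairwise_map]
      have h3 : (t.leaves.filter (fun v => decide (rp95 G M v = v))).Nodup := hnd.filter _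
      refine List.Pairwise.imp ?_ h3
      intro a b hab
      rw [Finset.disjoint_left]
      intro u hu hu'
      rw [mem_cl95] at hu hu'
      exact hab (hu.2.symm.trans hu'.2)
    · intro B hB'
      obtain ⟨v, hv, hv', rfl⟩ := hB B hB'
      exact ⟨v, mem_cl95.2 ⟨hv, hv'⟩⟩
    · intro B hB'
      obtain ⟨v, hv, hv', rfl⟩ := hB B hB'
      exact (cl_card95 G m M hl v).le.trans (le_max_left _ _)
    · ext u
      rw [hb t' t h1]
      constructor
      · exact fun h => h.1
      · intro h
        refine ⟨h, ?_⟩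
        rw [hset]
        exact rp_mem95 G M h
    · intro s' hs'
      obtain ⟨s, h3, h4⟩ := h2 s' hs'
      exact (cut_cl95 G k m M hl hdeg s.set (hw s h3) (bset s') (hb s' s h4)).trans
        (le_max_right _ _)

end RotWqo.Pl
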