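import Pool.Agent.Lib.MP_cb4a0f_co.Pl.Stmts

/-!
# MP_cb4a0f_co: a laminar family of small edge cuts (Gomory-Hu)

We minimise `C * cut G X + |X| * |V - X|` over the sets `X` that separate a given pair and avoid a
fixed vertex. The second summand makes the function strictly submodular, so that all these minimum
cuts are laminar.
-/

open Classical

namespace RotWqo.Pl

theorem cut_compl96 {V H : Type*} (G : RotGraph V H) (X : Finset V) :
    cut G (G.verts \ X) = cut G X := by
  have h : 2 * cut G (G.verts \ X) = 2 * cut G X := by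
    rw [two_cut, two_cut]
    refine Finset.sum_congr rfl fun h hh => ?_
    have h1 := G.base_mem h hh
    have h2 := G.base_mem _ (G.opp_mem h hh)
    by_cases h3 : G.base h ∈ X <;> by_cases h4 : G.base (G.opp h) ∈ X <;> simp [h1, h2, h3, h4]
  omega

/-- The function that is minimised. -/
noncomputable def dd96 {V H : Type*} (G : RotGraph V H) (X : Finset V) : ℕ :=
  (G.verts.card * G.verts.card + 1) * cut G X + X.card * (G.verts.card - X.card)

/-- `X` separates `a` and `b`. -/
def Sp96 {V : Type*} (X : Finset V) (a b : V) : Prop := ¬ (a ∈ X ↔ b ∈ X)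

theorem dd96_le {V H : Type*} (G : RotGraph V H) (X Z : Finset V) (hZ : Z ⊆ G.verts)
    (h : dd96 G X ≤ dd96 G Z) : cut G X ≤ cut G Z := by
  by_contra hc
  have hc' : cut G Z + 1 ≤ cut G X := by omega
  have h1 : Z.card * (G.verts.card - Z.card) ≤ G.verts.card * G.verts.card :=
    Nat.mul_le_mul (Finset.card_le_card hZ) (Nat.sub_le _ _)
  have h2 : (G.verts.card * G.verts.card + 1) * (cut G Z + 1) ≤
      (G.verts.card * G.verts.card + 1) * cut G X := Nat.mul_le_mul_left _ hc'
  rw [Nat.mul_add, Nat.mul_one] at h2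
  simp only [dd96] at h
  omega

theorem cross96 {V H : Type*} (G : RotGraph V H) (r : V) (hr : r ∈ G.verts) (X Y : Finset V)
    (hX : X ⊆ G.verts) (hY : Y ⊆ G.verts) (hrX : r ∉ X) (hrY : r ∉ Y) (h1 : ¬ X ⊆ Y)
    (h2 : ¬ Y ⊆ X) (h3 : ¬ Disjoint X Y) :
    dd96 G (X ∩ Y) + dd96 G (X ∪ Y) < dd96 G X + dd96 G Y ∧
    dd96 G (X \ Y) + dd96 G (Y \ X) < dd96 G X + dd96 G Y := by
  have p1 : 0 < (X ∩ Y).card := by
    rw [Finset.card_pos, Finset.nonempty_iff_ne_empty, Ne, ← Finset.disjoint_iff_inter_eq_empty]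
    exact h3
  have q1 : 0 < (X \ Y).card := by
    rw [Finset.card_pos]
    exact Finset.sdiff_nonempty.2 h1
  have r1 : 0 < (Y \ X).card := by
    rw [Finset.card_pos]
    exact Finset.sdiff_nonempty.2 h2
  have s1 : 0 < (G.verts \ (X ∪ Y)).card := by
    rw [Finset.card_pos]
    exact ⟨r, by simp [hr, hrX, hrY]⟩
  have e1 : X.card = (X ∩ Y).card + (X \ Y).card := (Finset.card_inter_add_card_sdiff X Y).symm
  have e2 : Y.card = (X ∩ Y).card + (Y \ X).card := by
    rw [Finset.inter_comm]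
    exact (Finset.card_inter_add_card_sdiff Y X).symm
  have e3 : (X ∪ Y).card = (X ∩ Y).card + (X \ Y).card + (Y \ X).card := by
    have := Finset.card_union_add_card_inter X Y
    omega
  have e4 : G.verts.card = (X ∩ Y).card + (X \ Y).card + (Y \ X).card +
      (G.verts \ (X ∪ Y)).card := by
    have h := Finset.card_sdiff_add_card_eq_card (Finset.union_subset hX hY)
    omega
  have c1 := cut_submod G X Y
  have c2 := cut_posimod G X Y
  have d1 := Nat.mul_le_mul_left (G.verts.card * G.verts.card + 1) c1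
  have d2 := Nat.mul_le_mul_left (G.verts.card * G.verts.card + 1) c2
  rw [Nat.mul_add, Nat.mul_add] at d1 d2
  have f1 : (X ∩ Y).card * (G.verts.card - (X ∩ Y).card) +
      (X ∪ Y).card * (G.verts.card - (X ∪ Y).card) <
      X.card * (G.verts.card - X.card) + Y.card * (G.verts.card - Y.card) := by
    rw [e1, e2, e3, e4]
    generalize (X ∩ Y).card = p at *
    generalize (X \ Y).card = q at *
    generalize (Y \ X).card = r' at *
    generalize (G.verts \ (X ∪ Y)).card = s at *
    have g1 : p + q + r' + s - p = q + r' + s := by omega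
    have g2 : p + q + r' + s - (p + q + r') = s := by omega
    have g3 : p + q + r' + s - (p + q) = r' + s := by omega
    have g4 : p + q + r' + s - (p + r') = q + s := by omega
    rw [g1, g2, g3, g4]
    have : 0 < q * r' := Nat.mul_pos q1 r1
    nlinarith
  have f2 : (X \ Y).card * (G.verts.card - (X \ Y).card) +
      (Y \ X).card * (G.verts.card - (Y \ X).card) <
      X.card * (G.verts.card - X.card) + Y.card * (G.verts.card - Y.card) := by
    rw [e1, e2, e4]
    generalize (X ∩ Y).card = p at *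
    generalize (X \ Y).card = q at *
    generalize (Y \ X).card = r' at *
    generalize (G.verts \ (X ∪ Y)).card = s at *
    have g1 : p + q + r' + s - q = p + r' + s := by omega
    have g2 : p + q + r' + s - r' = p + q + s := by omega
    have g3 : p + q + r' + s - (p + q) = r' + s := by omega
    have g4 : p + q + r' + s - (p + r') = q + s := by omega
    rw [g1, g2, g3, g4]
    have : 0 < p * s := Nat.mul_pos p1 s1
    nlinarith
  simp only [dd96]
  constructor <;> omega

/-- Minimum cuts among the sets without `r`. -/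
def Mn96 {V H : Type*} (G : RotGraph V H) (r : V) (X : Finset V) : Prop :=
  ∃ a b, Sp96 X a b ∧ ∀ Z ⊆ G.verts, r ∉ Z → Sp96 Z a b → dd96 G X ≤ dd96 G Z

theorem lam96 {V H : Type*} (G : RotGraph V H) (r : V) (hr : r ∈ G.verts) (X Y : Finset V)
    (hX : X ⊆ G.verts) (hY : Y ⊆ G.verts) (hrX : r ∉ X) (hrY : r ∉ Y) (mX : Mn96 G r X)
    (mY : Mn96 G r Y) : X ⊆ Y ∨ Y ⊆ X ∨ Disjoint X Y := by
  by_contra hcon
  push Not at hcon
  obtain ⟨h1, h2, h3⟩ := hcon
  obtain ⟨c1, c2⟩ := cross96 G r hr X Y hX hY hrX hrY h1 h2 h3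
  obtain ⟨a, b, s1, m1⟩ := mX
  obtain ⟨u, v, s2, m2⟩ := mY
  have sI : X ∩ Y ⊆ G.verts := fun x hx => hX (Finset.mem_inter.1 hx).1
  have sU : X ∪ Y ⊆ G.verts := Finset.union_subset hX hY
  have sD : X \ Y ⊆ G.verts := fun x hx => hX (Finset.mem_sdiff.1 hx).1
  have sE : Y \ X ⊆ G.verts := fun x hx => hY (Finset.mem_sdiff.1 hx).1
  have rI : r ∉ X ∩ Y := by simp [hrX]
  have rU : r ∉ X ∪ Y := by simp [hrX, hrY]
  have rD : r ∉ X \ Y := by simp [hrX]
  have rE : r ∉ Y \ X := by simp [hrY]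
  have a1 := m1 _ sI rI
  have a2 := m1 _ sU rU
  have a3 := m1 _ sD rD
  have a4 := m1 _ sE rE
  have a5 := m1 Y hY hrY
  have b1 := m2 _ sI rI
  have b2 := m2 _ sU rU
  have b3 := m2 _ sD rD
  have b4 := m2 _ sE rE
  have b5 := m2 X hX hrX
  clear m1 m2 sI sU sD sE rI rU rD rE h1 h2 h3
  simp only [Sp96, Finset.mem_inter, Finset.mem_union, Finset.mem_sdiff] at *
  by_cases k1 : a ∈ X <;> by_cases k2 : a ∈ Y <;> by_cases k3 : b ∈ X <;>
    simp only [k1, k2, k3, not_true, not_false_iff, true_and, false_and, and_true, and_false,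
      true_or, false_or, or_true, or_false, iff_true, iff_false, true_iff, false_iff,
      not_not, iff_self, false_imp_iff, true_imp_iff] at s1 a1 a2 a3 a4 a5 <;>
    by_cases k4 : b ∈ Y <;> by_cases k5 : u ∈ X <;> by_cases k6 : u ∈ Y <;>
    by_cases k7 : v ∈ X <;> by_cases k8 : v ∈ Y <;>
    simp [k4, k5, k6, k7, k8] at s2 a1 a2 a3 a4 a5 b1 b2 b3 b4 b5 <;> omega

theorem stGH_96 : StGH := by
  intro V H G M
  by_cases hW : G.verts.Nonempty
  swap
  · rw [Finset.not_nonempty_iff_eq_empty] at hW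
    exact ⟨∅, by simp, by simp, fun u hu => by simp [hW] at hu⟩
  obtain ⟨r, hr⟩ := hW
  refine ⟨G.verts.powerset.filter (fun X => r ∉ X ∧ cut G X < M ∧ Mn96 G r X), ?_, ?_, ?_⟩
  · intro X hX
    simp only [Finset.mem_filter, Finset.mem_powerset] at hX
    exact ⟨hX.1, hX.2.2.1⟩
  · intro X hX Y hY
    simp only [Finset.mem_filter, Finset.mem_powerset] at hX hY
    exact lam96 G r hr X Y hX.1 hY.1 hX.2.1 hY.2.1 hX.2.2.2 hY.2.2.2
  · rintro u hu v hv ⟨Z, hZ, huZ, hvZ, hcZ⟩
    obtain ⟨Z', hZ', hrZ', hsZ', hcZ'⟩ : ∃ Z' ⊆ G.verts, r ∉ Z' ∧ Sp96 Z' u v ∧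
        cut G Z' < M := by
      by_cases hrZ : r ∈ Z
      · refine ⟨G.verts \ Z, Finset.sdiff_subset, by simp [hrZ], ?_, ?_⟩
        · simp [Sp96, huZ, hvZ, hv]
        · rw [cut_compl96]
          exact hcZ
      · exact ⟨Z, hZ, hrZ, by simp [Sp96, huZ, hvZ], hcZ⟩
    obtain ⟨X, hX, hmin⟩ := Finset.exists_min_image
      (G.verts.powerset.filter (fun X => r ∉ X ∧ Sp96 X u v)) (dd96 G)
      ⟨Z', by simp only [Finset.mem_filter, Finset.mem_powerset]; exact ⟨hZ', hrZ', hsZ'⟩⟩
    simp only [Finset.mem_filter, Finset.mem_powerset] at hX hmin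
    have hle := dd96_le G X Z' hZ' (hmin Z' ⟨hZ', hrZ', hsZ'⟩)
    refine ⟨X, ?_, ?_⟩
    · simp only [Finset.mem_filter, Finset.mem_powerset]
      exact ⟨hX.1, hX.2.1, by omega, u, v, hX.2.2, fun Z h1 h2 h3 => hmin Z ⟨h1, h2, h3⟩⟩
    · have h := hX.2.2
      simp only [Sp96] at h
      by_cases h1 : u ∈ X <;> by_cases h2 : v ∈ X <;> simp_all

end RotWqo.Pl
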