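import Pool.Agent.Lib.MP_cb4a0f_co.Pl.Defs

/-!
# MP_cb4a0f_co: planar rotated graphs, statements of the modules
-/

open Classical

namespace RotWqo.Pl

open RotWqo.Bag RotWqo.Hk

universe w

/-! ### Thick graphs -/

/-- (A1) Thickening is monotone. -/
def StThk : Prop := ∀ (V V' H H' : Type) (G : RotGraph V H) (K : RotGraph V' H'),
  LE G K → LE (thk G) (thk K)

/-- (A2) An edge whose two sides are in different faces is routed along the other edges of one of
these faces. -/
def StFace : Prop := ∀ (V H : Type) (G : RotGraph V H) (d : H), d ∈ G.darts → fs G d ≠ d →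
  (∀ n, (fs G)^[n] d ≠ G.opp d) → LE G (thk (delE G d))

/-- (A3) A pendant edge (its leaf becomes the subdividing vertex of a neighbouring edge). -/
def StPend : Prop := ∀ (V H : Type) (G : RotGraph V H) (d a : H) (ha : a ∈ (delL G d).darts),
  d ∈ G.darts → G.rot (G.base d) = [d] → nx G a = G.opp d → LE G (thk (subE (delL G d) a ha))

/-- (A4) Subdivision is monotone. -/
def StSub : Prop := ∀ (V V' H H' : Type) (G : RotGraph V H) (K : RotGraph V' H') (a : H)
  (ha : a ∈ G.darts), LE G K → ∃ (x : H') (hx : x ∈ K.darts), LE (subE G a ha) (subE K x hx)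

/-- (A5) A subdivided thick path. -/
def StSubTP : Prop := ∀ (n N : ℕ) (x : ℕ × ℕ × Bool) (hx : x ∈ (TP n N).darts),
  LE (subE (TP n N) x hx) (TP (n + 1) N)

/-- (A6) A thickened thick path. -/
def StThkTP : Prop := ∀ n N : ℕ, LE (thk (TP n N)) (TP n (3 * N))

/-- (A7) One vertex, one loop, one edge. -/
def StBase : Prop := ∀ (V H : Type) (G : RotGraph V H),
  (G.verts.card = 1 → G.darts = ∅ → LE G (TP 1 0)) ∧
  (G.verts.card = 1 → G.darts.card = 2 → LE G (TP 2 2)) ∧
  (∀ d, G.verts.card = 2 → G.darts.card = 2 → d ∈ G.darts → G.base (G.opp d) ≠ G.base d →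
    LE G (TP 2 1))

/-- (A) Planar connected graphs embed in thick paths. -/
def StPath : Prop := ∀ (V H : Type) (G : RotGraph V H), Bld G → ∃ n N, LE G (TP n N)

/-! ### Euler's formula -/

/-- (E1) Deletion of an edge whose sides are in different faces. -/
def StFc1 : Prop := ∀ (V H : Type) (G : RotGraph V H) (d : H), d ∈ G.darts →
  Conn (delE G d) → (∀ n, (fs G)^[n] d ≠ G.opp d) → faces (delE G d) + 1 = faces G

/-- (E2) Deletion of an edge with the same face on both sides, which is not a bridge. -/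
def StFc2 : Prop := ∀ (V H : Type) (G : RotGraph V H) (d : H), d ∈ G.darts →
  Conn (delE G d) → (∃ n, (fs G)^[n] d = G.opp d) → faces G ≤ faces (delE G d)

/-- (E3) Deletion of a leaf. -/
def StFc3 : Prop := ∀ (V H : Type) (G : RotGraph V H) (d : H), d ∈ G.darts → Conn G →
  G.rot (G.base d) = [d] → faces (delL G d) = faces G

/-- (E4) Connected graphs without leaves have an edge which is not a bridge; deletion of a leaf
preserves connectivity. -/
def StCyc : Prop := ∀ (V H : Type) (G : RotGraph V H), Conn G →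
  (G.darts.Nonempty → (∀ d ∈ G.darts, G.rot (G.base d) ≠ [d]) →
    ∃ d ∈ G.darts, Conn (delE G d)) ∧
  ∀ d ∈ G.darts, G.rot (G.base d) = [d] → Conn (delL G d)

/-- (E) Connected planar graphs can be built. -/
def StEuler : Prop := ∀ (V H : Type) (G : RotGraph V H), PlanarC G → Bld G

/-! ### Hosts -/

/-- (B1) Selection: `r` disjoint blocks of `L` elements of `F` (in the order of `p`), each of one
colour, different blocks of different colours, and `y` is monotone in each block, in the same
direction for all of them. -/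
def StSel : Prop := ∀ r L : ℕ, 0 < L → ∃ m K : ℕ, ∀ (α β : Type) (F : Finset α) (p y : α → ℕ)
  (c : α → β) (S : Finset β), m ≤ S.card →
    (∀ b ∈ S, K ≤ (F.filter (fun a => c a = b)).card) → Set.InjOn p (F : Set α) →
    (∀ a ∈ F, ∀ a' ∈ F, c a = c a' → y a = y a' → a = a') →
    ∃ (w : ℕ → ℕ → α) (s : Bool),
      (∀ i < r, ∀ j < L, w i j ∈ F ∧ c (w i j) ∈ S ∧ c (w i j) = c (w i 0)) ∧
      (∀ i i', i < i' → i' < r → c (w i 0) ≠ c (w i' 0)) ∧
      (∀ i < r, ∀ j j', j < j' → j' < L →
        p (w i j) < p (w i j') ∧ lt s (y (w i j)) (y (w i j'))) ∧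
      ∀ i i' j j', i < i' → i' < r → j < L → j' < L → p (w i j) < p (w i' j')

/-- (B2) Many vertices pairwise joined by many edge-disjoint paths: a long thick path. -/
def StHost : Prop := ∀ n N : ℕ, ∃ m M : ℕ, ∀ (V H : Type) (G : RotGraph V H) (S : Finset V),
  S ⊆ G.verts → m ≤ S.card → Lnk M G S → LE (TP n N) G

/-! ### Structure -/

/-- (C1) A carving of the underlying simple graph gives a tree of bags, if there is no large highly
connected set. -/
def StRe : Prop := ∀ k m M : ℕ, ∃ K : ℕ, ∀ (V H : Type) (G : RotGraph V H) (t : Tree V),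
  IsSCar k G t → (∀ S ⊆ G.verts, m ≤ S.card → ¬ Lnk M G S) → ∃ t', IsBagTreeX K G t'

/-- (C2) Gomory-Hu: a laminar family of small edge cuts that separates every pair of vertices which
are separated by some small edge cut. -/
def StGH : Prop := ∀ (V H : Type) (G : RotGraph V H) (M : ℕ), ∃ T : Finset (Finset V),
  (∀ X ∈ T, X ⊆ G.verts ∧ cut G X < M) ∧
  (∀ X ∈ T, ∀ Y ∈ T, X ⊆ Y ∨ Y ⊆ X ∨ Disjoint X Y) ∧
  ∀ u ∈ G.verts, ∀ v ∈ G.verts, (∃ X ⊆ G.verts, u ∈ X ∧ v ∉ X ∧ cut G X < M) →
    ∃ X ∈ T, (u ∈ X ∧ v ∉ X) ∨ (v ∈ X ∧ u ∉ X)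

/-- (I) Immersions are embeddings. -/
def StImmLE : Prop := ∀ (V V' H H' : Type) (r : V → V' → Prop) (G : RotGraph V H)
  (K : RotGraph V' H'), Imm r G K → LE G K

/-- (S) Sharpness: thick paths are planar and highly connected. -/
def StSharp : Prop := ∀ m M : ℕ, ∃ (V H : Type) (G : RotGraph V H) (S : Finset V),
  PlanarC G ∧ S ⊆ G.verts ∧ S.card = m ∧ Lnk M G S

end RotWqo.Pl
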