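import Pool.Agent.Lib.MP_cb4a0f_co.Pl.Nx6
import Pool.Agent.Lib.MP_cb4a0f_co.Pl.Stmts

/-!
# MP_cb4a0f_co, row E4: connected rotated graphs and bridges
-/

open Classical

namespace RotWqo.Pl

section E4

variable {V H : Type*} {G : RotGraph V H}

theorem mem_darts_delE25 {d h : H} (hd : d ∈ G.darts) :
    h ∈ (delE G d).darts ↔ h ∈ G.darts ∧ h ≠ d ∧ h ≠ G.opp d := by
  simp only [delE, Finset.mem_filter]
  tauto

theorem mem_bd_delE25 {d h : H} (hd : d ∈ G.darts) {S : Finset V} :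
    h ∈ bd (delE G d) S ↔ h ∈ bd G S ∧ h ≠ d ∧ h ≠ G.opp d := by
  rw [mem_bd, mem_bd, mem_darts_delE25 hd]
  simp only [delE]
  tauto

theorem opp_mem_bd25 {h : H} {S : Finset V} :
    h ∈ bd G (G.verts \ S) → G.opp h ∈ bd G S := by
  intro hh
  rw [mem_bd] at hh ⊢
  obtain ⟨h1, h2, h3⟩ := hh
  rw [Finset.mem_sdiff] at h2 h3
  refine ⟨G.opp_mem h h1, ?_, ?_⟩
  · by_contra h4
    exact h3 ⟨G.base_mem _ (G.opp_mem h h1), h4⟩
  · rw [G.opp_opp h h1]
    exact h2.2

/-- A connected graph in which `d` is a bridge has a cut with boundary `d`. -/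
theorem exists_cut25 (hc : Conn G) {d : H} (hd : d ∈ G.darts) (hn : ¬ Conn (delE G d)) :
    ∃ S ⊆ G.verts, S ≠ G.verts ∧ bd G S = {d} := by
  have h1 : ∃ S ⊆ G.verts, S.Nonempty ∧ S ≠ G.verts ∧ bd (delE G d) S = ∅ := by
    by_contra h2
    push Not at h2
    refine hn ⟨hc.1, fun S hS hne hS' => ?_⟩
    have h3 := h2 S hS hne hS'
    exact Finset.card_pos.2 h3
  obtain ⟨S, hS, hne, hS', h2⟩ := h1
  have h3 : ∀ h ∈ bd G S, h = d ∨ h = G.opp d := by
    intro h hh
    by_contra h4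
    push Not at h4
    have : h ∈ bd (delE G d) S := (mem_bd_delE25 hd).2 ⟨hh, h4.1, h4.2⟩
    rw [h2] at this
    simp at this
  obtain ⟨h, hh⟩ := Finset.card_pos.1 (hc.2 S hS hne hS')
  have hno : ¬ (d ∈ bd G S ∧ G.opp d ∈ bd G S) := by
    rintro ⟨h4, h5⟩
    rw [mem_bd] at h4 h5
    exact h4.2.2 h5.2.1
  by_cases h4 : d ∈ bd G S
  · refine ⟨S, hS, hS', ?_⟩
    ext x
    rw [Finset.mem_singleton]
    constructor
    · intro hx
      rcases h3 x hx with h5 | h5
      · exact h5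
      · subst h5
        exact absurd ⟨h4, hx⟩ hno
    · rintro rfl
      exact h4
  · have h5 : G.opp d ∈ bd G S := by
      rcases h3 h hh with h5 | h5
      · rw [h5] at hh
        exact absurd hh h4
      · rw [← h5]
        exact hh
    refine ⟨G.verts \ S, Finset.sdiff_subset, ?_, ?_⟩
    · intro h6
      obtain ⟨x, hx⟩ := hne
      have : x ∈ G.verts \ S := by
        rw [h6]
        exact hS hx
      exact (Finset.mem_sdiff.1 this).2 hx
    · ext x
      rw [Finset.mem_singleton]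
      constructor
      · intro hx
        have h6 := opp_mem_bd25 hx
        have hxd : x ∈ G.darts := (mem_bd.1 hx).1
        rcases h3 _ h6 with h7 | h7
        · rw [h7] at h6
          exact absurd h6 h4
        · rw [← G.opp_opp x hxd, h7, G.opp_opp d hd]
      · rintro rfl
        rw [mem_bd] at h5 ⊢
        obtain ⟨h6, h7, h8⟩ := h5
        rw [G.opp_opp x hd] at h8
        refine ⟨hd, Finset.mem_sdiff.2 ⟨G.base_mem _ hd, h8⟩, ?_⟩
        rw [Finset.mem_sdiff]
        exact fun h9 => h9.2 h7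

theorem stCyc1_25 (hc : Conn G) (hne : G.darts.Nonempty)
    (hl : ∀ d ∈ G.darts, G.rot (G.base d) ≠ [d]) : ∃ d ∈ G.darts, Conn (delE G d) := by
  by_contra hcon
  push Not at hcon
  -- a minimal cut with one boundary half-edge
  have hex : ∃ n : ℕ, ∃ S ⊆ G.verts, S ≠ G.verts ∧ S.card = n ∧ ∃ d, d ∈ G.darts ∧ bd G S = {d} := by
    obtain ⟨d, hd⟩ := hne
    obtain ⟨S, h1, h2, h3⟩ := exists_cut25 hc hd (hcon d hd)
    exact ⟨_, S, h1, h2, rfl, d, hd, h3⟩
  obtain ⟨S, hS, hS', hcard, d, hd, hbd⟩ := Nat.find_spec hex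
  have hmin : ∀ X ⊆ G.verts, X ≠ G.verts → ∀ e ∈ G.darts, bd G X = {e} → S.card ≤ X.card := by
    intro X hX hX' e he hb
    rw [hcard]
    exact Nat.find_min' hex ⟨X, hX, hX', rfl, e, he, hb⟩
  have hdS : d ∈ bd G S := by rw [hbd]; simp
  obtain ⟨-, hvS, hoS⟩ := mem_bd.1 hdS
  -- another half-edge at the same vertex
  have hg : ∃ g ∈ G.rot (G.base d), g ≠ d := by
    by_contra h1
    push Not at h1
    apply hl d hd
    have h2 : d ∈ G.rot (G.base d) := mem_rot_base hd
    have h3 := G.nodup (G.base d)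
    cases hr : G.rot (G.base d) with
    | nil => rw [hr] at h2; simp at h2
    | cons a l =>
      cases l with
      | nil =>
        rw [hr] at h1
        rw [h1 a (by simp)]
      | cons b l =>
        rw [hr] at h1 h3
        have h4 := h1 a (by simp)
        have h5 := h1 b (by simp)
        rw [h4, h5] at h3
        simp at h3
  obtain ⟨g, hgr, hgd⟩ := hg
  obtain ⟨hgm, hgb⟩ := (G.mem_rot _ _).1 hgr
  by_cases hloop : G.base (G.opp g) = G.base g
  · -- a loop can be deleted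
    refine hcon g hgm ⟨hc.1, fun X hX hne hX' => ?_⟩
    obtain ⟨h, hh⟩ := Finset.card_pos.1 (hc.2 X hX hne hX')
    refine Finset.card_pos.2 ⟨h, (mem_bd_delE25 hgm).2 ⟨hh, ?_, ?_⟩⟩
    · rintro rfl
      rw [mem_bd] at hh
      exact hh.2.2 (by rw [hloop]; exact hh.2.1)
    · rintro rfl
      rw [mem_bd, G.opp_opp g hgm] at hh
      exact hh.2.2 (by rw [← hloop]; exact hh.2.1)
  · have huS : G.base (G.opp g) ∈ S := by
      by_contra h1
      have h2 : g ∈ bd G S := mem_bd.2 ⟨hgm, by rw [hgb]; exact hvS, h1⟩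
      rw [hbd, Finset.mem_singleton] at h2
      exact hgd h2
    have hog := G.opp_mem g hgm
    have hcon' : ¬ Conn (delE G (G.opp g)) := by
      have h1 : bd (delE G (G.opp g)) = bd (delE G g) := by
        funext X
        ext h
        rw [mem_bd_delE25 hog, mem_bd_delE25 hgm, G.opp_opp g hgm]
        tauto
      intro h2
      refine hcon g hgm ⟨hc.1, fun X hX hne hX' => ?_⟩
      have h3 := h2.2 X hX hne hX'
      unfold cut at h3 ⊢
      rw [← h1]
      exact h3
    obtain ⟨X, hX, hX', hbX⟩ := exists_cut25 hc hog hcon'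
    have hogX : G.opp g ∈ bd G X := by rw [hbX]; simp
    obtain ⟨-, huX, hvX⟩ := mem_bd.1 hogX
    rw [G.opp_opp g hgm, hgb] at hvX
    have hsub : X ⊆ S := by
      by_contra h1
      have h2 : (X \ S).Nonempty := Finset.sdiff_nonempty.2 h1
      have h3 : X \ S ≠ G.verts := by
        intro h4
        have h5 : G.base d ∈ X \ S := by
          rw [h4]
          exact G.base_mem d hd
        exact (Finset.mem_sdiff.1 h5).2 hvS
      obtain ⟨h, hh⟩ := Finset.card_pos.1 (hc.2 _ (Finset.sdiff_subset.trans hX) h2 h3)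
      obtain ⟨hhd, hh1, hh2⟩ := mem_bd.1 hh
      rw [Finset.mem_sdiff] at hh1 hh2
      by_cases h4 : G.base (G.opp h) ∈ X
      · have h5 : G.base (G.opp h) ∈ S := by
          by_contra h6
          exact hh2 ⟨h4, h6⟩
        have h6 : G.opp h ∈ bd G S := mem_bd.2 ⟨G.opp_mem h hhd, h5, by
          rw [G.opp_opp h hhd]
          exact hh1.2⟩
        rw [hbd, Finset.mem_singleton] at h6
        rw [h6] at h4
        exact hvX h4
      · have h5 : h ∈ bd G X := mem_bd.2 ⟨hhd, hh1.1, h4⟩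
        rw [hbX, Finset.mem_singleton] at h5
        rw [h5] at hh1
        exact hh1.2 huS
    have hlt : X.card < S.card := by
      refine Finset.card_lt_card ⟨hsub, fun h1 => hvX (h1 hvS)⟩
    exact absurd (hmin X hX hX' _ hog hbX) (by omega)

theorem verts_delL25 {d : H} (hd : d ∈ G.darts) (hr : G.rot (G.base d) = [d]) (w : V) :
    w ∈ (delL G d).verts ↔ w ∈ G.verts ∧ w ≠ G.base d := by
  have h1 : (delE G d).rot (G.base d) = [] := by
    simp [delE, hr, hd]
  simp only [delL, delV, Finset.mem_filter, h1, true_imp_iff]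
  rfl

theorem mem_darts_delL25 {d h : H} (hd : d ∈ G.darts) :
    h ∈ (delL G d).darts ↔ h ∈ G.darts ∧ h ≠ d ∧ h ≠ G.opp d :=
  mem_darts_delE25 hd

theorem mem_bd_delL25 {d h : H} (hd : d ∈ G.darts) {S : Finset V} :
    h ∈ bd (delL G d) S ↔ h ∈ bd G S ∧ h ≠ d ∧ h ≠ G.opp d := by
  rw [mem_bd, mem_bd, mem_darts_delL25 hd]
  simp only [delL, delV, delE]
  tauto

theorem base_opp_ne25 {d : H} (hd : d ∈ G.darts) (hr : G.rot (G.base d) = [d]) :
    G.base (G.opp d) ≠ G.base d := by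
  intro h1
  have h2 : G.opp d ∈ G.rot (G.base d) := (G.mem_rot _ _).2 ⟨G.opp_mem d hd, h1⟩
  rw [hr, List.mem_singleton] at h2
  exact G.opp_ne d hd h2

theorem stCyc2_25 (hc : Conn G) {d : H} (hd : d ∈ G.darts) (hr : G.rot (G.base d) = [d]) :
    Conn (delL G d) := by
  have hu := base_opp_ne25 hd hr
  refine ⟨⟨G.base (G.opp d), (verts_delL25 hd hr _).2 ⟨G.base_mem _ (G.opp_mem d hd), hu⟩⟩, ?_⟩
  intro S hS hne hS'
  have hvS : G.base d ∉ S := fun h1 => ((verts_delL25 hd hr _).1 (hS h1)).2 rfl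
  have hSG : S ⊆ G.verts := fun x hx => ((verts_delL25 hd hr _).1 (hS hx)).1
  obtain ⟨w, hw, hwS⟩ : ∃ w ∈ (delL G d).verts, w ∉ S := by
    by_contra h1
    push Not at h1
    exact hS' (Finset.Subset.antisymm hS h1)
  obtain ⟨hwG, hwd⟩ := (verts_delL25 hd hr _).1 hw
  by_cases hu' : G.base (G.opp d) ∈ S
  · have h1 : insert (G.base d) S ≠ G.verts := by
      intro h2
      rw [← h2, Finset.mem_insert] at hwG
      rcases hwG with h3 | h3
      · exact hwd h3
      · exact hwS h3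
    obtain ⟨h, hh⟩ := Finset.card_pos.1 (hc.2 (insert (G.base d) S)
      (Finset.insert_subset (G.base_mem d hd) hSG) (Finset.insert_nonempty _ _) h1)
    obtain ⟨hhd, hh1, hh2⟩ := mem_bd.1 hh
    rw [Finset.mem_insert, not_or] at hh2
    have hhne : h ≠ d := by
      rintro rfl
      exact hh2.2 hu'
    have hh1' : G.base h ∈ S := by
      rcases Finset.mem_insert.1 hh1 with h3 | h3
      · exfalso
        have h4 : h ∈ G.rot (G.base d) := (G.mem_rot _ _).2 ⟨hhd, h3⟩
        rw [hr, List.mem_singleton] at h4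
        exact hhne h4
      · exact h3
    refine Finset.card_pos.2 ⟨h, (mem_bd_delL25 hd).2 ⟨mem_bd.2 ⟨hhd, hh1', hh2.2⟩, hhne, ?_⟩⟩
    rintro rfl
    rw [G.opp_opp d hd] at hh2
    exact hh2.1 rfl
  · have h1 : S ≠ G.verts := by
      intro h2
      rw [h2] at hvS
      exact hvS (G.base_mem d hd)
    obtain ⟨h, hh⟩ := Finset.card_pos.1 (hc.2 S hSG hne h1)
    obtain ⟨hhd, hh1, hh2⟩ := mem_bd.1 hh
    refine Finset.card_pos.2 ⟨h, (mem_bd_delL25 hd).2 ⟨hh, ?_, ?_⟩⟩
    · rintro rfl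
      exact hvS hh1
    · rintro rfl
      exact hu' hh1

end E4

theorem stCyc_25 : StCyc := fun _ _ _ hc =>
  ⟨fun hne hl => stCyc1_25 hc hne hl, fun _ hd hr => stCyc2_25 hc hd hr⟩

end RotWqo.Pl
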