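import Pool.Agent.Lib.MP_cb4a0f_co.Pl.Stmts

/-!
# MP_cb4a0f_co: immersions are embeddings (row I)
-/

open Classical

namespace RotWqo.Pl

namespace I16

variable {V H V' H' : Type*}

theorem kr_id {K1 : RotGraph V H} (a : H) : GenAux.Kr K1 (id : H → H) a ↔ a ∈ K1.darts := by
  constructor
  · rintro ⟨h, hh, rfl⟩
    exact hh
  · intro h
    exact ⟨a, h, rfl⟩

theorem LE.rfl' (K : RotGraph V H) : LE K K :=
  ⟨id, PE.refl (fun _ _ => True) (fun _ => trivial) K K.verts⟩

/-- Deletions are embeddings. -/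
theorem LE.of_sub {K K1 : RotGraph V H} (hv : K1.verts ⊆ K.verts) (hd : K1.darts ⊆ K.darts)
    (hr : Restricts K K1) (ho : ∀ x ∈ K1.darts, K1.opp x = K.opp x) : LE K1 K := by
  refine LE.of_emb (f := id) (φ := id) (M := fun _ _ => False) ⟨fun v h => hv h,
    fun _ _ => trivial, Function.injective_id.injOn, fun _ _ h => h, fun _ _ _ h => h.elim,
    fun _ _ h => h.elim, fun _ _ h => h.elim, fun _ _ h => h.elim, fun h hh => hd hh,
    fun h hh => ?_, Function.injective_id.injOn, fun v _ => ?_, fun x _ => ?_, fun h hh => ?_⟩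
  · exact (hr.1 h hh).symm
  · rw [List.map_id, id, hr.2 v]
    have e : (K.rot v).filter (fun a => decide (GenAux.Kr K1 (id : H → H) a)) =
        (K.rot v).filter (fun x => decide (x ∈ K1.darts)) := by
      apply List.filter_congr
      intro a _
      have := kr_id (K1 := K1) a
      simp only [this]
    rw [e]
  · exact NC.done _ (fun a _ b h => h)
  · exact ⟨h, Run.refl h, (ho h hh).symm⟩

/-- Splitting off is an embedding. -/
theorem LE.of_split {K K1 : RotGraph V H} (h₁ h₂ : H) (l : List H) (hh : h₁ ∈ K.darts)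
    (hcons : K.rot (K.base h₁) ~r h₁ :: h₂ :: l)
    (hv : K1.verts = K.verts) (hd : K1.darts = (K.darts.erase h₁).erase h₂)
    (hr : Restricts K K1)
    (ho₁ : K1.opp (K.opp h₁) = K.opp h₂) (ho₂ : K1.opp (K.opp h₂) = K.opp h₁)
    (ho : ∀ x ∈ K1.darts, x ≠ K.opp h₁ → x ≠ K.opp h₂ → K1.opp x = K.opp x) : LE K1 K := by
  have hnd : (h₁ :: h₂ :: l).Nodup := hcons.nodup_iff.1 (K.nodup _)
  have hne : h₁ ≠ h₂ := by
    intro e
    rw [e] at hnd
    simp at hnd
  have hl1 : h₁ ∉ l := by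
    simp only [List.nodup_cons, List.mem_cons, not_or] at hnd
    exact hnd.1.2
  have hl2 : h₂ ∉ l := by
    simp only [List.nodup_cons, List.mem_cons, not_or] at hnd
    exact hnd.2.1
  have hm2 : h₂ ∈ K.darts ∧ K.base h₂ = K.base h₁ :=
    (K.mem_rot _ _).1 (hcons.mem_iff.2 (by simp))
  have hn1 : h₁ ∉ K1.darts := by
    rw [hd]
    simp
  have hn2 : h₂ ∉ K1.darts := by
    rw [hd]
    simp
  have hsub : K1.darts ⊆ K.darts := by
    rw [hd]
    exact (Finset.erase_subset _ _).trans (Finset.erase_subset _ _)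
  refine LE.of_emb (f := id) (φ := id)
    (M := fun a b => (a = h₁ ∧ b = h₂) ∨ (a = h₂ ∧ b = h₁)) ⟨fun v h => hv ▸ h,
    fun _ _ => trivial, Function.injective_id.injOn, ?_, ?_, ?_, ?_, ?_, fun h hh => hsub hh,
    fun h hh => (hr.1 h hh).symm, Function.injective_id.injOn, fun v _ => ?_, fun x _ => ?_,
    fun h hh' => ?_⟩
  · rintro a b (⟨h1, h2⟩ | ⟨h1, h2⟩)
    · exact Or.inr ⟨h2, h1⟩
    · exact Or.inl ⟨h2, h1⟩
  · rintro a b c (⟨h1, h2⟩ | ⟨h1, h2⟩) (⟨h3, h4⟩ | ⟨h3, h4⟩)
    · rw [h2, h4]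
    · exact absurd (h1.symm.trans h3) hne
    · exact absurd (h3.symm.trans h1) hne
    · rw [h2, h4]
  · rintro a b (⟨rfl, _⟩ | ⟨rfl, _⟩)
    · exact hh
    · exact hm2.1
  · rintro a b (⟨rfl, rfl⟩ | ⟨rfl, rfl⟩)
    · exact hm2.2
    · exact hm2.2.symm
  · rintro a b hab hK
    have := (kr_id (K1 := K1) a).1 hK
    rcases hab with ⟨rfl, _⟩ | ⟨rfl, _⟩
    · exact hn1 this
    · exact hn2 this
  · rw [List.map_id, id, hr.2 v]
    have e : (K.rot v).filter (fun a => decide (GenAux.Kr K1 (id : H → H) a)) =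
        (K.rot v).filter (fun x => decide (x ∈ K1.darts)) := by
      apply List.filter_congr
      intro a _
      have := kr_id (K1 := K1) a
      simp only [this]
    rw [e]
  · by_cases hx : x = K.base h₁
    · subst hx
      have e : (K.rot (K.base h₁)).filter (fun a => decide (GenAux.Kr K1 (id : H → H) a ∨
          ∃ b, (a = h₁ ∧ b = h₂) ∨ (a = h₂ ∧ b = h₁))) = K.rot (K.base h₁) := by
        rw [List.filter_eq_self]
        intro a ha
        rw [decide_eq_true_eq]
        by_cases h1 : a = h₁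
        · exact Or.inr ⟨h₂, Or.inl ⟨h1, rfl⟩⟩
        by_cases h2 : a = h₂
        · exact Or.inr ⟨h₁, Or.inr ⟨h2, rfl⟩⟩
        left
        rw [kr_id, hd, Finset.mem_erase, Finset.mem_erase]
        exact ⟨h2, h1, ((K.mem_rot _ _).1 ha).1⟩
      rw [e]
      refine NC.pair _ h₁ h₂ l hcons (Or.inl ⟨rfl, rfl⟩) (NC.done _ ?_)
      rintro a ha b (⟨rfl, _⟩ | ⟨rfl, _⟩)
      · exact hl1 ha
      · exact hl2 ha
    · refine NC.done _ ?_
      intro a ha b hab
      have h1 : a ∈ K.rot x := List.mem_of_mem_filter ha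
      have h2 := ((K.mem_rot _ _).1 h1).2
      rcases hab with ⟨rfl, _⟩ | ⟨rfl, _⟩
      · exact hx h2.symm
      · exact hx (h2.symm.trans hm2.2)
  · by_cases e1 : h = K.opp h₁
    · refine ⟨h₂, ?_, ?_⟩
      · refine Run.step _ h₂ _ ?_ (Run.refl _)
        left
        refine ⟨?_, rfl⟩
        show K.opp (id h) = h₁
        rw [id, e1, K.opp_opp _ hh]
      · rw [e1, id]
        exact ho₁.symm
    · by_cases e2 : h = K.opp h₂
      · refine ⟨h₁, ?_, ?_⟩
        · refine Run.step _ h₁ _ ?_ (Run.refl _)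
          right
          refine ⟨?_, rfl⟩
          show K.opp (id h) = h₂
          rw [id, e2, K.opp_opp _ hm2.1]
        · rw [e2, id]
          exact ho₂.symm
      · exact ⟨h, Run.refl h, (ho h hh' e1 e2).symm⟩

theorem LE.of_step {K K1 : RotGraph V H} (h : Step K K1) : LE K1 K := by
  cases h with
  | delEdge h hh hv hd hr ho =>
    refine LE.of_sub (by rw [hv]) ?_ hr ho
    rw [hd]
    exact (Finset.erase_subset _ _).trans (Finset.erase_subset _ _)
  | delVertex v hiso hv hd hr ho =>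
    refine LE.of_sub ?_ (by rw [hd]) hr ho
    rw [hv]
    exact Finset.erase_subset _ _
  | split h₁ h₂ l hh hcons hne hv hd hr ho₁ ho₂ ho =>
    exact LE.of_split h₁ h₂ l hh hcons hv hd hr ho₁ ho₂ ho

theorem LE.of_iso {r : V → V' → Prop} {G : RotGraph V H} {K : RotGraph V' H'}
    (h : IsoRel r G K) : LE G K := by
  obtain ⟨f, φ, hf, hφ, hb, hrot, -⟩ := h
  refine LE.of_emb (f := f) (φ := φ) (M := fun _ _ => False) ⟨fun v h => hf.mapsTo h,
    fun _ _ => trivial, hf.injOn, fun _ _ h => h, fun _ _ _ h => h.elim,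
    fun _ _ h => h.elim, fun _ _ h => h.elim, fun _ _ h => h.elim, fun h hh => hφ.mapsTo hh,
    fun h hh => (hb h hh).1, hφ.injOn, fun v hv => ?_, fun x _ => ?_, fun h hh => ?_⟩
  · have e : (K.rot (f v)).filter (fun a => decide (GenAux.Kr G φ a)) = K.rot (f v) := by
      rw [List.filter_eq_self]
      intro a ha
      rw [decide_eq_true_eq]
      have h1 : a ∈ (K.darts : Set H') := ((K.mem_rot _ _).1 ha).1
      obtain ⟨x, hx, rfl⟩ := hφ.surjOn h1
      exact ⟨x, hx, rfl⟩
    rw [e]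
    exact hrot v hv
  · exact NC.done _ (fun a _ b h => h)
  · exact ⟨φ h, Run.refl _, (hb h hh).2⟩

theorem LE.of_imm {r : V → V' → Prop} {G : RotGraph V H} {K : RotGraph V' H'}
    (h : Imm r G K) : LE G K := by
  obtain ⟨K1, hs, hi⟩ := h
  have h1 : LE K1 K := by
    clear hi
    induction hs with
    | refl => exact LE.rfl' K
    | tail _ hs ih => exact LE.trans (LE.of_step hs) ih
  exact LE.trans (LE.of_iso hi) h1

end I16

theorem I_16 : StImmLE := fun _ _ _ _ _ _ _ h => I16.LE.of_imm h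

end RotWqo.Pl
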