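import Pool.Agent.Lib.MP_cb4a0f_co.Pl.Stmts
import Pool.Agent.Lib.MP_cb4a0f_co.Pl.Nx6

/-! # MP_cb4a0f_co: planar rotated graphs, row S (thick paths are planar and highly connected) -/

open Classical

namespace RotWqo.Pl.S26

variable {V H : Type*}

/-- The next half-edge, from positions in the rotation. -/
theorem nx_at {G : RotGraph V H} {h g : H} {p : ℕ} (h1 : (G.rot (G.base h))[p]? = some h)
    (h2 : (G.rot (G.base h))[(p + 1) % (G.rot (G.base h)).length]? = some g) : nx G h = g := by
  unfold nx
  obtain ⟨hp, e1⟩ := List.getElem?_eq_some_iff.1 h1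
  have hi : (G.rot (G.base h)).idxOf h = p := by
    have h3 := (G.nodup (G.base h)).idxOf_getElem p hp
    rw [e1] at h3
    exact h3
  rw [hi, List.getD_eq_getElem?_getD, h2]
  rfl

theorem mem_K {n N : ℕ} {p : ℕ × ℕ × Bool} :
    p ∈ (TP n N).darts ↔ p.1 < n - 1 ∧ p.2.1 < N := by
  show p ∈ Finset.range (n - 1) ×ˢ Finset.range N ×ˢ Finset.univ ↔ _
  simp

/-- left half of the rotation -/
def LA (N v : ℕ) : List (ℕ × ℕ × Bool) := (List.range N).map (fun j => (v - 1, j, true))

/-- right half of the rotation -/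
def LB (N v : ℕ) : List (ℕ × ℕ × Bool) := (List.range N).reverse.map (fun j => (v, j, false))

theorem LA_len (N v : ℕ) : (LA N v).length = N := by simp [LA]

theorem LB_len (N v : ℕ) : (LB N v).length = N := by simp [LB]

theorem LA_get {N v j : ℕ} (h : j < N) : (LA N v)[j]? = some (v - 1, j, true) := by
  unfold LA
  rw [List.getElem?_map, List.getElem?_range h]
  rfl

theorem LB_get {N v j : ℕ} (h : j < N) : (LB N v)[N - 1 - j]? = some (v, j, false) := by
  unfold LB
  rw [List.getElem?_map, List.getElem?_reverse (by simp; omega), List.length_range,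
    List.getElem?_range (by omega)]
  simp only [Option.map_some, Option.some.injEq, Prod.mk.injEq, and_true, true_and]
  omega

theorem rot_eq (n N v : ℕ) : (TP n N).rot v = (if 0 < v ∧ v < n then LA N v else []) ++
    (if v + 1 < n then LB N v else []) := rfl

theorem rot_first {n N : ℕ} (h : 0 + 1 < n) : (TP n N).rot 0 = LB N 0 := by
  rw [rot_eq, if_neg (by omega), if_pos h]; rfl

theorem rot_mid {n N v : ℕ} (h0 : 0 < v) (h : v + 1 < n) :
    (TP n N).rot v = LA N v ++ LB N v := by
  rw [rot_eq, if_pos ⟨h0, by omega⟩, if_pos h]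

theorem rot_last {n N v : ℕ} (h0 : 0 < v) (h : v + 1 = n) : (TP n N).rot v = LA N v := by
  rw [rot_eq, if_pos ⟨h0, by omega⟩, if_neg (by omega), List.append_nil]

/-- inner faces, from the left half-edges -/
theorem fs_true_succ {n N i j : ℕ} (hi : i + 1 < n) (hj : j + 1 < N) :
    fs (TP n N) (i, j + 1, true) = (i, j, false) := by
  show nx (TP n N) (i, j + 1, false) = (i, j, false)
  rcases Nat.eq_zero_or_pos i with rfl | h0
  · apply nx_at (p := N - 1 - (j + 1))
    · show ((TP n N).rot 0)[N - 1 - (j + 1)]? = _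
      rw [rot_first hi, LB_get hj]
    · show ((TP n N).rot 0)[(N - 1 - (j + 1) + 1) % ((TP n N).rot 0).length]? = _
      rw [rot_first hi, LB_len, Nat.mod_eq_of_lt (by omega),
        show N - 1 - (j + 1) + 1 = N - 1 - j by omega, LB_get (by omega)]
  · apply nx_at (p := N + (N - 1 - (j + 1)))
    · show ((TP n N).rot i)[N + (N - 1 - (j + 1))]? = _
      rw [rot_mid h0 hi, List.getElem?_append_right (by rw [LA_len]; omega), LA_len,
        Nat.add_sub_cancel_left, LB_get hj]
    · show ((TP n N).rot i)[(N + (N - 1 - (j + 1)) + 1) % ((TP n N).rot i).length]? = _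
      rw [rot_mid h0 hi, List.length_append, LA_len, LB_len, Nat.mod_eq_of_lt (by omega),
        List.getElem?_append_right (by rw [LA_len]; omega), LA_len,
        show N + (N - 1 - (j + 1)) + 1 - N = N - 1 - j by omega, LB_get (by omega)]

/-- outer face, leftwards -/
theorem fs_true_zero {n N i : ℕ} (hi : i + 2 < n) (hN : 0 < N) :
    fs (TP n N) (i + 1, 0, true) = (i, 0, true) := by
  show nx (TP n N) (i + 1, 0, false) = (i, 0, true)
  apply nx_at (p := N + (N - 1))
  · show ((TP n N).rot (i + 1))[N + (N - 1)]? = _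
    rw [rot_mid (by omega) (by omega), List.getElem?_append_right (by rw [LA_len]; omega), LA_len,
      Nat.add_sub_cancel_left, show N - 1 = N - 1 - 0 by omega, LB_get hN]
  · show ((TP n N).rot (i + 1))[(N + (N - 1) + 1) % ((TP n N).rot (i + 1)).length]? = _
    rw [rot_mid (by omega) (by omega), List.length_append, LA_len, LB_len,
      show N + (N - 1) + 1 = N + N by omega, Nat.mod_self,
      List.getElem?_append_left (by rw [LA_len]; omega), LA_get hN]
    rfl

/-- outer face, left end -/
theorem fs_zero {n N : ℕ} (hn : 1 < n) (hN : 0 < N) :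
    fs (TP n N) (0, 0, true) = (0, N - 1, false) := by
  show nx (TP n N) (0, 0, false) = (0, N - 1, false)
  apply nx_at (p := N - 1)
  · show ((TP n N).rot 0)[N - 1]? = _
    rw [rot_first (by omega), show N - 1 = N - 1 - 0 by omega, LB_get hN]
  · show ((TP n N).rot 0)[(N - 1 + 1) % ((TP n N).rot 0).length]? = _
    rw [rot_first (by omega), LB_len, Nat.sub_add_cancel hN, Nat.mod_self]
    have := LB_get (N := N) (v := 0) (j := N - 1) (by omega)
    rwa [show N - 1 - (N - 1) = 0 by omega] at this

/-- inner faces, from the right half-edges -/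
theorem fs_false_lt {n N i j : ℕ} (hi : i + 1 < n) (hj : j + 1 < N) :
    fs (TP n N) (i, j, false) = (i, j + 1, true) := by
  show nx (TP n N) (i, j, true) = (i, j + 1, true)
  have hA : ∀ k, k < N → ((TP n N).rot (i + 1))[k]? = some (i, k, true) := by
    intro k hk
    rcases Nat.lt_or_ge (i + 1 + 1) n with h | h
    · rw [rot_mid (by omega) h, List.getElem?_append_left (by rw [LA_len]; omega), LA_get hk]
      rfl
    · rw [rot_last (by omega) (by omega), LA_get hk]
      rfl
  have hl : N ≤ ((TP n N).rot (i + 1)).length := by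
    rcases Nat.lt_or_ge (i + 1 + 1) n with h | h
    · rw [rot_mid (by omega) h, List.length_append, LA_len]; omega
    · rw [rot_last (by omega) (by omega), LA_len]
  apply nx_at (p := j)
  · show ((TP n N).rot (i + 1))[j]? = _
    exact hA j (by omega)
  · show ((TP n N).rot (i + 1))[(j + 1) % ((TP n N).rot (i + 1)).length]? = _
    rw [Nat.mod_eq_of_lt (by omega)]
    exact hA (j + 1) hj

/-- outer face, rightwards -/
theorem fs_false_last {n N i : ℕ} (hi : i + 2 < n) (hN : 0 < N) :
    fs (TP n N) (i, N - 1, false) = (i + 1, N - 1, false) := by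
  show nx (TP n N) (i, N - 1, true) = (i + 1, N - 1, false)
  apply nx_at (p := N - 1)
  · show ((TP n N).rot (i + 1))[N - 1]? = _
    rw [rot_mid (by omega) (by omega), List.getElem?_append_left (by rw [LA_len]; omega),
      LA_get (by omega)]
    rfl
  · show ((TP n N).rot (i + 1))[(N - 1 + 1) % ((TP n N).rot (i + 1)).length]? = _
    rw [rot_mid (by omega) (by omega), List.length_append, LA_len, LB_len,
      Nat.sub_add_cancel hN, Nat.mod_eq_of_lt (by omega),
      List.getElem?_append_right (by rw [LA_len]), LA_len, Nat.sub_self]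
    have := LB_get (N := N) (v := i + 1) (j := N - 1) (by omega)
    rwa [show N - 1 - (N - 1) = 0 by omega] at this

/-- outer face, right end -/
theorem fs_end {n N i : ℕ} (hi : i + 2 = n) (hN : 0 < N) :
    fs (TP n N) (i, N - 1, false) = (i, 0, true) := by
  show nx (TP n N) (i, N - 1, true) = (i, 0, true)
  apply nx_at (p := N - 1)
  · show ((TP n N).rot (i + 1))[N - 1]? = _
    rw [rot_last (by omega) (by omega), LA_get (by omega)]
    rfl
  · show ((TP n N).rot (i + 1))[(N - 1 + 1) % ((TP n N).rot (i + 1)).length]? = _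
    rw [rot_last (by omega) (by omega), LA_len, Nat.sub_add_cancel hN, Nat.mod_self, LA_get hN]
    rfl

/-- the invariant of a face -/
def rp (N : ℕ) (h : ℕ × ℕ × Bool) : Option (ℕ × ℕ) :=
  if h.2.2 then (if h.2.1 = 0 then none else some (h.1, h.2.1 - 1))
  else (if h.2.1 = N - 1 then none else some (h.1, h.2.1))

theorem rp_fs {n N : ℕ} {h : ℕ × ℕ × Bool} (hh : h ∈ (TP n N).darts) :
    rp N (fs (TP n N) h) = rp N h := by
  obtain ⟨i, j, b⟩ := h
  rw [mem_K] at hh
  obtain ⟨h1, h2⟩ := hh
  simp only at h1 h2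
  cases b
  · rcases Nat.lt_or_ge (j + 1) N with h | h
    · rw [fs_false_lt (by omega) h]
      simp only [rp, if_true, Bool.false_eq_true, if_false]
      rw [if_neg (by omega), if_neg (by omega)]
      rfl
    · obtain rfl : j = N - 1 := by omega
      rcases Nat.lt_or_ge (i + 2) n with h' | h'
      · rw [fs_false_last h' (by omega)]
        simp [rp]
      · rw [fs_end (by omega) (by omega)]
        simp [rp]
  · cases j with
    | zero =>
      cases i with
      | zero =>
        rw [fs_zero (by omega) (by omega)]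
        simp [rp]
      | succ i =>
        rw [fs_true_zero (by omega) (by omega)]
        simp [rp]
    | succ j =>
      rw [fs_true_succ (by omega) (by omega)]
      simp only [rp, if_true, Bool.false_eq_true, if_false]
      rw [if_neg (by omega), if_neg (by omega)]
      rfl

theorem rp_face {n N : ℕ} {h g : ℕ × ℕ × Bool} (hh : h ∈ (TP n N).darts)
    (hg : g ∈ face (TP n N) h) : rp N g = rp N h := by
  obtain ⟨-, k, rfl⟩ := mem_face.1 hg
  clear hg
  induction k with
  | zero => rfl
  | succ k ih =>
    rw [Function.iterate_succ_apply', rp_fs (fs_iter_mem hh k), ih]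

theorem face_fs {n N : ℕ} {h : ℕ × ℕ × Bool} (hh : h ∈ (TP n N).darts) :
    face (TP n N) (fs (TP n N) h) = face (TP n N) h :=
  face_eq_of_mem hh (mem_face.2 ⟨fs_mem hh, 1, rfl⟩)

/-- the representatives of the faces -/
noncomputable def Rp (n N : ℕ) : Finset (ℕ × ℕ × Bool) :=
  insert (0, 0, true) (Finset.range (n - 1) ×ˢ Finset.range (N - 1) ×ˢ {false})

theorem outer_true {n N : ℕ} (hN : 0 < N) : ∀ i, i + 1 < n →
    face (TP n N) (i, 0, true) = face (TP n N) (0, 0, true) := by
  intro i
  induction i with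
  | zero => intro _; rfl
  | succ i ih =>
    intro h
    rw [← ih (by omega), ← fs_true_zero (n := n) (i := i) (by omega) hN]
    exact (face_fs (mem_K.2 ⟨by show i + 1 < n - 1; omega, hN⟩)).symm

theorem outer_false {n N : ℕ} (hN : 0 < N) : ∀ i, i + 1 < n →
    face (TP n N) (i, N - 1, false) = face (TP n N) (0, 0, true) := by
  intro i
  induction i with
  | zero =>
    intro h
    rw [← fs_zero (n := n) (by omega) hN]
    exact face_fs (mem_K.2 ⟨by simp only; omega, hN⟩)
  | succ i ih =>
    intro h
    rw [← ih (by omega), ← fs_false_last (n := n) (i := i) (by omega) hN]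
    exact face_fs (mem_K.2 ⟨by show i < n - 1; omega, by show N - 1 < N; omega⟩)

theorem image_face {n N : ℕ} (hn : 1 < n) (hN : 0 < N) :
    (TP n N).darts.image (face (TP n N)) = (Rp n N).image (face (TP n N)) := by
  ext s
  simp only [Finset.mem_image]
  constructor
  · rintro ⟨⟨i, j, b⟩, hh, rfl⟩
    have hh' := hh
    rw [mem_K] at hh'
    obtain ⟨h1, h2⟩ := hh'
    simp only at h1 h2
    cases b
    · rcases Nat.lt_or_ge (j + 1) N with h | h
      · exact ⟨(i, j, false), Finset.mem_insert_of_mem (by simp; omega), rfl⟩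
      · obtain rfl : j = N - 1 := by omega
        exact ⟨(0, 0, true), Finset.mem_insert_self _ _, (outer_false hN i (by omega)).symm⟩
    · cases j with
      | zero => exact ⟨(0, 0, true), Finset.mem_insert_self _ _, (outer_true hN i (by omega)).symm⟩
      | succ j =>
        refine ⟨(i, j, false), Finset.mem_insert_of_mem (by simp; omega), ?_⟩
        rw [← fs_true_succ (n := n) (N := N) (by omega) h2]
        exact face_fs hh
  · rintro ⟨h, hh, rfl⟩
    refine ⟨h, ?_, rfl⟩
    rw [Rp, Finset.mem_insert] at hh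
    rcases hh with rfl | hh
    · exact mem_K.2 ⟨by simp only; omega, hN⟩
    · simp only [Finset.mem_product, Finset.mem_range, Finset.mem_singleton] at hh
      exact mem_K.2 ⟨hh.1, by omega⟩

theorem Rp_card {n N : ℕ} : (Rp n N).card = (n - 1) * (N - 1) + 1 := by
  rw [Rp, Finset.card_insert_of_notMem (by simp)]
  simp

theorem Rp_inj {n N : ℕ} (hn : 1 < n) (hN : 0 < N) :
    Set.InjOn (face (TP n N)) (Rp n N : Set (ℕ × ℕ × Bool)) := by
  intro h hh g hg he
  have hd : ∀ x ∈ Rp n N, x ∈ (TP n N).darts := by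
    intro x hx
    rw [Rp, Finset.mem_insert] at hx
    rcases hx with rfl | hx
    · exact mem_K.2 ⟨by simp only; omega, hN⟩
    · simp only [Finset.mem_product, Finset.mem_range, Finset.mem_singleton] at hx
      exact mem_K.2 ⟨hx.1, by omega⟩
  have h1 : rp N g = rp N h :=
    rp_face (hd h hh) (by rw [he]; exact mem_face_self (hd g hg))
  have key : ∀ x ∈ Rp n N, x = (0, 0, true) ∧ rp N x = none ∨
      rp N x = some (x.1, x.2.1) ∧ x.2.2 = false := by
    intro x hx
    rw [Rp, Finset.mem_insert] at hx
    rcases hx with rfl | hx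
    · left; simp [rp]
    · right
      obtain ⟨i, j, b⟩ := x
      simp only [Finset.mem_product, Finset.mem_range, Finset.mem_singleton] at hx
      obtain ⟨_, h2, rfl⟩ := hx
      simp only [rp, Bool.false_eq_true, if_false, and_true]
      rw [if_neg (by omega)]
  rcases key h hh with ⟨e1, e2⟩ | ⟨e2, e3⟩ <;> rcases key g hg with ⟨f1, f2⟩ | ⟨f2, f3⟩
  · rw [e1, f1]
  · rw [h1, e2] at f2; cases f2
  · rw [h1, e2] at f2; cases f2
  · rw [h1, e2] at f2
    simp only [Option.some.injEq, Prod.mk.injEq] at f2
    obtain ⟨i, j, b⟩ := h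
    obtain ⟨i', j', b'⟩ := g
    simp only at f2 e3 f3
    rw [f2.1, f2.2, e3, f3]

theorem faces_TP {n N : ℕ} (hn : 1 < n) (hN : 0 < N) :
    faces (TP n N) = (n - 1) * (N - 1) + 1 := by
  have h1 : faces (TP n N) = ((TP n N).darts.image (face (TP n N))).card := by
    unfold faces
    rw [if_neg]
    · congr 1
      · congr 1
        exact Subsingleton.elim _ _
    · rw [← ne_eq, ← Finset.nonempty_iff_ne_empty]
      exact ⟨(0, 0, true), mem_K.2 ⟨by show 0 < n - 1; omega, hN⟩⟩
  rw [h1, image_face hn hN, Finset.card_image_of_injOn (Rp_inj hn hN), Rp_card]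

/-- every cut of the thick path that separates two vertices has at least `N` edges -/
theorem cut_TP {n N : ℕ} {X : Finset ℕ} {u v : ℕ} (hu : u < n) (hv : v < n) (huX : u ∈ X)
    (hvX : v ∉ X) : N ≤ cut (TP n N) X := by
  obtain ⟨i, hi, hc⟩ : ∃ i, i + 1 < n ∧ ((i ∈ X ∧ i + 1 ∉ X) ∨ (i ∉ X ∧ i + 1 ∈ X)) := by
    by_contra hcon
    push Not at hcon
    have h1 : ∀ i, i < n → (i ∈ X ↔ 0 ∈ X) := by
      intro i
      induction i with
      | zero => intro _; rfl
      | succ i ih =>
        intro hi
        rw [← ih (by omega)]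
        obtain ⟨h2, h3⟩ := hcon i hi
        constructor
        · intro h4
          by_contra h5
          exact h3 h5 h4
        · exact h2
    exact hvX ((h1 v hv).2 ((h1 u hu).1 huX))
  have key : ∀ b : Bool, (if b then i + 1 else i) ∈ X → (if b then i else i + 1) ∉ X →
      N ≤ cut (TP n N) X := by
    intro b hb1 hb2
    have hsub : (Finset.range N).image (fun j => (i, j, b)) ⊆ bd (TP n N) X := by
      intro x hx
      rw [Finset.mem_image] at hx
      obtain ⟨j, hj, rfl⟩ := hx
      rw [Finset.mem_range] at hj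
      rw [mem_bd]
      refine ⟨mem_K.2 ⟨by simp only; omega, hj⟩, hb1, ?_⟩
      show (if (!b) = true then i + 1 else i) ∉ X
      cases b
      · exact hb2
      · exact hb2
    calc N = ((Finset.range N).image (fun j => (i, j, b))).card := by
          rw [Finset.card_image_of_injective _ (fun a c h => by simpa using h), Finset.card_range]
      _ ≤ _ := Finset.card_le_card hsub
  rcases hc with ⟨h1, h2⟩ | ⟨h1, h2⟩
  · exact key false h1 h2
  · exact key true h2 h1

theorem conn_TP {n N : ℕ} (hn : 0 < n) (hN : 0 < N) : Conn (TP n N) := by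
  refine ⟨⟨0, Finset.mem_range.2 hn⟩, fun S hS hne hS2 => ?_⟩
  obtain ⟨u, hu⟩ := hne
  obtain ⟨v, hv, hvS⟩ : ∃ v ∈ (TP n N).verts, v ∉ S := by
    by_contra hcon
    push Not at hcon
    exact hS2 (Finset.Subset.antisymm hS hcon)
  exact lt_of_lt_of_le hN
    (cut_TP (Finset.mem_range.1 (hS hu)) (Finset.mem_range.1 hv) hu hvS)

theorem planar_TP {n N : ℕ} (hn : 0 < n) (hN : 0 < N) : PlanarC (TP n N) := by
  refine ⟨conn_TP hn hN, ?_⟩
  have hV : (TP n N).verts.card = n := Finset.card_range n
  have hD : (TP n N).darts.card = (n - 1) * (N * 2) := by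
    show (Finset.range (n - 1) ×ˢ Finset.range N ×ˢ (Finset.univ : Finset Bool)).card = _
    simp
  rcases Nat.lt_or_ge 1 n with h | h
  · rw [hV, hD, faces_TP h hN]
    obtain ⟨k, rfl⟩ : ∃ k, n = k + 2 := ⟨n - 2, by omega⟩
    obtain ⟨l, rfl⟩ : ∃ l, N = l + 1 := ⟨N - 1, by omega⟩
    simp only [show k + 2 - 1 = k + 1 by omega, Nat.add_sub_cancel]
    ring
  · obtain rfl : n = 1 := by omega
    rw [hV, hD]
    have : (TP 1 N).darts = ∅ := by
      rw [← Finset.card_eq_zero, hD]
      simp
    unfold faces
    rw [if_pos this]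
    simp

theorem stSharp_26 : StSharp := by
  intro m M
  refine ⟨ℕ, ℕ × ℕ × Bool, TP (max m 1) (M + 1), Finset.range m, ?_, ?_, ?_, ?_⟩
  · exact planar_TP (by omega) (by omega)
  · intro x hx
    rw [Finset.mem_range] at hx
    exact Finset.mem_range.2 (by omega)
  · exact Finset.card_range m
  · rintro X hX ⟨u, hu, huX⟩ ⟨v, hv, hvX⟩
    rw [Finset.mem_range] at hu hv
    have := cut_TP (n := max m 1) (N := M + 1) (by omega) (by omega) huX hvX
    omega

end RotWqo.Pl.S26

namespace RotWqo.Pl

theorem S_26 : StSharp := S26.stSharp_26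

end RotWqo.Pl
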