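import Pool.Agent.Lib.MP_cb4a0f_co.Pl.Final6
import Pool.Agent.Lib.MP_cb4a0f_co.Pl.A1_2
import Pool.Agent.Lib.MP_cb4a0f_co.Pl.A2_7
import Pool.Agent.Lib.MP_cb4a0f_co.Pl.A3_28
import Pool.Agent.Lib.MP_cb4a0f_co.Pl.A4_96
import Pool.Agent.Lib.MP_cb4a0f_co.Pl.A5_96
import Pool.Agent.Lib.MP_cb4a0f_co.Pl.A6_26
import Pool.Agent.Lib.MP_cb4a0f_co.Pl.A7_44
import Pool.Agent.Lib.MP_cb4a0f_co.Pl.B1_95
import Pool.Agent.Lib.MP_cb4a0f_co.Pl.B2_96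
import Pool.Agent.Lib.MP_cb4a0f_co.Pl.C1_95
import Pool.Agent.Lib.MP_cb4a0f_co.Pl.C2_96
import Pool.Agent.Lib.MP_cb4a0f_co.Pl.E1_11
import Pool.Agent.Lib.MP_cb4a0f_co.Pl.E4_25
import Pool.Agent.Lib.MP_cb4a0f_co.Pl.E5_25
import Pool.Agent.Lib.MP_cb4a0f_co.Pl.I16
import Pool.Agent.Lib.MP_cb4a0f_co.Pl.S_26

/-!
# MP_cb4a0f_co: excluding a planar rotated graph, all modules
-/

open Classical

namespace RotWqo.Pl

theorem path_all : StPath :=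
  stPath_of stThk_2 stFace_7 A3_helper28 stSub_96 stSubTP_96 A6_26 a7_44

theorem euler_all : StEuler := stEuler_25 e1_11 e2_11 e3_11 stCyc_25

theorem host_all : StHost := stHost_96 b1_95

theorem gh_all : StGH := stGH_96

end RotWqo.Pl
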