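import Pool.Agent.Lib.MP_cb4a0f_co.Pl.Stmts
import Pool.Agent.Lib.MP_cb4a0f_co.Pl.A5_96
import Pool.Agent.Lib.MP_cb4a0f_co.Bag.UnivA
import Pool.Agent.Lib.MP_cb4a0f_co.Bag.FlowF

/-!
# MP_cb4a0f_co, Pl: row B2, hosts of thick paths
-/

open Classical

namespace RotWqo.Pl

open RotWqo.Bag

namespace B2x96

variable {V H : Type*}

/-! ### Lists -/

theorem nc_insert {M : H → H → Prop} {l l' : List H} {a b : H} (h : NC M (l ++ l'))
    (hM : M a b) : NC M (l ++ a :: b :: l') := by
  refine NC.pair _ a b (l' ++ l) ?_ hM (GenAux.nc_rot h List.isRotated_append)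
  have h1 := List.isRotated_append (l := l) (l' := a :: b :: l')
  simpa using h1

theorem nc_group {M : H → H → Prop} : ∀ (k : ℕ) (a b : ℕ → H) (l l' : List H),
    (∀ j < k, M (b j) (a j)) → NC M (l ++ l') →
    NC M (l ++ ((List.range k).reverse.map b ++ ((List.range k).map a ++ l'))) := by
  intro k
  induction k with
  | zero => intro a b l l' _ h; simpa using h
  | succ k ih =>
    intro a b l l' hM h
    have h1 := ih (fun j => a (j + 1)) (fun j => b (j + 1)) l l'
      (fun j hj => hM (j + 1) (by omega)) h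
    have e1 : (List.range (k + 1)).map a = a 0 :: (List.range k).map (fun j => a (j + 1)) := by
      rw [List.range_succ_eq_map]
      simp [Function.comp_def]
    have e2 : (List.range (k + 1)).reverse.map b =
        (List.range k).reverse.map (fun j => b (j + 1)) ++ [b 0] := by
      rw [List.range_succ_eq_map]
      simp [Function.comp_def]
    rw [e1, e2]
    rw [← List.append_assoc] at h1
    have h2 := nc_insert h1 (hM 0 (by omega))
    simpa using h2

theorem rev_map (N : ℕ) : (List.range N).reverse.map (fun j => 2 * N - 1 - j) =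
    (List.range N).map (fun j => N + j) := by
  apply List.ext_getElem
  · simp
  · intro i h1 h2
    simp only [List.length_map, List.length_reverse, List.length_range] at h1 h2
    simp only [List.getElem_map, List.getElem_reverse, List.getElem_range, List.length_range]
    omega

theorem rev_map' (N : ℕ) : (List.range N).map (fun j => N - 1 - j) = (List.range N).reverse := by
  apply List.ext_getElem
  · simp
  · intro i h1 h2
    simp only [List.length_map, List.length_reverse, List.length_range] at h1 h2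
    simp only [List.getElem_map, List.getElem_reverse, List.getElem_range, List.length_range]

/-! ### The system -/

/-- the selected trails -/
structure Sys (G : RotGraph V H) (x : V) (t : V → ℕ) (U T : Finset H) (M : H → H → Prop)
    (en : H → H) (n N : ℕ) (w : ℕ → ℕ → H) (f : ℕ → V) (s : Bool) : Prop where
  flow : Flow G G.verts x t U T M en
  mem : ∀ i < n, ∀ j < 2 * N + 1, w i j ∈ U ∧ G.base (w i j) = x
  col : ∀ i < n, ∀ j < 2 * N + 1, G.base (G.opp (en (w i j))) = f i
  f_ne : ∀ i i', i < i' → i' < n → f i ≠ f i'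
  ins : ∀ i < n, ∀ j j', j < j' → j' < 2 * N + 1 → pos G (w i j) < pos G (w i j') ∧
    lt s (pos G (G.opp (en (w i j)))) (pos G (G.opp (en (w i j'))))
  out : ∀ i i' j j', i < i' → i' < n → j < 2 * N + 1 → j' < 2 * N + 1 →
    pos G (w i j) < pos G (w i' j')

/-- the strands -/
def sg (s : Bool) (N j : ℕ) : ℕ := if s then j else N - 1 - j

theorem sg_lt {s : Bool} {N j : ℕ} (h : j < N) : sg s N j < N := by
  unfold sg
  split_ifs
  · exact h
  · omega

theorem sg_sg {s : Bool} {N j : ℕ} (h : j < N) : sg s N (sg s N j) = j := by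
  unfold sg
  split_ifs
  · rfl
  · omega

/-- the transitions -/
def mt (M : H → H → Prop) (n N : ℕ) (w : ℕ → ℕ → H) (a b : H) : Prop :=
  M a b ∨ ∃ i j, i + 1 < n ∧ j < N ∧ ((a = w i (2 * N - 1 - j) ∧ b = w (i + 1) j) ∨
    (b = w i (2 * N - 1 - j) ∧ a = w (i + 1) j))

/-- the half-edges -/
def fd (G : RotGraph V H) (en : H → H) (N : ℕ) (w : ℕ → ℕ → H) (s : Bool) (d : ℕ × ℕ × Bool) :
    H :=
  if d.2.2 then G.opp (en (w (d.1 + 1) (sg s N d.2.1)))
  else G.opp (en (w d.1 (2 * N - 1 - sg s N d.2.1)))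

namespace Sys

variable {G : RotGraph V H} {x : V} {t : V → ℕ} {U T : Finset H} {M : H → H → Prop}
  {en : H → H} {n N : ℕ} {w : ℕ → ℕ → H} {f : ℕ → V} {s : Bool}
  (S : Sys G x t U T M en n N w f s)

include S

theorem wdart {i j : ℕ} (hi : i < n) (hj : j < 2 * N + 1) : w i j ∈ G.darts :=
  (S.flow.U_mem _ (S.mem i hi j hj).1).1

theorem gT {i j : ℕ} (hi : i < n) (hj : j < 2 * N + 1) : G.opp (en (w i j)) ∈ T := by
  obtain ⟨h1, h2⟩ := S.mem i hi j hj
  rcases (S.flow.run _ h1 h2).2 with h3 | h3
  · exact absurd h3 (not_mem_bd_verts G _)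
  · exact h3

theorem gdart {i j : ℕ} (hi : i < n) (hj : j < 2 * N + 1) : G.opp (en (w i j)) ∈ G.darts :=
  (S.flow.U_mem _ (S.flow.T_sub (S.gT hi hj))).1

theorem f_mem {i : ℕ} (hi : i < n) : f i ∈ G.verts := by
  rw [← S.col i hi 0 (by omega)]
  exact G.base_mem _ (S.gdart hi (by omega))

theorem f_nex {i : ℕ} (hi : i < n) : f i ≠ x := by
  rw [← S.col i hi 0 (by omega)]
  exact S.flow.T_x _ (S.gT hi (by omega))

theorem f_inj {i i' : ℕ} (hi : i < n) (hi' : i' < n) (h : f i = f i') : i = i' := by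
  rcases Nat.lt_trichotomy i i' with h1 | h1 | h1
  · exact absurd h (S.f_ne i i' h1 hi')
  · exact h1
  · exact absurd h.symm (S.f_ne i' i h1 hi)

theorem g_inj {i i' j j' : ℕ} (hi : i < n) (hi' : i' < n) (hj : j < 2 * N + 1)
    (hj' : j' < 2 * N + 1) (h : G.opp (en (w i j)) = G.opp (en (w i' j'))) :
    i = i' ∧ j = j' := by
  have h1 : i = i' := by
    apply S.f_inj hi hi'
    rw [← S.col i hi j hj, ← S.col i' hi' j' hj', h]
  subst h1
  refine ⟨rfl, ?_⟩
  rcases Nat.lt_trichotomy j j' with h1 | h1 | h1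
  · have h2 := (S.ins i hi j j' h1 hj').2
    rw [h] at h2
    cases s <;> simp [lt] at h2
  · exact h1
  · have h2 := (S.ins i hi j' j h1 hj).2
    rw [h] at h2
    cases s <;> simp [lt] at h2

theorem w_lt {i i' j j' : ℕ} (hi' : i' < n) (hj : j < 2 * N + 1)
    (hj' : j' < 2 * N + 1) (h : i < i' ∨ (i = i' ∧ j < j')) :
    pos G (w i j) < pos G (w i' j') := by
  rcases h with h | ⟨rfl, h⟩
  · exact S.out i i' j j' h hi' hj hj'
  · exact (S.ins i hi' j j' h hj').1

theorem w_inj {i i' j j' : ℕ} (hi : i < n) (hi' : i' < n) (hj : j < 2 * N + 1)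
    (hj' : j' < 2 * N + 1) (h : w i j = w i' j') : i = i' ∧ j = j' := by
  by_contra h1
  have h2 : (i < i' ∨ (i = i' ∧ j < j')) ∨ (i' < i ∨ (i' = i ∧ j' < j)) := by omega
  rcases h2 with h2 | h2
  · have h3 := S.w_lt hi' hj hj' h2
    rw [h] at h3
    exact lt_irrefl _ h3
  · have h3 := S.w_lt hi hj' hj h2
    rw [h] at h3
    exact lt_irrefl _ h3

theorem mt_symm {a b : H} (h : mt M n N w a b) : mt M n N w b a := by
  rcases h with h | ⟨i, j, h1, h2, h3⟩
  · exact Or.inl (S.flow.M_symm _ _ h)
  · exact Or.inr ⟨i, j, h1, h2, h3.symm⟩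

theorem mt_mem {a b : H} (h : mt M n N w a b) : a ∈ U ∧ a ∉ T ∧ G.base b = G.base a := by
  have hT : ∀ i < n, ∀ j < 2 * N + 1, w i j ∉ T := fun i hi j hj h =>
    S.flow.T_x _ h (S.mem i hi j hj).2
  rcases h with h | ⟨i, j, h1, h2, ⟨rfl, rfl⟩ | ⟨rfl, rfl⟩⟩
  · obtain ⟨h1, h2, -, h3⟩ := S.flow.M_mem _ _ h
    exact ⟨h1, h2, h3⟩
  · refine ⟨(S.mem i (by omega) _ (by omega)).1, hT i (by omega) _ (by omega), ?_⟩
    rw [(S.mem i (by omega) _ (by omega)).2, (S.mem (i + 1) h1 j (by omega)).2]
  · refine ⟨(S.mem (i + 1) h1 _ (by omega)).1, hT (i + 1) h1 _ (by omega), ?_⟩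
    rw [(S.mem i (by omega) _ (by omega)).2, (S.mem (i + 1) h1 j (by omega)).2]

theorem mt_x {a b : H} (h : mt M n N w a b) (ha : G.base a = x) :
    ∃ i j, i + 1 < n ∧ j < N ∧ ((a = w i (2 * N - 1 - j) ∧ b = w (i + 1) j) ∨
    (b = w i (2 * N - 1 - j) ∧ a = w (i + 1) j)) := by
  rcases h with h | h
  · exact absurd ha (S.flow.M_mem _ _ h).2.2.1
  · exact h

theorem mt_nx {a b : H} (h : mt M n N w a b) (ha : G.base a ≠ x) : M a b := by
  rcases h with h | ⟨i, j, h1, h2, ⟨rfl, rfl⟩ | ⟨rfl, rfl⟩⟩
  · exact h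
  · exact absurd (S.mem i (by omega) _ (by omega)).2 ha
  · exact absurd (S.mem (i + 1) h1 _ (by omega)).2 ha

theorem mt_fun {a b c : H} (h : mt M n N w a b) (h' : mt M n N w a c) : b = c := by
  by_cases ha : G.base a = x
  · obtain ⟨i, j, h1, h2, h3⟩ := S.mt_x h ha
    obtain ⟨i', j', h1', h2', h3'⟩ := S.mt_x h' ha
    rcases h3 with ⟨h3, rfl⟩ | ⟨rfl, h3⟩ <;> rcases h3' with ⟨h3', rfl⟩ | ⟨rfl, h3'⟩
    · rw [h3] at h3'
      obtain ⟨rfl, h5⟩ := S.w_inj (by omega) (by omega) (by omega) (by omega) h3'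
      obtain rfl : j = j' := by omega
      rfl
    · rw [h3] at h3'
      obtain ⟨rfl, h5⟩ := S.w_inj (by omega) (by omega) (by omega) (by omega) h3'
      omega
    · rw [h3] at h3'
      obtain ⟨h4, h5⟩ := S.w_inj (by omega) (by omega) (by omega) (by omega) h3'
      omega
    · rw [h3] at h3'
      obtain ⟨h4, rfl⟩ := S.w_inj (by omega) (by omega) (by omega) (by omega) h3'
      obtain rfl : i = i' := by omega
      rfl
  · exact S.flow.M_fun _ _ _ (S.mt_nx h ha) (S.mt_nx h' ha)

theorem fd_T {d : ℕ × ℕ × Bool} (hd : d ∈ (TP n N).darts) : fd G en N w s d ∈ T := by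
  obtain ⟨h1, h2⟩ := A5x96.mem_TP.1 hd
  have h3 := sg_lt (s := s) h2
  unfold fd
  split_ifs
  · exact S.gT (by omega) (by omega)
  · exact S.gT (by omega) (by omega)

theorem fd_base {d : ℕ × ℕ × Bool} (hd : d ∈ (TP n N).darts) :
    G.base (fd G en N w s d) = f ((TP n N).base d) := by
  obtain ⟨h1, h2⟩ := A5x96.mem_TP.1 hd
  have h3 := sg_lt (s := s) h2
  obtain ⟨i, j, b⟩ := d
  simp only at h1 h2 h3
  cases b
  · exact S.col i (by omega) (2 * N - 1 - sg s N j) (by omega)
  · exact S.col (i + 1) (by omega) (sg s N j) (by omega)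

theorem fd_inj {d d' : ℕ × ℕ × Bool} (hd : d ∈ (TP n N).darts) (hd' : d' ∈ (TP n N).darts)
    (h : fd G en N w s d = fd G en N w s d') : d = d' := by
  obtain ⟨h1, h2⟩ := A5x96.mem_TP.1 hd
  obtain ⟨h1', h2'⟩ := A5x96.mem_TP.1 hd'
  have h3 := sg_lt (s := s) h2
  have h3' := sg_lt (s := s) h2'
  have h4 := sg_sg (s := s) h2
  have h4' := sg_sg (s := s) h2'
  obtain ⟨i, j, b⟩ := d
  obtain ⟨i', j', b'⟩ := d'
  simp only at h1 h2 h3 h1' h2' h3' h4 h4'
  cases b <;> cases b' <;>
    simp only [fd, Bool.false_eq_true, if_true, if_false] at h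
  · obtain ⟨rfl, h6⟩ := S.g_inj (by omega) (by omega) (by omega) (by omega) h
    have h7 : sg s N j = sg s N j' := by omega
    rw [← h4, ← h4', h7]
  · obtain ⟨h5, h6⟩ := S.g_inj (by omega) (by omega) (by omega) (by omega) h
    omega
  · obtain ⟨h5, h6⟩ := S.g_inj (by omega) (by omega) (by omega) (by omega) h
    omega
  · obtain ⟨h5, h6⟩ := S.g_inj (by omega) (by omega) (by omega) (by omega) h
    obtain rfl : i = i' := by omega
    rw [← h4, ← h4', h6]

/-- the used positions of a block -/
def ps (n N v : ℕ) : List ℕ :=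
  (if 0 < v then List.range N else []) ++ (if v + 1 < n then (List.range N).map (fun j => N + j)
    else [])

omit S in
theorem mem_ps {v p : ℕ} : p ∈ ps n N v ↔ (0 < v ∧ p < N) ∨
    (v + 1 < n ∧ N ≤ p ∧ p < 2 * N) := by
  unfold ps
  rw [List.mem_append]
  constructor
  · rintro (h | h)
    · split_ifs at h with h1
      · exact Or.inl ⟨h1, List.mem_range.1 h⟩
      · simp at h
    · split_ifs at h with h1
      · rw [List.mem_map] at h
        obtain ⟨j, h2, rfl⟩ := h
        rw [List.mem_range] at h2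
        exact Or.inr ⟨h1, by omega, by omega⟩
      · simp at h
  · rintro (⟨h1, h2⟩ | ⟨h1, h2, h3⟩)
    · left
      rw [if_pos h1]
      exact List.mem_range.2 h2
    · right
      rw [if_pos h1, List.mem_map]
      exact ⟨p - N, List.mem_range.2 (by omega), by omega⟩

omit S in
theorem ps_sorted (v : ℕ) : (ps n N v).Pairwise (fun a b => a < b) := by
  unfold ps
  rw [List.pairwise_append]
  refine ⟨?_, ?_, ?_⟩
  · split_ifs
    · exact List.pairwise_lt_range
    · exact List.Pairwise.nil
  · split_ifs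
    · rw [List.pairwise_map]
      exact List.pairwise_lt_range.imp (fun h => by omega)
    · exact List.Pairwise.nil
  · intro a ha b hb
    split_ifs at ha hb with h1 h2
    · rw [List.mem_range] at ha
      rw [List.mem_map] at hb
      obtain ⟨j, -, rfl⟩ := hb
      omega
    · simp at hb
    · simp at ha
    · simp at ha

/-- the image of the rotation of a vertex of the thick path -/
theorem map_rot {v : ℕ} (hv : v < n) : ((TP n N).rot v).map (fd G en N w s) =
    (if s then (ps n N v).map (fun p => G.opp (en (w v p)))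
      else ((if 0 < v then (List.range N).reverse else []) ++
        (if v + 1 < n then ((List.range N).map (fun j => N + j)).reverse else [])).map
        (fun p => G.opp (en (w v p)))) := by
  have e1 : (if 0 < v ∧ v < n then (List.range N).map (fun j => (v - 1, j, true)) else
      ([] : List (ℕ × ℕ × Bool))).map (fd G en N w s) =
      (if 0 < v then (if s then List.range N else (List.range N).reverse) else []).map
        (fun p => G.opp (en (w v p))) := by
    by_cases h : 0 < v
    · rw [if_pos ⟨h, hv⟩, if_pos h, List.map_map]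
      have h1 : v - 1 + 1 = v := by omega
      cases s
      · simp only [Bool.false_eq_true, if_false]
        rw [← rev_map', List.map_map]
        refine List.map_congr_left fun j _ => ?_
        simp only [Function.comp, fd, if_true, sg, Bool.false_eq_true, if_false, h1]
      · simp only [if_true]
        refine List.map_congr_left fun j _ => ?_
        simp only [Function.comp, fd, if_true, sg, h1]
    · rw [if_neg (by omega), if_neg h]
      rfl
  have e2 : (if v + 1 < n then (List.range N).reverse.map (fun j => (v, j, false)) else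
      ([] : List (ℕ × ℕ × Bool))).map (fd G en N w s) =
      (if v + 1 < n then (if s then (List.range N).map (fun j => N + j) else
        ((List.range N).map (fun j => N + j)).reverse) else []).map
        (fun p => G.opp (en (w v p))) := by
    by_cases h : v + 1 < n
    · rw [if_pos h, if_pos h, List.map_map]
      cases s
      · simp only [Bool.false_eq_true, if_false]
        rw [← List.map_reverse, List.map_map]
        refine List.map_congr_left fun j hj => ?_
        rw [List.mem_reverse, List.mem_range] at hj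
        simp only [Function.comp, fd, Bool.false_eq_true, if_false, sg]
        congr 4
        omega
      · simp only [if_true]
        rw [← rev_map, List.map_map]
        refine List.map_congr_left fun j _ => ?_
        simp only [Function.comp, fd, Bool.false_eq_true, if_false, sg, if_true]
    · rw [if_neg h, if_neg h]
      rfl
  have e3 : (TP n N).rot v = (if 0 < v ∧ v < n then (List.range N).map
      (fun j => (v - 1, j, true)) else []) ++ (if v + 1 < n then (List.range N).reverse.map
      (fun j => (v, j, false)) else []) := rfl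
  rw [e3, List.map_append, e1, e2, ← List.map_append]
  cases s
  · simp only [Bool.false_eq_true, if_false]
  · simp only [if_true, ps]

theorem kr_iff {v : ℕ} (hv : v < n) (h : H) :
    (h ∈ G.rot (f v) ∧ GenAux.Kr (TP n N) (fd G en N w s) h) ↔
      ∃ p ∈ ps n N v, G.opp (en (w v p)) = h := by
  constructor
  · rintro ⟨h1, d, hd, rfl⟩
    have h2 := ((G.mem_rot _ _).1 h1).2
    rw [S.fd_base hd] at h2
    obtain ⟨h3, h4⟩ := A5x96.mem_TP.1 hd
    have h5 := sg_lt (s := s) h4
    obtain ⟨i, j, b⟩ := d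
    simp only at h3 h4 h5
    cases b
    · have h6 : f i = f v := h2
      obtain rfl := S.f_inj (by omega) hv h6
      exact ⟨2 * N - 1 - sg s N j, mem_ps.2 (Or.inr ⟨by omega, by omega, by omega⟩), rfl⟩
    · have h6 : f (i + 1) = f v := h2
      obtain rfl := S.f_inj (by omega) hv h6
      exact ⟨sg s N j, mem_ps.2 (Or.inl ⟨by omega, h5⟩), rfl⟩
  · rintro ⟨p, hp, rfl⟩
    rcases mem_ps.1 hp with ⟨h1, h2⟩ | ⟨h1, h2, h3⟩
    · refine ⟨(G.mem_rot _ _).2 ⟨S.gdart hv (by omega), S.col v hv _ (by omega)⟩,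
        (v - 1, sg s N p, true), A5x96.mem_TP.2 ⟨by simp only; omega, sg_lt h2⟩, ?_⟩
      have h4 : v - 1 + 1 = v := by omega
      simp only [fd, if_true, sg_sg h2, h4]
    · refine ⟨(G.mem_rot _ _).2 ⟨S.gdart hv (by omega), S.col v hv _ (by omega)⟩,
        (v, sg s N (2 * N - 1 - p), false), A5x96.mem_TP.2 ⟨by simp only; omega,
        sg_lt (by omega)⟩, ?_⟩
      have h4 : 2 * N - 1 - (2 * N - 1 - p) = p := by omega
      simp only [fd, Bool.false_eq_true, if_false,
        sg_sg (s := s) (show 2 * N - 1 - p < N by omega), h4]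

theorem rot_eq {v : ℕ} (hv : v < n) :
    (G.rot (f v)).filter (fun a => GenAux.Kr (TP n N) (fd G en N w s) a) ~r
      ((TP n N).rot v).map (fd G en N w s) := by
  rw [S.map_rot hv]
  have hb : ∀ p ∈ ps n N v, p < 2 * N + 1 := by
    intro p hp
    rcases mem_ps.1 hp with h | h <;> omega
  have hsort : ((ps n N v).map (fun p => G.opp (en (w v p)))).Pairwise
      (fun a b => lt s (pos G a) (pos G b)) := by
    rw [List.pairwise_map]
    refine (ps_sorted v).imp_of_mem ?_
    intro a b ha hb' hab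
    exact (S.ins v hv a b hab (hb b hb')).2
  cases s
  · have h1 : (G.rot (f v)).filter (fun a => GenAux.Kr (TP n N) (fd G en N w false) a) =
        ((ps n N v).map (fun p => G.opp (en (w v p)))).reverse := by
      refine filter_rot_eq G (f v) _ ?_ _ ?_
      · rw [List.pairwise_reverse]
        refine hsort.imp ?_
        intro a b hab
        simpa [lt] using hab
      · intro h
        rw [S.kr_iff hv h, List.mem_reverse, List.mem_map]
    rw [h1]
    simp only [Bool.false_eq_true, if_false]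
    rw [← List.map_reverse]
    refine List.IsRotated.map ?_ _
    unfold ps
    rw [List.reverse_append]
    have h2 : (if v + 1 < n then (List.range N).map (fun j => N + j) else []).reverse =
        (if v + 1 < n then ((List.range N).map (fun j => N + j)).reverse else []) := by
      split_ifs <;> rfl
    have h3 : (if 0 < v then List.range N else []).reverse =
        (if 0 < v then (List.range N).reverse else []) := by
      split_ifs <;> rfl
    rw [h2, h3]
    exact List.isRotated_append
  · have h1 : (G.rot (f v)).filter (fun a => GenAux.Kr (TP n N) (fd G en N w true) a) =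
        (ps n N v).map (fun p => G.opp (en (w v p))) := by
      refine filter_rot_eq G (f v) _ ?_ _ ?_
      · refine hsort.imp ?_
        intro a b hab
        simpa [lt] using hab
      · intro h
        rw [S.kr_iff hv h, List.mem_map]
    rw [h1]
    simp only [if_true]
    exact List.IsRotated.refl _

/-- the transitions at `x` between two blocks -/
def gr (N : ℕ) (w : ℕ → ℕ → H) (i : ℕ) : List H :=
  (List.range N).reverse.map (fun j => w i (2 * N - 1 - j)) ++
    (List.range N).map (fun j => w (i + 1) j)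

omit S in
theorem mem_gr {i : ℕ} {h : H} : h ∈ gr N w i ↔
    ∃ j < N, h = w i (2 * N - 1 - j) ∨ h = w (i + 1) j := by
  unfold gr
  rw [List.mem_append, List.mem_map, List.mem_map]
  constructor
  · rintro (⟨j, h1, rfl⟩ | ⟨j, h1, rfl⟩)
    · rw [List.mem_reverse, List.mem_range] at h1
      exact ⟨j, h1, Or.inl rfl⟩
    · rw [List.mem_range] at h1
      exact ⟨j, h1, Or.inr rfl⟩
  · rintro ⟨j, h1, rfl | rfl⟩
    · exact Or.inl ⟨j, List.mem_reverse.2 (List.mem_range.2 h1), rfl⟩
    · exact Or.inr ⟨j, List.mem_range.2 h1, rfl⟩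

omit S in
theorem gr_nc (k : ℕ) (hk : k < n ∨ n = 0 ∧ k = 0) :
    NC (mt M n N w) ((List.range k).flatMap (gr N w)) := by
  induction k with
  | zero => exact NC.done _ (by simp)
  | succ k ih =>
    rw [List.range_succ, List.flatMap_append]
    have h1 := nc_group (M := mt M n N w) N (fun j => w (k + 1) j)
      (fun j => w k (2 * N - 1 - j)) ((List.range k).flatMap (gr N w)) [] (by
        intro j hj
        exact Or.inr ⟨k, j, by omega, hj, Or.inl ⟨rfl, rfl⟩⟩) (by
        rw [List.append_nil]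
        exact ih (by omega))
    simpa [gr] using h1

theorem gr_sorted : ((List.range (n - 1)).flatMap (gr N w)).Pairwise
    (fun a b => pos G a < pos G b) := by
  rw [List.pairwise_flatMap]
  refine ⟨?_, ?_⟩
  · intro i hi
    rw [List.mem_range] at hi
    unfold gr
    rw [List.pairwise_append]
    refine ⟨?_, ?_, ?_⟩
    · rw [List.pairwise_map, List.pairwise_reverse]
      refine List.pairwise_lt_range.imp_of_mem ?_
      intro a b ha hb hab
      rw [List.mem_range] at ha hb
      exact S.w_lt (by omega) (by omega) (by omega) (Or.inr ⟨rfl, by omega⟩)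
    · rw [List.pairwise_map]
      refine List.pairwise_lt_range.imp_of_mem ?_
      intro a b ha hb hab
      rw [List.mem_range] at ha hb
      exact S.w_lt (by omega) (by omega) (by omega) (Or.inr ⟨rfl, by omega⟩)
    · intro a ha b hb
      rw [List.mem_map] at ha hb
      obtain ⟨j, h1, rfl⟩ := ha
      obtain ⟨j', h2, rfl⟩ := hb
      rw [List.mem_reverse, List.mem_range] at h1
      rw [List.mem_range] at h2
      exact S.w_lt (by omega) (by omega) (by omega) (Or.inl (by omega))
  · refine List.pairwise_lt_range.imp_of_mem ?_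
    intro i i' hi hi' hii a ha b hb
    rw [List.mem_range] at hi hi'
    obtain ⟨j, hj, rfl | rfl⟩ := mem_gr.1 ha <;> obtain ⟨j', hj', rfl | rfl⟩ := mem_gr.1 hb
    · exact S.w_lt (by omega) (by omega) (by omega) (Or.inl (by omega))
    · exact S.w_lt (by omega) (by omega) (by omega) (Or.inl (by omega))
    · exact S.w_lt (by omega) (by omega) (by omega) (by omega)
    · exact S.w_lt (by omega) (by omega) (by omega) (Or.inl (by omega))

theorem kr_T {h : H} (hh : GenAux.Kr (TP n N) (fd G en N w s) h) : h ∈ T := by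
  obtain ⟨d, hd, rfl⟩ := hh
  exact S.fd_T hd

theorem nc {v : V} (hv : v ∈ G.verts) : NC (mt M n N w) ((G.rot v).filter
    (fun a => GenAux.Kr (TP n N) (fd G en N w s) a ∨ ∃ b, mt M n N w a b)) := by
  by_cases hx : v = x
  · subst hx
    have h1 : (G.rot v).filter (fun a => GenAux.Kr (TP n N) (fd G en N w s) a ∨
        ∃ b, mt M n N w a b) = (List.range (n - 1)).flatMap (gr N w) := by
      refine filter_rot_eq G v _ S.gr_sorted _ ?_
      intro h
      rw [List.mem_flatMap]
      constructor
      · rintro ⟨i, hi, h2⟩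
        rw [List.mem_range] at hi
        obtain ⟨j, hj, rfl | rfl⟩ := mem_gr.1 h2
        · refine ⟨(G.mem_rot _ _).2 ⟨S.wdart (by omega) (by omega),
            (S.mem i (by omega) _ (by omega)).2⟩, Or.inr ⟨w (i + 1) j, Or.inr ⟨i, j, by omega, hj,
            Or.inl ⟨rfl, rfl⟩⟩⟩⟩
        · refine ⟨(G.mem_rot _ _).2 ⟨S.wdart (by omega) (by omega),
            (S.mem (i + 1) (by omega) _ (by omega)).2⟩, Or.inr ⟨w i (2 * N - 1 - j), Or.inr
            ⟨i, j, by omega, hj, Or.inr ⟨rfl, rfl⟩⟩⟩⟩
      · rintro ⟨h2, h3 | ⟨b, h3⟩⟩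
        · exact absurd ((G.mem_rot _ _).1 h2).2 (S.flow.T_x _ (S.kr_T h3))
        · obtain ⟨i, j, h4, h5, ⟨rfl, rfl⟩ | ⟨rfl, rfl⟩⟩ := S.mt_x h3 ((G.mem_rot _ _).1 h2).2
          · exact ⟨i, List.mem_range.2 (by omega), mem_gr.2 ⟨j, h5, Or.inl rfl⟩⟩
          · exact ⟨i, List.mem_range.2 (by omega), mem_gr.2 ⟨j, h5, Or.inr rfl⟩⟩
    rw [h1]
    exact gr_nc (n - 1) (by omega)
  · have h1 := S.flow.nc v hv hx
    have h2 := GenAux.nc_filter (M' := M)
      (fun a => GenAux.Kr (TP n N) (fd G en N w s) a ∨ ∃ b, mt M n N w a b)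
      (fun _ _ h => h) (fun a b h => Or.inl ⟨h, Or.inr ⟨b, Or.inl h⟩,
        Or.inr ⟨a, Or.inl (S.flow.M_symm _ _ h)⟩⟩) h1
    have h3 : ((G.rot v).filter (fun h => h ∈ U)).filter (fun a =>
        GenAux.Kr (TP n N) (fd G en N w s) a ∨ ∃ b, mt M n N w a b) = (G.rot v).filter
        (fun a => GenAux.Kr (TP n N) (fd G en N w s) a ∨ ∃ b, mt M n N w a b) := by
      rw [List.filter_filter]
      refine List.filter_congr fun a ha => ?_
      have h4 : (GenAux.Kr (TP n N) (fd G en N w s) a ∨ ∃ b, mt M n N w a b) → a ∈ U := by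
        rintro (h4 | ⟨b, h4⟩)
        · exact S.flow.T_sub (S.kr_T h4)
        · exact (S.mt_mem h4).1
      rw [← Bool.decide_and, decide_eq_decide]
      exact ⟨fun h => h.1, fun h => ⟨h, h4 h⟩⟩
    rw [h3] at h2
    refine h2.congr ?_
    intro a ha b
    have hb : G.base a ≠ x := by
      rw [((G.mem_rot _ _).1 (List.mem_of_mem_filter ha)).2]
      exact hx
    exact ⟨Or.inl, fun h => S.mt_nx h hb⟩

theorem run_w {i j : ℕ} (hi : i < n) (hj : j < 2 * N + 1) :
    Run G.opp (mt M n N w) (w i j) (en (w i j)) :=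
  (S.flow.run _ (S.mem i hi j hj).1 (S.mem i hi j hj).2).1.mono (fun _ _ => Or.inl)

theorem run_g {i j : ℕ} (hi : i < n) (hj : j < 2 * N + 1) :
    Run G.opp (mt M n N w) (G.opp (en (w i j))) (G.opp (w i j)) :=
  (S.run_w hi hj).reverse (fun _ _ => S.mt_symm) (fun a _ h =>
    G.opp_opp a (S.flow.U_mem _ (S.mt_mem h).1).1)

theorem run_two {i j i' j' : ℕ} (hi : i < n) (hj : j < 2 * N + 1) (hi' : i' < n)
    (hj' : j' < 2 * N + 1) (h : mt M n N w (w i j) (w i' j')) :
    Run G.opp (mt M n N w) (G.opp (en (w i j))) (en (w i' j')) := by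
  refine ((S.run_g hi hj).snoc ?_).trans (S.run_w hi' hj')
  rw [G.opp_opp _ (S.wdart hi hj)]
  exact h

theorem emb : GenAux.Emb (fun _ _ => True) (TP n N) G f (fd G en N w s) (mt M n N w) := by
  refine ⟨?_, fun _ _ => trivial, ?_, fun _ _ => S.mt_symm, fun _ _ _ => S.mt_fun, ?_, ?_, ?_, ?_,
    fun h hh => S.fd_base hh, fun h hh h' hh' => S.fd_inj hh hh', ?_, ?_, ?_⟩
  · intro v hv
    exact S.f_mem (Finset.mem_range.1 hv)
  · intro v hv v' hv' h
    exact S.f_inj (Finset.mem_range.1 hv) (Finset.mem_range.1 hv') h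
  · intro a b h
    exact (S.flow.U_mem _ (S.mt_mem h).1).1
  · intro a b h
    exact (S.mt_mem h).2.2
  · intro a b h h'
    exact (S.mt_mem h).2.1 (S.kr_T h')
  · intro h hh
    exact (S.flow.U_mem _ (S.flow.T_sub (S.fd_T hh))).1
  · intro v hv
    exact S.rot_eq (Finset.mem_range.1 hv)
  · intro v hv
    exact S.nc hv
  · rintro ⟨i, j, b⟩ hd
    obtain ⟨h1, h2⟩ := A5x96.mem_TP.1 hd
    simp only at h1 h2
    have h3 := sg_lt (s := s) h2
    have e1 : fd G en N w s (i, j, true) = G.opp (en (w (i + 1) (sg s N j))) := by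
      simp [fd]
    have e2 : fd G en N w s (i, j, false) = G.opp (en (w i (2 * N - 1 - sg s N j))) := by
      simp [fd]
    cases b
    · have e3 : (TP n N).opp (i, j, false) = (i, j, true) := rfl
      rw [e3, e1, e2]
      exact ⟨_, S.run_two (by omega) (by omega) (by omega) (by omega)
        (Or.inr ⟨i, sg s N j, by omega, h3, Or.inl ⟨rfl, rfl⟩⟩), rfl⟩
    · have e3 : (TP n N).opp (i, j, true) = (i, j, false) := rfl
      rw [e3, e1, e2]
      exact ⟨_, S.run_two (by omega) (by omega) (by omega) (by omega)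
        (Or.inr ⟨i, sg s N j, by omega, h3, Or.inr ⟨rfl, rfl⟩⟩), rfl⟩

end Sys

/-- the last half-edges of different trails are different -/
theorem en_inj {G : RotGraph V H} {x : V} {t : V → ℕ} {U T : Finset H} {M : H → H → Prop}
    {en : H → H} (hF : Flow G G.verts x t U T M en) {a a' : H} (ha : a ∈ U) (hax : G.base a = x)
    (ha' : a' ∈ U) (hax' : G.base a' = x) (h : G.opp (en a) = G.opp (en a')) : a = a' := by
  have hd : ∀ a b, M a b → b ∈ G.darts := fun a b hab =>
    (hF.U_mem _ (hF.M_mem _ _ (hF.M_symm _ _ hab)).1).1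
  have h1 := (hF.run a ha hax).1
  have h2 := (hF.run a' ha' hax').1
  have e1 : en a ∈ G.darts := h1.stay hd (hF.U_mem a ha).1
  have e2 : en a' ∈ G.darts := h2.stay hd (hF.U_mem a' ha').1
  have e3 : en a = en a' := by rw [← G.opp_opp _ e1, h, G.opp_opp _ e2]
  rw [← e3] at h2
  rcases h1.compare G.opp_opp hF.M_symm hF.M_fun hd (hF.U_mem a ha).1 a' (hF.U_mem a' ha').1 h2
    with h3 | h3
  · rcases h3.tail with h4 | ⟨u, -, h4⟩
    · exact h4
    · exact absurd hax' (hF.M_mem _ _ (hF.M_symm _ _ h4)).2.2.1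
  · rcases h3.tail with h4 | ⟨u, -, h4⟩
    · exact h4.symm
    · exact absurd hax (hF.M_mem _ _ (hF.M_symm _ _ h4)).2.2.1

theorem exists_fl (G : RotGraph V H) {C : Finset V} {x : V} (hx : x ∈ G.verts) (hxC : x ∉ C)
    (hC : C ⊆ G.verts) (K : ℕ) (hL : ∀ X ⊆ G.verts, x ∈ X → (∃ v ∈ C, v ∉ X) →
      C.card * K ≤ cut G X) :
    ∃ U T M en, Flow G G.verts x (fun v => if v ∈ C then K else 0) U T M en := by
  have hcut : cut G G.verts = 0 := by
    unfold cut
    rw [Finset.card_eq_zero, Finset.eq_empty_iff_forall_notMem]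
    exact not_mem_bd_verts G
  have hsum : ∀ X, C ⊆ X → ∑ a ∈ X, (if a ∈ C then K else 0) = C.card * K := by
    intro X hX
    rw [← Finset.sum_filter, Finset.filter_mem_eq_inter, Finset.inter_eq_right.2 hX,
      Finset.sum_const, smul_eq_mul]
  have hwx : (fun v => if v ∈ C then K else 0) x = 0 := by simp [hxC]
  obtain ⟨U, S⟩ := exists_FSys G G.verts x hx (fun v => if v ∈ C then K else 0) (C.card * K)
    (by rw [hcut, hsum _ hC, zero_add]) (by
      intro X h1 h2
      by_cases h3 : C ⊆ X
      · rw [hsum _ h3]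
        omega
      · rw [Finset.not_subset] at h3
        have := hL X h2 h1 h3
        omega)
  refine S.exists_flow hx hwx _ (fun _ _ _ => rfl) ?_
  rw [hcut, zero_add]
  refine hsum _ ?_
  intro a ha
  rw [Finset.mem_erase]
  exact ⟨fun h => hxC (h ▸ ha), hC ha⟩

end B2x96

open B2x96 in
/-- (B2) -/
theorem stHost_96 (hSel : StSel) : StHost := by
  intro n N
  obtain ⟨m, K, hsel⟩ := hSel n (2 * N + 1) (by omega)
  refine ⟨m + 1, m * K, fun V H G S hS hm hL => ?_⟩
  obtain ⟨S', hS', hcard⟩ := Finset.exists_subset_card_eq hm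
  obtain ⟨x, hxS⟩ : S'.Nonempty := by
    rw [← Finset.card_pos]
    omega
  set C := S'.erase x with hC
  have hCc : C.card = m := by
    rw [hC, Finset.card_erase_of_mem hxS]
    omega
  have hxC : x ∉ C := Finset.notMem_erase _ _
  have hCS : ∀ v ∈ C, v ∈ S := fun v hv => hS' (Finset.mem_of_mem_erase hv)
  have hx : x ∈ G.verts := hS (hS' hxS)
  obtain ⟨U, T, M, en, hF⟩ := exists_fl G hx hxC (fun v hv => hS (hCS v hv)) K (by
    rintro X hX hxX ⟨v, hv, hvX⟩
    rw [hCc]
    exact hL X hX ⟨x, hS' hxS, hxX⟩ ⟨v, hCS v hv, hvX⟩)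
  have hd : ∀ a b, M a b → b ∈ G.darts := fun a b hab =>
    (hF.U_mem _ (hF.M_mem _ _ (hF.M_symm _ _ hab)).1).1
  have hT : ∀ a ∈ U, G.base a = x → G.opp (en a) ∈ T := by
    intro a ha hax
    rcases (hF.run a ha hax).2 with h | h
    · exact absurd h (not_mem_bd_verts G _)
    · exact h
  have k1 : ∀ b ∈ C, K ≤ ((U.filter (fun a => G.base a = x)).filter
      (fun a => G.base (G.opp (en a)) = b)).card := by
    intro b hb
    have h5 := hF.T_card b (hS (hCS b hb)) (fun h => hxC (h ▸ hb))
    simp only [hb, if_true] at h5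
    rw [← h5]
    refine Finset.card_le_card_of_surjOn (fun a => G.opp (en a)) ?_
    intro g hg
    rw [Finset.mem_coe, Finset.mem_filter] at hg
    obtain ⟨p, hp, hpx, he⟩ := hF.surj_T g hg.1
    refine ⟨p, ?_, he⟩
    rw [Finset.mem_coe, Finset.mem_filter, Finset.mem_filter]
    exact ⟨⟨hp, hpx⟩, by rw [he]; exact hg.2⟩
  have k2 : Set.InjOn (pos G) ((U.filter (fun a => G.base a = x) : Finset H) : Set H) := by
    intro a ha a' ha' h
    rw [Finset.mem_coe, Finset.mem_filter] at ha ha'
    exact pos_inj (hF.U_mem a ha.1).1 (hF.U_mem a' ha'.1).1 (by rw [ha.2, ha'.2]) h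
  have k3 : ∀ a ∈ U.filter (fun a => G.base a = x), ∀ a' ∈ U.filter (fun a => G.base a = x),
      G.base (G.opp (en a)) = G.base (G.opp (en a')) →
      pos G (G.opp (en a)) = pos G (G.opp (en a')) → a = a' := by
    intro a ha a' ha' h h'
    rw [Finset.mem_filter] at ha ha'
    refine en_inj hF ha.1 ha.2 ha'.1 ha'.2 ?_
    exact pos_inj (hF.U_mem _ (hF.T_sub (hT a ha.1 ha.2))).1
      (hF.U_mem _ (hF.T_sub (hT a' ha'.1 ha'.2))).1 h h'
  obtain ⟨w, s, h1, h2, h3, h4⟩ := hsel H V (U.filter (fun a => G.base a = x)) (pos G)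
    (fun a => pos G (G.opp (en a))) (fun a => G.base (G.opp (en a))) C (le_of_eq hCc.symm)
    k1 k2 k3
  have hSys : Sys G x (fun v => if v ∈ C then K else 0) U T M en n N w
      (fun i => G.base (G.opp (en (w i 0)))) s := by
    refine ⟨hF, ?_, ?_, h2, h3, h4⟩
    · intro i hi j hj
      have h5 := (h1 i hi j hj).1
      rw [Finset.mem_filter] at h5
      exact h5
    · intro i hi j hj
      exact (h1 i hi j hj).2.2
  exact LE.of_emb hSys.emb

end RotWqo.Pl
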