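import Pool.Agent.Lib.MP_cb4a0f_co.Hk.Stmts2

/-!
# MP_cb4a0f_co: planar rotated graphs, definitions of the modules

`LE G K`: `G` embeds in `K` (equivalent to immersion). `PlanarC`: connected rotated graphs of
genus 0 (Euler's formula). `TP n N`: the planar path with `n` vertices and `N` parallel edges
between consecutive vertices. `thk G`: every edge is replaced by three parallel edges. `subE G a`:
the edge of `a` is subdivided.
-/

open Classical

namespace RotWqo.Pl

variable {V H V' H' : Type*}

/-- `G` embeds in `K`. -/
def LE (G : RotGraph V H) (K : RotGraph V' H') : Prop :=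
  ∃ β, PE (fun _ _ => True) G G.verts K K.verts β

theorem LE.trans {V'' H'' : Type*} {G : RotGraph V H} {K : RotGraph V' H'}
    {L : RotGraph V'' H''} (h : LE G K) (h' : LE K L) : LE G L := by
  obtain ⟨β, h⟩ := h
  obtain ⟨β', h'⟩ := h'
  exact ⟨β' ∘ β, PE.trans (fun _ _ _ _ _ => trivial) h h'⟩

theorem LE.imm {G : RotGraph V H} {K : RotGraph V' H'} (h : LE G K) :
    Imm (fun _ _ => True) G K := by
  obtain ⟨β, h⟩ := h
  exact imm_of_PE _ _ _ _ h

theorem not_mem_bd_verts (G : RotGraph V H) (x : H) : x ∉ bd G G.verts := by
  intro hx
  rw [mem_bd] at hx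
  exact hx.2.2 (G.base_mem _ (G.opp_mem _ hx.1))

/-- Whole graphs have no boundary: an embedding in the sense of `Emb` is enough. -/
theorem LE.of_emb {G : RotGraph V H} {K : RotGraph V' H'} {f : V → V'} {φ : H → H'}
    {M : H' → H' → Prop} (h : GenAux.Emb (fun _ _ => True) G K f φ M) : LE G K := by
  have e : ∀ a, Ker G G.verts φ a = GenAux.Kr G φ a := fun a => propext (GenAux.ker_iff G φ a)
  refine ⟨φ, f, φ, M, h.f_mem, h.f_rel, h.f_inj, h.M_symm, h.M_fun, h.M_mem, ?_, ?_,
    fun x hx _ => h.φ_mem x hx, fun x hx _ => h.φ_base x hx,
    fun x hx y hy _ _ hxy => h.φ_inj hx hy hxy, ?_, ?_, fun x hx _ _ => h.run_in x hx, ?_, ?_⟩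
  · intro a b hab
    exact ⟨K.base_mem _ (h.M_mem a b hab), h.M_base a b hab⟩
  · intro a b hab
    rw [e]
    exact h.M_ker a b hab
  · intro v hv
    simp only [e]
    exact h.rot_eq v hv
  · intro x hx
    simp only [e]
    exact h.nc x hx
  · intro x hx
    exact absurd hx (not_mem_bd_verts G x)
  · refine ⟨fun x hx => absurd hx (not_mem_bd_verts G x),
      fun x hx => absurd hx (not_mem_bd_verts G x), fun x hx => absurd hx (not_mem_bd_verts K x)⟩

/-! ### Faces and planarity -/

/-- The half-edge that follows `h` in the rotation at its end (the last one is followed by the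
first one). -/
noncomputable def nx (G : RotGraph V H) (h : H) : H :=
  (G.rot (G.base h)).getD (((G.rot (G.base h)).idxOf h + 1) % (G.rot (G.base h)).length) h

/-- The face permutation: traverse the edge of `h` away from the end of `h` and turn to the next
half-edge. -/
noncomputable def fs (G : RotGraph V H) (h : H) : H := nx G (G.opp h)

/-- The face of `h`: all half-edges that are obtained from `h` by the face permutation. -/
noncomputable def face (G : RotGraph V H) (h : H) : Finset H :=
  G.darts.filter (fun g => ∃ n, (fs G)^[n] h = g)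

/-- The number of faces; a graph without edges has one face. -/
noncomputable def faces (G : RotGraph V H) : ℕ :=
  if G.darts = ∅ then 1 else (G.darts.image (face G)).card

/-- Connected graphs: no edge cut is empty. -/
def Conn (G : RotGraph V H) : Prop :=
  G.verts.Nonempty ∧ ∀ S ⊆ G.verts, S.Nonempty → S ≠ G.verts → 0 < cut G S

/-- Connected planar rotated graphs: connected, and twice (the number of vertices plus the number
of faces) is the number of half-edges plus four (Euler's formula). -/
def PlanarC (G : RotGraph V H) : Prop :=
  Conn G ∧ 2 * (G.verts.card + faces G) = G.darts.card + 4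

/-! ### Deletion -/

/-- Deletion of the edge of `d`. -/
noncomputable def delE (G : RotGraph V H) (d : H) : RotGraph V H where
  verts := G.verts
  darts := G.darts.filter (fun h => d ∈ G.darts → h ≠ d ∧ h ≠ G.opp d)
  base := G.base
  opp := G.opp
  rot v := (G.rot v).filter (fun h => decide (d ∈ G.darts → h ≠ d ∧ h ≠ G.opp d))
  base_mem h hh := G.base_mem h (Finset.mem_filter.1 hh).1
  opp_mem h hh := by
    rw [Finset.mem_filter] at hh ⊢
    obtain ⟨h1, h2⟩ := hh
    refine ⟨G.opp_mem h h1, fun hd => ⟨?_, ?_⟩⟩
    · intro h5
      exact (h2 hd).2 (by rw [← G.opp_opp h h1, h5])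
    · intro h5
      exact (h2 hd).1 (by rw [← G.opp_opp h h1, h5, G.opp_opp d hd])
  opp_opp h hh := G.opp_opp h (Finset.mem_filter.1 hh).1
  opp_ne h hh := G.opp_ne h (Finset.mem_filter.1 hh).1
  nodup v := (G.nodup v).filter _
  mem_rot v h := by
    rw [List.mem_filter, G.mem_rot, Finset.mem_filter]
    simp only [decide_eq_true_eq]
    tauto

/-- Deletion of the isolated vertex `v`. -/
noncomputable def delV (G : RotGraph V H) (v : V) : RotGraph V H where
  verts := G.verts.filter (fun w => G.rot v = [] → w ≠ v)
  darts := G.darts
  base := G.base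
  opp := G.opp
  rot := G.rot
  base_mem h hh := by
    rw [Finset.mem_filter]
    refine ⟨G.base_mem h hh, fun h1 h2 => ?_⟩
    have h3 := (G.mem_rot v h).2 ⟨hh, h2⟩
    rw [h1] at h3
    exact absurd h3 List.not_mem_nil
  opp_mem := G.opp_mem
  opp_opp := G.opp_opp
  opp_ne := G.opp_ne
  nodup := G.nodup
  mem_rot := G.mem_rot

/-- Deletion of the edge of `d` and of the end of `d`, if it becomes isolated. -/
noncomputable def delL (G : RotGraph V H) (d : H) : RotGraph V H := delV (delE G d) (G.base d)

/-- Connected graphs that are built from one vertex or one loop by pendant edges and edges along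
the boundary of a face. -/
inductive Bld {V H : Type*} : RotGraph V H → Prop
  | single (G : RotGraph V H) : G.verts.card = 1 → G.darts = ∅ → Bld G
  | loop (G : RotGraph V H) : G.verts.card = 1 → G.darts.card = 2 → Bld G
  | pend (G : RotGraph V H) (d : H) : d ∈ G.darts → G.rot (G.base d) = [d] → Bld (delL G d) → Bld G
  | face (G : RotGraph V H) (d : H) : d ∈ G.darts → fs G d ≠ d →
      (∀ n, (fs G)^[n] d ≠ G.opp d) → Bld (delE G d) → Bld G

/-! ### Thickening and subdivision -/

/-- Every edge is replaced by three parallel edges. -/
noncomputable def thk (G : RotGraph V H) : RotGraph V (H × Fin 3) where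
  verts := G.verts
  darts := G.darts ×ˢ Finset.univ
  base p := G.base p.1
  opp p := (G.opp p.1, p.2.rev)
  rot v := (G.rot v).flatMap (fun h => [(h, 0), (h, 1), (h, 2)])
  base_mem p hp := G.base_mem _ (Finset.mem_product.1 hp).1
  opp_mem p hp := Finset.mem_product.2 ⟨G.opp_mem _ (Finset.mem_product.1 hp).1,
    Finset.mem_univ _⟩
  opp_opp p hp := by
    ext1
    · exact G.opp_opp _ (Finset.mem_product.1 hp).1
    · simp
  opp_ne p hp h := G.opp_ne _ (Finset.mem_product.1 hp).1 (Prod.ext_iff.1 h).1
  nodup v := by
    rw [List.nodup_flatMap]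
    refine ⟨fun x _ => by simp, (G.nodup v).imp fun {a b} hab => ?_⟩
    simp only [Function.onFun, List.disjoint_left]
    intro p hp hq
    simp only [List.mem_cons, List.not_mem_nil, or_false] at hp hq
    rcases hp with rfl | rfl | rfl <;> rcases hq with hq | hq | hq <;>
      exact hab (Prod.ext_iff.1 hq).1
  mem_rot v p := by
    rw [List.mem_flatMap, Finset.mem_product]
    constructor
    · rintro ⟨h, h1, h2⟩
      simp only [List.mem_cons, List.not_mem_nil, or_false] at h2
      have h3 : p.1 = h := by rcases h2 with rfl | rfl | rfl <;> rfl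
      subst h3
      exact ⟨⟨((G.mem_rot v _).1 h1).1, Finset.mem_univ _⟩, ((G.mem_rot v _).1 h1).2⟩
    · rintro ⟨⟨h1, -⟩, h2⟩
      refine ⟨p.1, (G.mem_rot v _).2 ⟨h1, h2⟩, ?_⟩
      obtain ⟨h, i⟩ := p
      simp only [List.mem_cons, Prod.mk.injEq, true_and, List.not_mem_nil, or_false]
      fin_cases i <;> simp

/-- The edge of `a` is subdivided by the vertex `none`. -/
noncomputable def subE (G : RotGraph V H) (a : H) (ha : a ∈ G.darts) :
    RotGraph (Option V) (H ⊕ Bool) where
  verts := insert none (G.verts.image some)
  darts := G.darts.disjSum Finset.univ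
  base := Sum.elim (fun h => some (G.base h)) (fun _ => none)
  opp := Sum.elim (fun h => if h = a then .inr false else if h = G.opp a then .inr true
    else .inl (G.opp h)) (fun b => if b then .inl (G.opp a) else .inl a)
  rot
    | none => [.inr false, .inr true]
    | some v => (G.rot v).map .inl
  base_mem := by
    rintro (h | b) hh
    · rw [Finset.inl_mem_disjSum] at hh
      simp [G.base_mem h hh]
    · simp
  opp_mem := by
    rintro (h | b) hh
    · rw [Finset.inl_mem_disjSum] at hh
      simp only [Sum.elim_inl]
      split_ifs
      · simp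
      · simp
      · simp [G.opp_mem h hh]
    · simp only [Sum.elim_inr]
      split_ifs
      · simp [G.opp_mem a ha]
      · simp [ha]
  opp_opp := by
    rintro (h | b) hh
    · rw [Finset.inl_mem_disjSum] at hh
      simp only [Sum.elim_inl]
      split_ifs with h1 h2
      · simp [h1]
      · simp [h2]
      · have h3 : G.opp h ≠ a := fun h4 => h2 (by rw [← h4, G.opp_opp h hh])
        have h4 : G.opp h ≠ G.opp a := fun h4 => h1 (by
          rw [← G.opp_opp h hh, h4, G.opp_opp a ha])
        simp [h3, h4, G.opp_opp h hh]
    · cases b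
      · simp
      · simp [G.opp_ne a ha]
  opp_ne := by
    rintro (h | b) hh
    · rw [Finset.inl_mem_disjSum] at hh
      simp only [Sum.elim_inl]
      split_ifs
      · simp
      · simp
      · simp [G.opp_ne h hh]
    · simp only [Sum.elim_inr]
      split_ifs <;> simp
  nodup := by
    rintro (_ | v)
    · simp
    · exact (G.nodup v).map Sum.inl_injective
  mem_rot := by
    rintro (_ | v) (h | b)
    · simp
    · cases b <;> simp
    · simp [G.mem_rot]
    · simp

/-! ### Thick paths -/

/-- The planar path with the vertices `0, ..., n - 1` and `N` parallel edges between consecutive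
vertices. -/
def TP (n N : ℕ) : RotGraph ℕ (ℕ × ℕ × Bool) where
  verts := Finset.range n
  darts := Finset.range (n - 1) ×ˢ Finset.range N ×ˢ Finset.univ
  base d := if d.2.2 then d.1 + 1 else d.1
  opp d := (d.1, d.2.1, !d.2.2)
  rot v := (if 0 < v ∧ v < n then (List.range N).map (fun j => (v - 1, j, true)) else []) ++
    (if v + 1 < n then (List.range N).reverse.map (fun j => (v, j, false)) else [])
  base_mem := by
    rintro ⟨i, j, b⟩ hh
    simp only [Finset.mem_product, Finset.mem_range, Finset.mem_univ, and_true] at hh ⊢
    cases b <;> simp <;> omega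
  opp_mem := by
    rintro ⟨i, j, b⟩ hh
    simp only [Finset.mem_product, Finset.mem_range, Finset.mem_univ, and_true] at hh ⊢
    exact hh
  opp_opp := by
    rintro ⟨i, j, b⟩ _
    simp
  opp_ne := by
    rintro ⟨i, j, b⟩ _
    cases b <;> simp
  nodup v := by
    rw [List.nodup_append]
    refine ⟨?_, ?_, ?_⟩
    · split_ifs
      · exact List.nodup_range.map (fun a b h => by simpa using h)
      · exact List.nodup_nil
    · split_ifs
      · exact (List.nodup_reverse.2 List.nodup_range).map (fun a b h => by simpa using h)
      · exact List.nodup_nil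
    · intro a ha b hb hab
      subst hab
      split_ifs at ha hb <;> simp at ha hb
      obtain ⟨_, _, rfl⟩ := ha
      obtain ⟨_, _, h⟩ := hb
      simp at h
  mem_rot := by
    rintro v ⟨i, j, b⟩
    simp only [List.mem_append, Finset.mem_product, Finset.mem_range, Finset.mem_univ, and_true]
    constructor
    · rintro (h | h)
      · split_ifs at h with h1
        · simp only [List.mem_map, List.mem_range, Prod.mk.injEq] at h
          obtain ⟨j', h2, rfl, rfl, rfl⟩ := h
          simp; omega
        · simp at h
      · split_ifs at h with h1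
        · simp only [List.mem_map, List.mem_reverse, List.mem_range, Prod.mk.injEq] at h
          obtain ⟨j', h2, rfl, rfl, rfl⟩ := h
          simp; omega
        · simp at h
    · rintro ⟨⟨h1, h2⟩, h3⟩
      cases b
      · right
        simp only [Bool.false_eq_true, if_false] at h3
        subst h3
        rw [if_pos (by omega)]
        simp [h2]
      · left
        simp only [if_true] at h3
        subst h3
        rw [if_pos (by omega)]
        simp [h2]

/-! ### Highly connected sets and carvings of the underlying simple graph -/

/-- No two vertices of `S` are separated by fewer than `M` edges. -/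
def Lnk (M : ℕ) (G : RotGraph V H) (S : Finset V) : Prop :=
  ∀ X ⊆ G.verts, (∃ u ∈ S, u ∈ X) → (∃ v ∈ S, v ∉ X) → M ≤ cut G X

/-- The number of pairs `(x, y)` of adjacent vertices with `x` in `A` and `y` not in `A` (parallel
edges are counted once). -/
noncomputable def scut (G : RotGraph V H) (A : Finset V) : ℕ :=
  ((bd G A).image (fun h => (G.base h, G.base (G.opp h)))).card

/-- A carving of the underlying simple graph of width at most `k`. -/
def IsSCar (k : ℕ) (G : RotGraph V H) (t : Tree V) : Prop :=
  t.leaves.Nodup ∧ t.set = G.verts ∧ ∀ s, IsSub s t → scut G s.set ≤ k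

end RotWqo.Pl
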