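import Pool.Agent.Lib.MP_cb4a0f_co.Pl.Stmts
import Pool.Agent.Lib.MP_cb4a0f_co.Pl.Nx6

/-!
# MP_cb4a0f_co: the face permutation and deletion of an edge (helper11)
-/

open Classical

namespace RotWqo.Pl.Fc11

variable {V H : Type*}

/-! ### Rotated lists -/

theorem rot_split {α : Type*} {l : List α} {y : α} {m : List α} (h : l ~r y :: m) :
    ∃ l1 l2, l = l1 ++ y :: l2 ∧ m = l2 ++ l1 := by
  obtain ⟨n, hn⟩ := h
  rw [List.rotate_eq_drop_append_take_mod] at hn
  set k := n % l.length with hk
  have hl : l.length ≠ 0 := by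
    intro h0
    have : l = [] := List.length_eq_zero_iff.1 h0
    subst this
    simp at hn
  have hkl : k < l.length := Nat.mod_lt _ (Nat.pos_of_ne_zero hl)
  have hd : l.drop k ≠ [] := by
    intro h0
    rw [List.drop_eq_nil_iff] at h0
    omega
  obtain ⟨z, l2, hz⟩ := List.exists_cons_of_ne_nil hd
  rw [hz, List.cons_append, List.cons.injEq] at hn
  obtain ⟨rfl, hm⟩ := hn
  exact ⟨l.take k, l2, by rw [← hz, List.take_append_drop], hm.symm⟩

theorem rot_filter {α : Type*} (p : α → Bool) {l : List α} {y : α} {m : List α}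
    (h : l ~r y :: m) : l.filter p ~r (y :: m).filter p := by
  obtain ⟨l1, l2, rfl, rfl⟩ := rot_split h
  have h1 : (y :: (l2 ++ l1)).filter p = (y :: l2).filter p ++ l1.filter p := by
    rw [← List.filter_append]
    rfl
  rw [h1, List.filter_append]
  exact List.isRotated_append

theorem rot_of_mem {α : Type*} {l : List α} {y : α} (h : y ∈ l) : ∃ m, l ~r y :: m := by
  obtain ⟨l1, l2, rfl⟩ := List.append_of_mem h
  exact ⟨l2 ++ l1, by
    have := List.isRotated_append (l := l1) (l' := y :: l2)
    simpa using this⟩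

theorem getD_split {α : Type*} [DecidableEq α] {l1 l2 : List α} {y : α} (hy : y ∉ l1) :
    (l1 ++ y :: l2).getD (((l1 ++ y :: l2).idxOf y + 1) % (l1 ++ y :: l2).length) y =
      (l2 ++ l1 ++ [y]).head (by simp) := by
  have h1 : (l1 ++ y :: l2).idxOf y = l1.length := by
    rw [List.idxOf_append_of_notMem hy, List.idxOf_cons_self, Nat.add_zero]
  rw [h1]
  rcases l2 with _ | ⟨z, l2⟩
  · have h2 : (l1 ++ [y]).length = l1.length + 1 := by simp
    rw [h2, Nat.mod_self]
    rcases l1 with _ | ⟨w, l1⟩ <;> simp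
  · have h2 : l1.length + 1 < (l1 ++ y :: z :: l2).length := by simp
    rw [Nat.mod_eq_of_lt h2]
    simp [List.getD_eq_getElem?_getD]

theorem nx_rot (G : RotGraph V H) {y : H} {m : List H} (h : G.rot (G.base y) ~r y :: m) :
    nx G y = (m ++ [y]).head (by simp) := by
  unfold nx
  obtain ⟨l1, l2, h1, rfl⟩ := rot_split h
  have hn := G.nodup (G.base y)
  rw [h1] at hn ⊢
  have hy : y ∉ l1 := by
    intro h2
    exact (List.nodup_append.1 hn).2.2 y h2 y (by simp) rfl
  exact getD_split hy

variable (G : RotGraph V H)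

theorem nx_mem {y : H} (hy : y ∈ G.darts) : nx G y ∈ G.darts ∧ G.base (nx G y) = G.base y := by
  have h1 : y ∈ G.rot (G.base y) := (G.mem_rot _ _).2 ⟨hy, rfl⟩
  obtain ⟨m, hm⟩ := rot_of_mem h1
  rw [nx_rot G hm]
  have h2 : (m ++ [y]).head (by simp) ∈ m ++ [y] := List.head_mem _
  rw [← G.mem_rot, hm.mem_iff]
  rw [List.mem_append, List.mem_singleton] at h2
  rw [List.mem_cons]
  tauto

theorem fs_mem {h : H} (hh : h ∈ G.darts) : fs G h ∈ G.darts :=
  (nx_mem G (G.opp_mem h hh)).1

/-- the permutation `nx` is injective -/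
theorem nx_inj {x y : H} (hx : x ∈ G.darts) (hy : y ∈ G.darts) (h : nx G x = nx G y) : x = y := by
  have hb : G.base x = G.base y := by rw [← (nx_mem G hx).2, h, (nx_mem G hy).2]
  have hx1 : x ∈ G.rot (G.base x) := (G.mem_rot _ _).2 ⟨hx, rfl⟩
  have hy1 : y ∈ G.rot (G.base x) := (G.mem_rot _ _).2 ⟨hy, hb.symm⟩
  obtain ⟨m, hm⟩ := rot_of_mem hx1
  by_contra hne
  have hn : (x :: m).Nodup := hm.perm.nodup_iff.1 (G.nodup _)
  have hym : y ∈ m := by
    have := hm.mem_iff.1 hy1
    rw [List.mem_cons] at this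
    rcases this with h1 | h1
    · exact absurd h1.symm hne
    · exact h1
  obtain ⟨m1, m2, rfl⟩ := List.append_of_mem hym
  have h1 : nx G y = ((m2 ++ (x :: m1)) ++ [y]).head (by simp) := by
    apply nx_rot
    rw [← hb]
    refine hm.trans ?_
    have := List.isRotated_append (l := x :: m1) (l' := y :: m2)
    simpa using this
  rw [nx_rot G hm, h1] at h
  rcases m1 with _ | ⟨z, m1⟩
  · rcases m2 with _ | ⟨w, m2⟩
    · simp at h
      exact hne h.symm
    · simp at h
      subst h
      simp at hn
  · rcases m2 with _ | ⟨w, m2⟩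
    · simp at h
      subst h
      simp at hn
    · simp at h
      subst h
      simp at hn

theorem fs_inj {x y : H} (hx : x ∈ G.darts) (hy : y ∈ G.darts) (h : fs G x = fs G y) : x = y := by
  have h1 := nx_inj G (G.opp_mem x hx) (G.opp_mem y hy) h
  rw [← G.opp_opp x hx, h1, G.opp_opp y hy]

theorem del_opp {d : H} (hd : d ∈ G.darts) : delE G (G.opp d) = delE G d := by
  have h : ∀ x, (G.opp d ∈ G.darts → x ≠ G.opp d ∧ x ≠ G.opp (G.opp d)) ↔
      (d ∈ G.darts → x ≠ d ∧ x ≠ G.opp d) := by
    intro x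
    rw [G.opp_opp d hd]
    constructor
    · intro h _
      exact ⟨(h (G.opp_mem d hd)).2, (h (G.opp_mem d hd)).1⟩
    · intro h _
      exact ⟨(h hd).2, (h hd).1⟩
  unfold delE
  congr 1
  · exact Finset.filter_congr fun x _ => h x
  · funext v
    exact List.filter_congr fun x _ => by simp only [h x]

theorem mem_del {d x : H} (hd : d ∈ G.darts) :
    x ∈ (delE G d).darts ↔ x ∈ G.darts ∧ x ≠ d ∧ x ≠ G.opp d := by
  show x ∈ G.darts.filter _ ↔ _
  rw [Finset.mem_filter]
  constructor
  · rintro ⟨h1, h2⟩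
    exact ⟨h1, h2 hd⟩
  · rintro ⟨h1, h2⟩
    exact ⟨h1, fun _ => h2⟩

/-- the rotation after the deletion, starting from a half-edge that stays -/
theorem nx_del {d g : H} (hd : d ∈ G.darts) {m : List H} (hm : G.rot (G.base g) ~r g :: m)
    (h1 : g ≠ d) (h2 : g ≠ G.opp d) :
    nx (delE G d) g = (m.filter (fun x => decide (x ≠ d ∧ x ≠ G.opp d)) ++ [g]).head (by simp) := by
  apply nx_rot (G := delE G d)
  show (G.rot (G.base g)).filter _ ~r _
  have h3 := rot_filter (fun x => decide (x ≠ d ∧ x ≠ G.opp d)) hm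
  rw [List.filter_cons_of_pos (by simp [h1, h2])] at h3
  have h4 : (G.rot (G.base g)).filter
      (fun h => decide (d ∈ G.darts → h ≠ d ∧ h ≠ G.opp d)) =
      (G.rot (G.base g)).filter (fun x => decide (x ≠ d ∧ x ≠ G.opp d)) :=
    List.filter_congr fun x _ => by simp [hd]
  rw [h4]
  exact h3

theorem nodup_of_rot {v : V} {m : List H} (hm : G.rot v ~r m) : m.Nodup :=
  hm.perm.nodup_iff.1 (G.nodup v)

theorem base_of_rot {v : V} {m : List H} (hm : G.rot v ~r m) {x : H} (hx : x ∈ m) :
    x ∈ G.darts ∧ G.base x = v := (G.mem_rot v x).1 (hm.mem_iff.2 hx)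

theorem head_congr {α : Type*} {l l' : List α} (h : l = l') {h1 : l ≠ []} :
    l.head h1 = l'.head (h ▸ h1) := by
  subst h
  rfl

theorem rot_snoc {α : Type*} (y : α) (m : List α) : y :: m ~r m ++ [y] := by
  have := List.isRotated_append (l := [y]) (l' := m)
  simpa using this

theorem core {a h : H} (ha : a ∈ G.darts) (hh : h ∈ G.darts) (h1 : h ≠ a) (h2 : h ≠ G.opp a)
    (hf : fs G h = a) : fs (delE G a) h =
      if fs G (G.opp a) = G.opp a then fs G a else fs G (G.opp a) := by
  set g := G.opp h with hg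
  have hgd : g ∈ G.darts := G.opp_mem h hh
  have hga : g ≠ a := by
    intro h3
    apply h2
    rw [← h3, hg, G.opp_opp h hh]
  have hgb : g ≠ G.opp a := by
    intro h3
    apply h1
    rw [← G.opp_opp h hh, ← hg, h3, G.opp_opp a ha]
  obtain ⟨m, hm⟩ := rot_of_mem ((G.mem_rot (G.base g) g).2 ⟨hgd, rfl⟩)
  have e1 : fs (delE G a) h = nx (delE G a) g := rfl
  have e2 : fs G h = nx G g := rfl
  have e3 : fs G (G.opp a) = nx G a := by
    show nx G (G.opp (G.opp a)) = _
    rw [G.opp_opp a ha]
  have e4 : fs G a = nx G (G.opp a) := rfl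
  have hab : G.opp a ≠ a := G.opp_ne a ha
  rw [e1, nx_del G ha hm hga hgb, e3, e4]
  rw [e2, nx_rot G hm] at hf
  have hn := nodup_of_rot G hm
  rcases m with _ | ⟨y, m⟩
  · simp at hf
    exact absurd hf hga
  · simp at hf
    subst hf
    have hr1 : G.rot (G.base y) ~r y :: (m ++ [g]) := by
      rw [(base_of_rot G hm (by simp)).2]
      exact hm.trans (rot_snoc _ _)
    rw [nx_rot G hr1]
    have hn1 := nodup_of_rot G hr1
    rcases m with _ | ⟨z, m⟩
    · simp [hgb]
    · have hzy : z ≠ y := by
        rintro rfl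
        simp at hn
      by_cases hz : z = G.opp y
      · subst hz
        have hr2 : G.rot (G.base (G.opp y)) ~r G.opp y :: (m ++ [g] ++ [y]) := by
          rw [(base_of_rot G hm (x := G.opp y) (by simp)).2]
          refine (hm.trans (rot_snoc _ _)).trans ?_
          exact rot_snoc y _
        rw [nx_rot G hr2]
        have hm1 : m.filter (fun x => decide (x ≠ y ∧ x ≠ G.opp y)) = m := by
          rw [List.filter_eq_self]
          intro x hx
          simp only [decide_eq_true_eq]
          constructor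
          · rintro rfl
            simp [hx] at hn
          · rintro rfl
            simp [hx] at hn
        have hf : (y :: G.opp y :: m).filter (fun x => decide (x ≠ y ∧ x ≠ G.opp y)) = m := by
          rw [List.filter_cons_of_neg (by simp), List.filter_cons_of_neg (by simp), hm1]
        rw [head_congr (congrArg (fun l => l ++ [g]) hf)]
        rcases m with _ | ⟨w, m⟩
        · simp
        · simp
      · have hf : (y :: z :: m).filter (fun x => decide (x ≠ y ∧ x ≠ G.opp y)) =
            z :: m.filter (fun x => decide (x ≠ y ∧ x ≠ G.opp y)) := by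
          rw [List.filter_cons_of_neg (by simp), List.filter_cons_of_pos (by simp [hzy, hz])]
        rw [head_congr (congrArg (fun l => l ++ [g]) hf)]
        simp [hz]

/-- the face permutation after the deletion of an edge -/
theorem fs_del {d h : H} (hd : d ∈ G.darts) (hh : h ∈ G.darts) (h1 : h ≠ d) (h2 : h ≠ G.opp d) :
    fs (delE G d) h = if fs G h = d then (if fs G (G.opp d) = G.opp d then fs G d
      else fs G (G.opp d)) else if fs G h = G.opp d then (if fs G d = d then fs G (G.opp d)
      else fs G d) else fs G h := by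
  split_ifs with c1 c2 c3 c4
  · rw [core G hd hh h1 h2 c1, if_pos c2]
  · rw [core G hd hh h1 h2 c1, if_neg c2]
  · have := core G (G.opp_mem d hd) hh h2 (by rw [G.opp_opp d hd]; exact h1) c3
    rw [del_opp G hd, G.opp_opp d hd, if_pos c4] at this
    exact this
  · have := core G (G.opp_mem d hd) hh h2 (by rw [G.opp_opp d hd]; exact h1) c3
    rw [del_opp G hd, G.opp_opp d hd, if_neg c4] at this
    exact this
  · set g := G.opp h with hg
    have hgd : g ∈ G.darts := G.opp_mem h hh
    have hga : g ≠ d := by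
      intro h3
      apply h2
      rw [← h3, hg, G.opp_opp h hh]
    have hgb : g ≠ G.opp d := by
      intro h3
      apply h1
      rw [← G.opp_opp h hh, ← hg, h3, G.opp_opp d hd]
    obtain ⟨m, hm⟩ := rot_of_mem ((G.mem_rot (G.base g) g).2 ⟨hgd, rfl⟩)
    have e1 : fs (delE G d) h = nx (delE G d) g := rfl
    have e2 : fs G h = nx G g := rfl
    rw [e2, nx_rot G hm] at c1 c3
    rw [e1, nx_del G hd hm hga hgb, e2, nx_rot G hm]
    rcases m with _ | ⟨y, m⟩
    · simp
    · simp at c1 c3
      have hf : (y :: m).filter (fun x => decide (x ≠ d ∧ x ≠ G.opp d)) =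
          y :: m.filter (fun x => decide (x ≠ d ∧ x ≠ G.opp d)) :=
        List.filter_cons_of_pos (by simp [c1, c3])
      rw [head_congr (congrArg (fun l => l ++ [g]) hf)]
      simp

end RotWqo.Pl.Fc11
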