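import Pool.Agent.Lib.MP_cb4a0f_co.Pl.Stmts
import Pool.Agent.Lib.MP_cb4a0f_co.Pl.Nx6

/-!
# MP_cb4a0f_co: connected planar graphs embed in thick paths, from the modules
-/

open Classical

namespace RotWqo.Pl

variable {V H : Type*}

theorem mem_delE {G : RotGraph V H} {d : H} (hd : d ∈ G.darts) {h : H} :
    h ∈ (delE G d).darts ↔ h ∈ G.darts ∧ h ≠ d ∧ h ≠ G.opp d := by
  simp [delE, hd]

/-- In a connected built graph there are no isolated vertices, unless it is a single vertex. -/
theorem Bld.rot_ne_nil {G : RotGraph V H} (hG : Bld G) :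
    (G.verts.card = 1 ∧ G.darts = ∅) ∨ ∀ v ∈ G.verts, G.rot v ≠ [] := by
  induction hG with
  | single G h1 h2 => exact Or.inl ⟨h1, h2⟩
  | loop G h1 h2 =>
    right
    intro v hv h3
    obtain ⟨x, hx⟩ := Finset.card_eq_one.1 h1
    rw [hx, Finset.mem_singleton] at hv
    subst hv
    obtain ⟨h, hh⟩ := Finset.card_pos.1 (by omega : 0 < G.darts.card)
    have h4 := G.base_mem h hh
    rw [hx, Finset.mem_singleton] at h4
    have h5 := (G.mem_rot v h).2 ⟨hh, h4⟩
    rw [h3] at h5
    exact absurd h5 List.not_mem_nil
  | pend G d hd hr hB ih =>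
    right
    intro v hv h3
    by_cases h4 : v = G.base d
    · rw [h4, hr] at h3
      simp at h3
    · by_cases h5 : v = G.base (G.opp d)
      · have h6 := (G.mem_rot v (G.opp d)).2 ⟨G.opp_mem d hd, h5.symm⟩
        rw [h3] at h6
        exact absurd h6 List.not_mem_nil
      · have h6 : v ∈ (delL G d).verts := by
          simp only [delL, delV, Finset.mem_filter]
          exact ⟨hv, fun _ => h4⟩
        rcases ih with ⟨h7, -⟩ | h7
        · -- a single vertex: it is `base (opp d)`
          obtain ⟨x, hx⟩ := Finset.card_eq_one.1 h7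
          have h8 : G.base (G.opp d) ∈ (delL G d).verts := by
            simp only [delL, delV, Finset.mem_filter]
            refine ⟨G.base_mem _ (G.opp_mem d hd), fun _ h9 => ?_⟩
            have h10 := (G.mem_rot (G.base d) (G.opp d)).2 ⟨G.opp_mem d hd, h9⟩
            rw [hr, List.mem_singleton] at h10
            exact G.opp_ne d hd h10
          rw [hx, Finset.mem_singleton] at h6 h8
          exact h5 (h6.trans h8.symm)
        · refine h7 v h6 ?_
          change ((G.rot v).filter _) = []
          rw [h3]
          rfl
  | face G d hd h1 h2 hB ih =>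
    right
    intro v hv h3
    rcases ih with ⟨h4, h5⟩ | h4
    · -- one vertex without edges plus an edge
      obtain ⟨x, hx⟩ := Finset.card_eq_one.1 h4
      have h6 : G.verts = {x} := hx
      have h7 := G.base_mem d hd
      rw [h6, Finset.mem_singleton] at hv h7
      have h8 := (G.mem_rot v d).2 ⟨hd, h7.trans hv.symm⟩
      rw [h3] at h8
      exact absurd h8 List.not_mem_nil
    · refine h4 v hv ?_
      change ((G.rot v).filter _) = []
      rw [h3]
      rfl

theorem stPath_of (h1 : StThk) (h2 : StFace) (h3 : StPend) (h4 : StSub) (h5 : StSubTP)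
    (h6 : StThkTP) (h7 : StBase) : StPath := by
  intro V H G hG
  induction hG with
  | single G hv hd => exact ⟨1, 0, (h7 V H G).1 hv hd⟩
  | loop G hv hd => exact ⟨2, 2, (h7 V H G).2.1 hv hd⟩
  | face G d hd hf hn hB ih =>
    obtain ⟨n, N, h8⟩ := ih
    exact ⟨n, 3 * N, ((h2 V H G d hd hf hn).trans (h1 _ _ _ _ _ _ h8)).trans (h6 n N)⟩
  | pend G d hd hr hB ih =>
    obtain ⟨n, N, h8⟩ := ih
    by_cases ha : ∃ a, a ∈ (delL G d).darts ∧ nx G a = G.opp d
    · obtain ⟨a, ha, ha'⟩ := ha
      obtain ⟨x, hx, h9⟩ := h4 _ _ _ _ _ _ a ha h8
      exact ⟨n + 1, 3 * N, (((h3 V H G d a ha hd hr ha').trans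
        (h1 _ _ _ _ _ _ h9)).trans (h1 _ _ _ _ _ _ (h5 n N x hx))).trans (h6 (n + 1) N)⟩
    · -- the other end of `d` is isolated in `delL G d`
      have hne : G.base (G.opp d) ≠ G.base d := by
        intro h9
        have h10 := (G.mem_rot (G.base d) (G.opp d)).2 ⟨G.opp_mem d hd, h9⟩
        rw [hr, List.mem_singleton] at h10
        exact G.opp_ne d hd h10
      have hrot : G.rot (G.base (G.opp d)) = [G.opp d] := by
        obtain ⟨g, hg, hgb, hgn⟩ := exists_nx (G.opp_mem d hd)
        by_cases hgd : g = G.opp d
        · rcases nx_cases G (G.opp_mem d hd) with ⟨h9, -⟩ | ⟨l, h9⟩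
          · exact h9
          · rw [hgd] at hgn
            rw [hgn] at h9
            have := h9.nodup_iff.1 (G.nodup _)
            simp at this
        · exfalso
          refine ha ⟨g, ?_, hgn⟩
          refine (mem_delE hd).2 ⟨hg, ?_, hgd⟩
          rintro rfl
          exact hne hgb.symm
      have hv : G.base (G.opp d) ∈ (delL G d).verts := by
        simp only [delL, delV, Finset.mem_filter]
        exact ⟨G.base_mem _ (G.opp_mem d hd), fun _ => hne⟩
      have hnil : (delL G d).rot (G.base (G.opp d)) = [] := by
        change ((G.rot (G.base (G.opp d))).filter _) = []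
        rw [hrot]
        simp [hd]
      rcases hB.rot_ne_nil with ⟨h9, h10⟩ | h9
      · -- one edge
        refine ⟨2, 1, (h7 V H G).2.2 d ?_ ?_ hd hne⟩
        · have h11 : (delL G d).verts = G.verts.erase (G.base d) := by
            ext v
            simp only [delL, delV, Finset.mem_filter, Finset.mem_erase]
            have h12 : (delE G d).rot (G.base d) = [] := by
              change ((G.rot (G.base d)).filter _) = []
              rw [hr]
              simp [hd]
            constructor
            · rintro ⟨h13, h14⟩
              exact ⟨h14 h12, h13⟩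
            · rintro ⟨h13, h14⟩
              exact ⟨h14, fun _ => h13⟩
          rw [h11, Finset.card_erase_of_mem (G.base_mem d hd)] at h9
          omega
        · have h11 : G.darts = {d, G.opp d} := by
            ext h
            simp only [Finset.mem_insert, Finset.mem_singleton]
            constructor
            · intro hh
              by_contra h12
              push Not at h12
              have h13 : h ∈ (delL G d).darts := (mem_delE hd).2 ⟨hh, h12.1, h12.2⟩
              rw [h10] at h13
              exact absurd h13 (Finset.notMem_empty _)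
            · rintro (rfl | rfl)
              · exact hd
              · exact G.opp_mem d hd
          rw [h11, Finset.card_pair (G.opp_ne d hd).symm]
      · exact absurd hnil (h9 _ hv)

end RotWqo.Pl
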